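import Pool.Agent.LibTR13.Sieve

/-! MP_db25a0_nt, row AVGA.  -/

set_option autoImplicit false
set_option linter.unusedSectionVars false

namespace TR

open Polynomial Finset

theorem AVGA_mul (m s : ℕ) (F : ℕ → ℚ) :
    ∑ c ∈ range (m * s), F c = ∑ c ∈ range m, ∑ y ∈ range s, F (c + m * y) := by
  induction s with
  | zero => simp
  | succ s ih =>
    rw [Nat.mul_succ, Finset.sum_range_add, ih, ← Finset.sum_add_distrib]
    refine Finset.sum_congr rfl fun c _ => ?_
    rw [Finset.sum_range_succ, add_comm (m * s) c]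

theorem AVGA_bij (s u a : ℕ) (hs : 0 < s) (hu : Nat.Coprime s u) (h : ℕ → ℚ)
    (hh : ∀ z, h (z + s) = h z) :
    ∑ y ∈ range s, h (a + u * y) = ∑ z ∈ range s, h z := by
  have hm : ∀ z, h z = h (z % s) := fun z => (Function.Periodic.map_mod_nat (f := h) hh z).symm
  have hmaps : ∀ y ∈ range s, (a + u * y) % s ∈ range s :=
    fun y _ => mem_range.2 (Nat.mod_lt _ hs)
  have hinj : Set.InjOn (fun y => (a + u * y) % s) (range s : Set ℕ) := by
    intro y hy y' hy' hyy
    simp only [coe_range, Set.mem_Iio] at hy hy'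
    have h1 : a + u * y ≡ a + u * y' [MOD s] := hyy
    have h2 : u * y ≡ u * y' [MOD s] := Nat.ModEq.add_left_cancel' a h1
    have h3 : y ≡ y' [MOD s] := Nat.ModEq.cancel_left_of_coprime hu h2
    exact Nat.ModEq.eq_of_lt_of_lt h3 hy hy'
  refine Finset.sum_nbij (fun y => (a + u * y) % s) hmaps hinj ?_ fun y _ => hm _
  exact Finset.surjOn_of_injOn_of_card_le _ hmaps hinj le_rfl

theorem avg_split (m s k : ℕ) (f g : ℕ → ℚ) (hm : 0 < m) (hs : 0 < s) (hk : k ∣ m)
    (hc : Nat.Coprime m s) (hf : ∀ c, f (c + m) = f c) (hg : ∀ c, g (c + k * s) = g c) :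
    avg (m * s) (fun c => f c * g c) =
      avg m (fun c => f c * avg s (fun y => g (c % k + k * y))) := by
  obtain ⟨u, rfl⟩ := hk
  have hu : Nat.Coprime s u := (Nat.Coprime.coprime_mul_left hc).symm
  have hfm : ∀ c y, f (c + k * u * y) = f c := by
    intro c y
    induction y with
    | zero => simp
    | succ y ih => rw [Nat.mul_succ, ← add_assoc, hf, ih]
  have key : ∀ c, ∑ y ∈ range s, g (c + k * u * y) = ∑ y ∈ range s, g (c % k + k * y) := by
    intro c
    rw [← AVGA_bij s u (c / k) hs hu (fun z => g (c % k + k * z))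
      (fun z => by rw [Nat.mul_add, ← add_assoc, hg])]
    refine Finset.sum_congr rfl fun y _ => ?_
    congr 1
    conv_lhs => rw [← Nat.mod_add_div c k]
    ring
  unfold avg
  rw [AVGA_mul]
  have hs' : (s : ℚ) ≠ 0 := by exact_mod_cast hs.ne'
  have hm' : ((k * u : ℕ) : ℚ) ≠ 0 := by exact_mod_cast hm.ne'
  have h1 : ∀ c, ∑ y ∈ range s, f (c + k * u * y) * g (c + k * u * y) =
      (f c * ((∑ y ∈ range s, g (c % k + k * y)) / s)) * s := by
    intro c
    rw [← key c, mul_assoc, div_mul_cancel₀ _ hs', Finset.mul_sum]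
    exact Finset.sum_congr rfl fun y _ => by rw [hfm]
  rw [Finset.sum_congr rfl fun c _ => h1 c, ← Finset.sum_mul]
  push_cast at hm' ⊢
  field_simp

theorem avg_ib (s : ℕ) (p : ℕ → Bool) : avg s (fun y => ib (p y)) = (cnt s p : ℚ) / s := by
  unfold avg ib
  congr 1
  have h : ∀ s, ∑ c ∈ range s, (if p c = true then (1 : ℚ) else 0) = (cnt s p : ℚ) := by
    intro s
    induction s with
    | zero => simp [cnt]
    | succ s ih =>
      rw [Finset.sum_range_succ, ih]
      have hc : cnt (s + 1) p = if p s = true then cnt s p + 1 else cnt s p := rfl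
      rw [hc]
      split_ifs
      · push_cast; ring
      · simp
  exact h s

end TR
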