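import Pool.Agent.LibTR13.Sieve

/-! MP_db25a0_nt, row AVGB.  -/

set_option autoImplicit false
set_option linter.unusedSectionVars false

namespace TR

open Polynomial Finset


theorem count_le (Q : ℕ → Bool) (M : ℕ) (hM : 0 < M) (hQ : ∀ c, Q (c + M) = Q c) (N : ℕ) :
    (#((Icc 1 N).filter fun n => Q n = true) : ℝ) ≤ (avg M (fun c => ib (Q c)) : ℚ) * N + M := by
  classical
  set C : ℕ := M.count (fun n => Q n = true) with hC
  have key : ∀ N : ℕ, #((Icc 1 N).filter fun n => Q n = true) * M ≤ C * N + M * M := by
    intro N
    induction N using Nat.strong_induction_on with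
    | _ N ih =>
      rcases lt_or_ge N M with h | h
      · have h1 : #((Icc 1 N).filter fun n => Q n = true) ≤ N := by
          calc _ ≤ #(Icc 1 N) := card_filter_le _ _
            _ = N := by simp
        have h2 : #((Icc 1 N).filter fun n => Q n = true) * M ≤ M * M :=
          Nat.mul_le_mul_right _ (h1.trans h.le)
        omega
      · obtain ⟨n, rfl⟩ : ∃ n, N = n + M := ⟨N - M, by omega⟩
        have h1 := ih n (by omega)
        have h2 : (Icc 1 (n + M)).filter (fun n => Q n = true) =
            (Icc 1 n).filter (fun n => Q n = true) ∪
            (Ico (n + 1) (n + 1 + M)).filter (fun n => Q n = true) := by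
          rw [← filter_union]
          congr 1
          ext y
          simp only [mem_union, mem_Icc, mem_Ico]
          omega
        have h3 : #((Ico (n + 1) (n + 1 + M)).filter (fun n => Q n = true)) = C :=
          Nat.filter_Ico_card_eq_of_periodic (n + 1) M (fun n => Q n = true)
            (fun c => by simp only [hQ c])
        have h4 : #((Icc 1 (n + M)).filter fun n => Q n = true) ≤
            #((Icc 1 n).filter fun n => Q n = true) + C := by
          rw [h2, ← h3]
          exact card_union_le _ _
        calc #((Icc 1 (n + M)).filter fun n => Q n = true) * M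
            ≤ (#((Icc 1 n).filter fun n => Q n = true) + C) * M := Nat.mul_le_mul_right _ h4
          _ = #((Icc 1 n).filter fun n => Q n = true) * M + C * M := by ring
          _ ≤ (C * n + M * M) + C * M := Nat.add_le_add_right h1 _
          _ = C * (n + M) + M * M := by ring
  have havg : ((avg M (fun c => ib (Q c)) : ℚ) : ℝ) = (C : ℝ) / M := by
    have h1 : avg M (fun c => ib (Q c)) = (C : ℚ) / M := by
      unfold avg
      congr 1
      rw [hC, Nat.count_eq_card_filter_range]
      unfold ib
      rw [Finset.sum_ite]
      simp
    rw [h1]
    push_cast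
    ring
  rw [havg]
  have hM' : (0 : ℝ) < M := by exact_mod_cast hM
  have h1 : (#((Icc 1 N).filter fun n => Q n = true) : ℝ) * M ≤ C * N + M * M := by
    exact_mod_cast key N
  have h2 : (#((Icc 1 N).filter fun n => Q n = true) : ℝ) ≤ (C * N + M * M) / M := by
    rw [le_div_iff₀ hM']; exact h1
  refine h2.trans (le_of_eq ?_)
  field_simp

end TR
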