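import Pool.Agent.LibTR13.Def

/-! MP_db25a0_nt, row TRI. trinomials -/

set_option autoImplicit false
set_option linter.unusedSectionVars false

namespace TR

open Polynomial Finset

theorem TRI_deg (R : Type) [CommRing R] [Nontrivial R] (n k : ℕ) (hk : 0 < k) (hkn : k < n) :
    (X ^ k + 1 : R[X]).degree < n := by
  refine lt_of_le_of_lt (degree_add_le _ _) ?_
  rw [max_lt_iff, degree_X_pow, degree_one]
  constructor
  · exact_mod_cast hkn
  · exact_mod_cast (hk.trans hkn)

theorem tri_monic (R : Type) [CommRing R] (n k : ℕ) (hk : 0 < k) (hkn : k < n) :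
    (tri R n k).Monic := by
  nontriviality R
  unfold tri
  rw [add_assoc]
  exact monic_X_pow_add (TRI_deg R n k hk hkn)

theorem tri_natDegree (R : Type) [CommRing R] [Nontrivial R] (n k : ℕ) (hk : 0 < k)
    (hkn : k < n) : (tri R n k).natDegree = n := by
  have h : (tri R n k).degree = n := by
    unfold tri
    rw [add_assoc, degree_add_eq_left_of_degree_lt]
    · exact degree_X_pow n
    · rw [degree_X_pow]
      exact TRI_deg R n k hk hkn
  exact natDegree_eq_of_degree_eq_some h

theorem tri_map {R S : Type} [CommRing R] [CommRing S] (φ : R →+* S) (n k : ℕ) :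
    (tri R n k).map φ = tri S n k := by
  unfold tri
  simp only [Polynomial.map_add, Polynomial.map_pow, map_X, Polynomial.map_one]

theorem tri_eval {S : Type} [CommRing S] (n k : ℕ) (a : S) :
    (tri S n k).eval a = a ^ n + a ^ k + 1 := by
  unfold tri
  simp only [eval_add, eval_pow, eval_X, eval_one]

theorem tri_deriv {S : Type} [CommRing S] (n k : ℕ) (hk : 0 < k) (hkn : k < n) (a : S) :
    a * (tri S n k).derivative.eval a = n * a ^ n + k * a ^ k := by
  obtain ⟨k', rfl⟩ := Nat.exists_eq_succ_of_ne_zero hk.ne'
  obtain ⟨n', rfl⟩ := Nat.exists_eq_succ_of_ne_zero (hk.trans hkn).ne'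
  unfold tri
  simp only [derivative_add, derivative_X_pow, derivative_one, eval_add, eval_mul, eval_pow, eval_X,
    eval_natCast, eval_C, Nat.succ_sub_one, eval_zero, add_zero, map_natCast]
  rw [pow_succ' a n', pow_succ' a k']
  ring

end TR
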