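import Pool.Agent.LibTR13.Def
import Pool.Agent.LibTR13.Tri

/-! MP_db25a0_nt, row BAD. a root in a small ring -/

set_option autoImplicit false
set_option linter.unusedSectionVars false

namespace TR

open Polynomial Finset


theorem BAD_card (f : (ZMod 2)[X]) (hf : f.Monic) :
    Nat.card (AdjoinRoot f) = 2 ^ f.natDegree := by
  have hfin : Module.Finite (ZMod 2) (AdjoinRoot f) := (AdjoinRoot.powerBasis' hf).finite
  have h := Module.natCard_eq_pow_finrank (K := ZMod 2) (V := AdjoinRoot f)
  rw [h, Nat.card_zmod, (AdjoinRoot.powerBasis' hf).finrank, AdjoinRoot.powerBasis'_dim]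

theorem BAD_deg (e a : ℕ) : (pol e a).degree < e := by
  unfold pol
  refine Polynomial.mem_degreeLT.1 (Submodule.sum_mem _ fun i hi => ?_)
  rw [mem_range] at hi
  split_ifs
  · rw [Polynomial.mem_degreeLT]
    exact (Polynomial.degree_X_pow_le i).trans_lt (by exact_mod_cast hi)
  · exact Submodule.zero_mem _

theorem pol_card (P e : ℕ) (hP : P.testBit e = true) :
    Nat.card (AdjoinRoot (pol (e + 1) P)) = 2 ^ e := by
  have h1 : pol (e + 1) P = X ^ e + pol e P := by
    unfold pol
    rw [sum_range_succ, if_pos hP, add_comm]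
  have h2 : (pol (e + 1) P).Monic := by
    rw [h1]
    exact Polynomial.monic_X_pow_add (BAD_deg e P)
  have h3 : (pol (e + 1) P).natDegree = e := by
    rw [h1]
    refine Polynomial.natDegree_eq_of_degree_eq_some ?_
    have h4 : (pol e P).degree < (X ^ e : (ZMod 2)[X]).degree := by
      rw [Polynomial.degree_X_pow]
      exact BAD_deg e P
    rw [Polynomial.degree_add_eq_left_of_degree_lt h4, Polynomial.degree_X_pow]
  rw [BAD_card _ h2, h3]

/-- an irreducible `tri n 2` gives an injective map from a field with `2 ^ n` elements -/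
theorem root_bad {A : Type} [CommRing A] [Algebra (ZMod 2) A] (e : ℕ) (he : 1 ≤ e)
    (hc : Nat.card A = 2 ^ e) (α : A) (n : ℕ) (hn : e < n) (h : α ^ n + α ^ 2 + 1 = 0) :
    ¬ Irreducible (tri (ZMod 2) n 2) := by
  intro hirr
  rcases Nat.lt_or_ge 2 n with hn2 | hn2
  · have hfact : Fact (Irreducible (tri (ZMod 2) n 2)) := ⟨hirr⟩
    have hcard := BAD_card _ (tri_monic (ZMod 2) n 2 (by norm_num) hn2)
    rw [tri_natDegree (ZMod 2) n 2 (by norm_num) hn2] at hcard
    have hfin : Finite A := Nat.finite_of_card_ne_zero (by rw [hc]; positivity)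
    have hnt : Nontrivial A := by
      rw [← Finite.one_lt_card_iff_nontrivial, hc]
      exact Nat.one_lt_two_pow (by omega)
    have hev : (tri (ZMod 2) n 2).eval₂ (algebraMap (ZMod 2) A) α = 0 := by
      rw [← Polynomial.eval_map, tri_map, tri_eval]
      exact h
    have hinj : Function.Injective (AdjoinRoot.lift (algebraMap (ZMod 2) A) α hev) :=
      RingHom.injective _
    have hle := Nat.card_le_card_of_injective _ hinj
    rw [hcard, hc] at hle
    have h5 := (Nat.pow_le_pow_iff_right (by norm_num : 1 < 2)).1 hle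
    omega
  · have hn3 : n = 2 := by omega
    have h6 : tri (ZMod 2) n 2 = 1 := by
      have h7 : (2 : (ZMod 2)[X]) = 0 := by
        have h8 : ((2 : ℕ) : (ZMod 2)[X]) = 0 := CharP.cast_eq_zero _ 2
        exact_mod_cast h8
      unfold tri
      rw [hn3]
      linear_combination (X ^ 2) * h7
    rw [h6] at hirr
    exact not_irreducible_one hirr

end TR
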