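import Pool.Agent.LibTR13.Def

/-! MP_db25a0_nt, row BITA. arithmetic of bit masks -/

set_option autoImplicit false
set_option linter.unusedSectionVars false

namespace TR

open Polynomial Finset

private theorem BITA_two (p : (ZMod 2)[X]) : p + p = 0 := CharTwo.add_self_eq_zero p

private theorem BITA_xor (e a b : ℕ) : pol e (Nat.xor a b) = pol e a + pol e b := by
  unfold pol
  rw [← Finset.sum_add_distrib]
  refine Finset.sum_congr rfl fun i _ => ?_
  have h : (Nat.xor a b).testBit i = ((a.testBit i) ^^ (b.testBit i)) := Nat.testBit_xor a b i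
  rw [h]
  rcases Bool.eq_false_or_eq_true (a.testBit i) with ha | ha <;>
  rcases Bool.eq_false_or_eq_true (b.testBit i) with hb | hb <;>
  simp [ha, hb, BITA_two]

private theorem BITA_succ (e a : ℕ) : pol (e + 1) (2 * a) = X * pol e a := by
  unfold pol
  rw [Finset.sum_range_succ', Finset.mul_sum]
  have h0 : (2 * a).testBit 0 = false := by
    rw [Nat.testBit_zero]; simp
  rw [h0]
  simp only [Bool.false_eq_true, if_false, add_zero]
  refine Finset.sum_congr rfl fun i _ => ?_
  have h1 : (2 * a).testBit (i + 1) = a.testBit i := by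
    rw [Nat.testBit_succ]
    congr 1
    omega
  rw [h1]
  split_ifs with h
  · rw [pow_succ']
  · simp

private theorem BITA_top (e a : ℕ) (h : a.testBit e = false) : pol (e + 1) a = pol e a := by
  unfold pol
  rw [Finset.sum_range_succ, h]
  simp

theorem ev_xor (P e a b : ℕ) : ev P e (Nat.xor a b) = ev P e a + ev P e b := by
  unfold ev
  rw [BITA_xor, map_add]

theorem dbl_spec (P e : ℕ) (hP : P.testBit e = true) (hP2 : P < 2 ^ (e + 1))
    (a : ℕ) (ha : a < 2 ^ e) : dbl P e a < 2 ^ e ∧
    ev P e (dbl P e a) = AdjoinRoot.root (pol (e + 1) P) * ev P e a := by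
  have h2a : 2 * a < 2 ^ (e + 1) := by rw [pow_succ]; omega
  have hfin : ∀ m : ℕ, m < 2 ^ (e + 1) → m.testBit e = false → m < 2 ^ e := by
    intro m hm hb
    refine Nat.lt_pow_two_of_testBit m fun i hi => ?_
    rcases Nat.eq_or_lt_of_le hi with h | h
    · rw [← h]; exact hb
    · exact Nat.testBit_lt_two_pow (lt_of_lt_of_le hm (Nat.pow_le_pow_right (by norm_num) h))
  have hroot : AdjoinRoot.root (pol (e + 1) P) * ev P e a
      = AdjoinRoot.mk (pol (e + 1) P) (X * pol e a) := by
    unfold ev
    rw [map_mul, AdjoinRoot.mk_X]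
  rw [hroot]
  unfold dbl
  split_ifs with h
  · have hx : (Nat.xor (2 * a) P).testBit e = false := by
      have h' : (Nat.xor (2 * a) P).testBit e = (((2 * a).testBit e) ^^ (P.testBit e)) :=
        Nat.testBit_xor (2 * a) P e
      rw [h', h, hP]; rfl
    refine ⟨hfin _ (Nat.xor_lt_two_pow h2a hP2) hx, ?_⟩
    unfold ev
    rw [← BITA_top e _ hx, BITA_xor, BITA_succ, map_add, AdjoinRoot.mk_self, add_zero]
  · have hx : (2 * a).testBit e = false := by
      rcases Bool.eq_false_or_eq_true ((2 * a).testBit e) with h' | h'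
      · exact absurd h' h
      · exact h'
    refine ⟨hfin _ h2a hx, ?_⟩
    unfold ev
    rw [← BITA_top e _ hx, BITA_succ]

end TR
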