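import Pool.Agent.LibTR13.Def
import Pool.Agent.LibTR13.Bita

/-! MP_db25a0_nt, row BITB. (from BITA) -/

set_option autoImplicit false
set_option linter.unusedSectionVars false

namespace TR

open Polynomial Finset


theorem BITB_pol_succ (t b : ℕ) : pol (t + 1) b =
    (if b % 2 = 1 then 1 else 0) + X * pol t (b / 2) := by
  unfold pol
  rw [Finset.sum_range_succ', Finset.mul_sum, add_comm]
  congr 1
  · simp [Nat.testBit_zero]
  · refine Finset.sum_congr rfl fun i _ => ?_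
    rw [Nat.testBit_succ]
    split_ifs
    · rw [pow_succ']
    · simp

theorem BITB_aux (P e : ℕ) (hP : P.testBit e = true) (hP2 : P < 2 ^ (e + 1)) (t : ℕ) :
    ∀ a b acc : ℕ, a < 2 ^ e → acc < 2 ^ e → mulAux P e t a b acc < 2 ^ e ∧
      ev P e (mulAux P e t a b acc) =
        ev P e acc + ev P e a * AdjoinRoot.mk (pol (e + 1) P) (pol t b) := by
  induction t with
  | zero =>
    intro a b acc ha hacc
    refine ⟨hacc, ?_⟩
    have h0 : pol 0 b = 0 := by simp [pol]
    simp [mulAux, h0]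
  | succ t ih =>
    intro a b acc ha hacc
    obtain ⟨h1, h2⟩ := dbl_spec P e hP hP2 a ha
    have hacc' : (if b % 2 = 1 then Nat.xor acc a else acc) < 2 ^ e := by
      split_ifs
      · exact Nat.xor_lt_two_pow hacc ha
      · exact hacc
    obtain ⟨h3, h4⟩ := ih (dbl P e a) (b / 2) _ h1 hacc'
    refine ⟨h3, ?_⟩
    rw [mulAux, h4, h2, BITB_pol_succ t b, map_add, map_mul, AdjoinRoot.mk_X]
    split_ifs
    · rw [ev_xor, map_one]; ring
    · rw [map_zero]; ring

theorem mulm_spec (P e : ℕ) (hP : P.testBit e = true) (hP2 : P < 2 ^ (e + 1))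
    (a b : ℕ) (ha : a < 2 ^ e) (hb : b < 2 ^ e) : mulm P e a b < 2 ^ e ∧
    ev P e (mulm P e a b) = ev P e a * ev P e b := by
  obtain ⟨h1, h2⟩ := BITB_aux P e hP hP2 e a b 0 ha (by positivity)
  refine ⟨h1, ?_⟩
  have h0 : ev P e 0 = 0 := by
    have hz : pol e 0 = 0 := by simp [pol]
    rw [ev, hz, map_zero]
  rw [mulm, h2, h0, zero_add]
  rfl

theorem BITB_pow (P e : ℕ) (hP : P.testBit e = true) (hP2 : P < 2 ^ (e + 1)) (t : ℕ) :
    ∀ a b acc : ℕ, a < 2 ^ e → acc < 2 ^ e → b < 2 ^ t → powAux P e t a b acc < 2 ^ e ∧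
      ev P e (powAux P e t a b acc) = ev P e acc * ev P e a ^ b := by
  induction t with
  | zero =>
    intro a b acc ha hacc hb
    have hb0 : b = 0 := by simpa using hb
    subst hb0
    exact ⟨hacc, by simp [powAux]⟩
  | succ t ih =>
    intro a b acc ha hacc hb
    obtain ⟨h1, h2⟩ := mulm_spec P e hP hP2 a a ha ha
    obtain ⟨h5, h6⟩ := mulm_spec P e hP hP2 acc a hacc ha
    have hacc' : (if b % 2 = 1 then mulm P e acc a else acc) < 2 ^ e := by
      split_ifs
      · exact h5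
      · exact hacc
    obtain ⟨h3, h4⟩ := ih (mulm P e a a) (b / 2) _ h1 hacc' (by omega)
    refine ⟨h3, ?_⟩
    rw [powAux, h4, h2]
    have hdiv := Nat.div_add_mod b 2
    have hpow : (ev P e a * ev P e a) ^ (b / 2) = ev P e a ^ (2 * (b / 2)) := by
      rw [pow_mul, pow_two]
    rw [hpow]
    split_ifs with hodd
    · rw [h6, mul_assoc, ← pow_succ']
      congr 2
      omega
    · congr 2
      omega

theorem powx_spec (P e : ℕ) (hP : P.testBit e = true) (hP2 : P < 2 ^ (e + 1))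
    (he : 2 ≤ e) (b : ℕ) (hb : b < 2 ^ e) : powx P e b < 2 ^ e ∧
    ev P e (powx P e b) = AdjoinRoot.root (pol (e + 1) P) ^ b := by
  have h4 : 2 ^ 2 ≤ 2 ^ e := Nat.pow_le_pow_right (by norm_num) he
  obtain ⟨h1, h2⟩ := BITB_pow P e hP hP2 e 2 b 1 (by omega) (by omega) hb
  refine ⟨h1, ?_⟩
  obtain ⟨d, rfl⟩ := Nat.exists_eq_add_of_le he
  have hz : ∀ t, pol t 0 = 0 := by intro t; simp [pol]
  have hp1 : pol (2 + d) 1 = 1 := by
    rw [show 2 + d = (1 + d) + 1 by ring, BITB_pol_succ]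
    norm_num [hz]
  have hp2 : pol (2 + d) 2 = X := by
    rw [show 2 + d = (d + 1) + 1 by ring, BITB_pol_succ, show 2 / 2 = 1 by norm_num, BITB_pol_succ]
    norm_num [hz]
  have he1 : ev P (2 + d) 1 = 1 := by rw [ev, hp1, map_one]
  have he2 : ev P (2 + d) 2 = AdjoinRoot.root (pol (2 + d + 1) P) := by
    rw [ev, hp2, AdjoinRoot.mk_X]
  rw [powx, h2, he1, he2, one_mul]

end TR
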