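import Pool.Agent.LibTR13.Def
import Pool.Agent.LibTR13.Bita
import Pool.Agent.LibTR13.Bitb
import Pool.Agent.LibTR13.Bad

/-! MP_db25a0_nt, row CHK.  -/

set_option autoImplicit false
set_option linter.unusedSectionVars false

namespace TR

open Polynomial Finset


theorem CHK_pow {A : Type} [Monoid A] (α : A) (N : ℕ) (h : α ^ N = 1) (a b : ℕ)
    (hab : a % N = b % N) : α ^ a = α ^ b := by
  have h1 : ∀ c : ℕ, α ^ c = α ^ (c % N) := by
    intro c
    conv_lhs => rw [← Nat.div_add_mod c N, pow_add, pow_mul, h, one_pow, one_mul]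
  rw [h1 a, h1 b, hab]

theorem chk_sound (P e : ℕ) (he : 2 ≤ e) (l : List (ℕ × ℕ)) (h : chk P e l = true) (n : ℕ)
    (hn : e < n) (p : ℕ × ℕ) (hp : p ∈ l) (hs : n % (2 ^ e - 1) = p.2) :
    ¬ Irreducible (tri (ZMod 2) n 2) := by
  have h4 : 2 ^ 2 ≤ 2 ^ e := Nat.pow_le_pow_right (by norm_num) he
  rw [chk] at h
  simp only [Bool.and_eq_true, decide_eq_true_eq, List.all_eq_true] at h
  obtain ⟨⟨⟨hP, hP2⟩, h1⟩, h2⟩ := h
  have h2 := h2 p hp
  set N := 2 ^ e - 1 with hN
  set α := AdjoinRoot.root (pol (e + 1) P) with hα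
  have hev1 : ev P e 1 = 1 := by
    have h5 := (powx_spec P e hP hP2 he 0 (by positivity)).2
    rw [pow_zero] at h5
    have h6 := (powx_spec P e hP hP2 he N (by omega)).2
    rw [h1] at h6
    have h7 : powx P e 0 = 1 := by
      have : ∀ t a : ℕ, powAux P e t a 0 1 = 1 := by
        intro t
        induction t with
        | zero => intro a; rfl
        | succ t ih => intro a; rw [powAux]; simpa using ih _
      exact this e 2
    rw [h7] at h5
    exact h5
  have hαN : α ^ N = 1 := by
    have h6 := (powx_spec P e hP hP2 he N (by omega)).2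
    rw [h1, hev1] at h6
    exact h6.symm
  have hmod : ∀ c : ℕ, ev P e (powx P e (c % N)) = α ^ c := by
    intro c
    have hlt : c % N < N := Nat.mod_lt _ (by omega)
    rw [(powx_spec P e hP hP2 he (c % N) (by omega)).2]
    exact CHK_pow α N hαN _ _ (Nat.mod_mod _ _)
  have h3 := congrArg (ev P e) h2
  rw [ev_xor, hmod, hmod, hev1] at h3
  refine root_bad e (by omega) (pol_card P e hP) (α ^ p.1) n hn ?_
  have h5 : (α ^ p.1) ^ n = 1 + α ^ (2 * p.1) := by
    rw [← pow_mul, ← h3]
    refine CHK_pow α N hαN _ _ ?_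
    rw [Nat.mul_mod, hs, Nat.mul_mod p.1 p.2]
    congr 2
    rw [← hs, Nat.mod_mod]
  have h6 : (2 : AdjoinRoot (pol (e + 1) P)) = 0 := by
    have : ((2 : ZMod 2)) = 0 := by decide
    have h7 := congrArg (AdjoinRoot.of (pol (e + 1) P)) this
    rw [map_zero] at h7
    rw [← h7, map_ofNat]
  rw [h5, ← pow_mul, mul_comm 2 p.1]
  linear_combination (1 + α ^ (p.1 * 2)) * h6

theorem mask_sound (l : List (ℕ × ℕ)) (r : ℕ) (h : (mask l).testBit r = true) :
    ∃ p ∈ l, p.2 = r := by
  have key : ∀ (l : List (ℕ × ℕ)) (acc : ℕ),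
      (l.foldl (fun acc p => Nat.lor acc (2 ^ p.2)) acc).testBit r = true →
        acc.testBit r = true ∨ ∃ p ∈ l, p.2 = r := by
    intro l
    induction l with
    | nil => intro acc h; exact Or.inl h
    | cons q l ih =>
      intro acc h
      rw [List.foldl_cons] at h
      rcases ih _ h with h1 | ⟨p, hp, hpr⟩
      · have h2 : (acc ||| 2 ^ q.2).testBit r = true := h1
        rw [Nat.testBit_or, Bool.or_eq_true] at h2
        rcases h2 with h2 | h2
        · exact Or.inl h2
        · refine Or.inr ⟨q, by simp, ?_⟩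
          rw [Nat.testBit_two_pow] at h2
          simpa using h2
      · exact Or.inr ⟨p, by simp [hp], hpr⟩
  rcases key l 0 h with h1 | h1
  · simp at h1
  · exact h1

end TR
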