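import Pool.Agent.LibTR13.Pib

/-! MP_db25a0_nt, row CONJ. conjugates -/

set_option autoImplicit false
set_option linter.unusedSectionVars false

namespace TR

open Polynomial Finset

theorem CONJ_card (n k : ℕ) (hk : 0 < k) (hkn : k < n) : Nat.card (KK n k) = 2 ^ n := by
  have hm := tri_monic (ZMod 2) n k hk hkn
  haveI : Module.Finite (ZMod 2) (KK n k) := (AdjoinRoot.powerBasis' hm).finite
  have h1 := Module.natCard_eq_pow_finrank (K := ZMod 2) (V := KK n k)
  rw [h1, (AdjoinRoot.powerBasis' hm).finrank, AdjoinRoot.powerBasis'_dim,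
    tri_natDegree (ZMod 2) n k hk hkn, Nat.card_zmod]

theorem kk_pow (n k : ℕ) (hk : 0 < k) (hkn : k < n) (hirr : Irreducible (tri (ZMod 2) n k))
    (z : KK n k) : z ^ 2 ^ n = z := by
  haveI : Fact (Irreducible (tri (ZMod 2) n k)) := ⟨hirr⟩
  have hc := CONJ_card n k hk hkn
  haveI : Finite (KK n k) := Nat.finite_of_card_ne_zero (by rw [hc]; positivity)
  letI : Fintype (KK n k) := Fintype.ofFinite _
  have h1 := FiniteField.pow_card z
  rwa [← Nat.card_eq_fintype_card, hc] at h1

theorem root_pow_ne (n k : ℕ) (hk : 0 < k) (hkn : k < n)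
    (hirr : Irreducible (tri (ZMod 2) n k)) (i j : ℕ) (hij : i < j) (hj : j < n) :
    AdjoinRoot.root (tri (ZMod 2) n k) ^ 2 ^ i ≠ AdjoinRoot.root (tri (ZMod 2) n k) ^ 2 ^ j := by
  haveI : Fact (Irreducible (tri (ZMod 2) n k)) := ⟨hirr⟩
  haveI : CharP (KK n k) 2 := charP_of_injective_algebraMap (algebraMap (ZMod 2) (KK n k)).injective 2
  intro h
  set θ := AdjoinRoot.root (tri (ZMod 2) n k) with hθ
  -- the iterated Frobenius is injective
  have h1 : θ ^ 2 ^ (j - i) = θ := by
    have h2 : (θ ^ 2 ^ (j - i) - θ) ^ 2 ^ i = 0 := by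
      rw [sub_pow_char_pow, ← pow_mul, ← pow_add, Nat.sub_add_cancel hij.le, h, sub_self]
    exact sub_eq_zero.1 (pow_eq_zero_iff (by positivity) |>.1 h2)
  -- all elements are fixed by the same power
  have h2 : ∀ z : KK n k, z ^ 2 ^ (j - i) = z := by
    intro z
    obtain ⟨Q, rfl⟩ := AdjoinRoot.mk_surjective z
    induction Q using Polynomial.induction_on' with
    | add p q hp hq => rw [map_add, add_pow_char_pow, hp, hq]
    | monomial m a =>
      have h3 : AdjoinRoot.mk (tri (ZMod 2) n k) (monomial m a) =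
          AdjoinRoot.of (tri (ZMod 2) n k) a * θ ^ m := by
        rw [← C_mul_X_pow_eq_monomial, map_mul, map_pow, AdjoinRoot.mk_X, AdjoinRoot.mk_C]
      rw [h3, mul_pow, ← map_pow, ← pow_mul, mul_comm m, pow_mul, h1, ZMod.pow_card_pow]
  have hc := CONJ_card n k hk hkn
  haveI : Finite (KK n k) := Nat.finite_of_card_ne_zero (by rw [hc]; positivity)
  letI : Fintype (KK n k) := Fintype.ofFinite _
  have h3 : Fintype.card (KK n k) ≤ 2 ^ (j - i) := by
    classical
    have h4 : (X ^ 2 ^ (j - i) - X : (KK n k)[X]) ≠ 0 :=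
      FiniteField.X_pow_card_pow_sub_X_ne_zero _ (by omega) (by norm_num)
    have h5 : (X ^ 2 ^ (j - i) - X : (KK n k)[X]).natDegree = 2 ^ (j - i) :=
      FiniteField.X_pow_card_pow_sub_X_natDegree_eq _ (by omega) (by norm_num)
    have h6 : (univ : Finset (KK n k)) ⊆ (X ^ 2 ^ (j - i) - X : (KK n k)[X]).roots.toFinset := by
      intro z _
      rw [Multiset.mem_toFinset, mem_roots h4, IsRoot.def, eval_sub, eval_pow, eval_X, h2 z, sub_self]
    calc Fintype.card (KK n k) = #(univ : Finset (KK n k)) := rfl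
      _ ≤ #((X ^ 2 ^ (j - i) - X : (KK n k)[X]).roots.toFinset) := card_le_card h6
      _ ≤ Multiset.card (X ^ 2 ^ (j - i) - X : (KK n k)[X]).roots := Multiset.toFinset_card_le _
      _ ≤ (X ^ 2 ^ (j - i) - X : (KK n k)[X]).natDegree := card_roots' _
      _ = 2 ^ (j - i) := h5
  rw [← Nat.card_eq_fintype_card, hc] at h3
  have := (Nat.pow_le_pow_iff_right (by norm_num : 1 < 2)).1 h3
  omega

end TR
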