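import Pool.Agent.LibTR13.Def

/-! MP_db25a0_nt, row ORD. primes with ord_r(2) = e -/

set_option autoImplicit false
set_option linter.unusedSectionVars false

namespace TR

open Polynomial Finset

theorem ordS_mem (e r : ℕ) (he : 0 < e) : r ∈ ordS e ↔ r.Prime ∧ orderOf (2 : ZMod r) = e := by
  have h1 : 2 ≤ 2 ^ e := by
    calc 2 = 2 ^ 1 := by norm_num
      _ ≤ 2 ^ e := Nat.pow_le_pow_right (by norm_num) he
  unfold ordS
  rw [mem_filter, Nat.mem_primeFactors]
  constructor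
  · rintro ⟨⟨hp, _, _⟩, ho⟩
    exact ⟨hp, ho⟩
  · rintro ⟨hp, ho⟩
    refine ⟨⟨hp, ?_, by omega⟩, ho⟩
    have h2 : (2 : ZMod r) ^ e = 1 := by
      rw [← ho]; exact pow_orderOf_eq_one _
    rw [← ZMod.natCast_eq_zero_iff]
    rw [Nat.cast_sub (by omega)]
    push_cast
    rw [h2, sub_self]

theorem ordS_mod (e r : ℕ) (he : e % 2 = 1) (he3 : 3 ≤ e) (hr : r ∈ ordS e) :
    r % (2 * e) = 1 := by
  have h := (ordS_mem e r (by omega)).mp hr
  have hp := h.1
  have : Fact r.Prime := ⟨hp⟩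
  have h1 : 2 ≤ 2 ^ e := by
    calc 2 = 2 ^ 1 := by norm_num
      _ ≤ 2 ^ e := Nat.pow_le_pow_right (by norm_num) (by omega)
  have h2 : (2 : ZMod r) ^ e = 1 := by
    rw [← h.2]; exact pow_orderOf_eq_one _
  have h20 : (2 : ZMod r) ≠ 0 := by
    intro h0
    rw [h0, zero_pow (by omega)] at h2
    exact zero_ne_one h2
  have hodd : r ≠ 2 := by
    rintro rfl
    exact h20 (by exact CharTwo.two_eq_zero)
  have hd : e ∣ r - 1 := by
    have := ZMod.orderOf_dvd_card_sub_one (p := r) h20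
    rwa [h.2] at this
  have h2r : r % 2 = 1 := (hp.eq_two_or_odd).resolve_left hodd
  have hd2 : 2 ∣ r - 1 := by omega
  have hcop : Nat.Coprime 2 e := by
    rw [Nat.coprime_two_left]
    exact Nat.odd_iff.mpr he
  have hd3 : 2 * e ∣ r - 1 := hcop.mul_dvd_of_dvd_of_dvd hd2 hd
  obtain ⟨k, hk⟩ := hd3
  have hr1 : 1 ≤ r := hp.one_le
  have hrk : r = 1 + 2 * e * k := by omega
  rw [hrk, Nat.add_mul_mod_self_left]
  exact Nat.mod_eq_of_lt (by omega)

/-- the product of the members divides `2 ^ e - 1` -/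
theorem ordS_pow (e R : ℕ) (he : 0 < e) (s : Finset ℕ) (hs : s ⊆ ordS e) (hR : ∀ r ∈ s, R ≤ r) :
    R ^ #s ≤ 2 ^ e := by
  have h1 : 2 ≤ 2 ^ e := by
    calc 2 = 2 ^ 1 := by norm_num
      _ ≤ 2 ^ e := Nat.pow_le_pow_right (by norm_num) he
  have hsub : s ⊆ (2 ^ e - 1).primeFactors := fun r hr => (mem_filter.mp (hs hr)).1
  have h2 : ∏ r ∈ s, r ∣ 2 ^ e - 1 :=
    (Finset.prod_dvd_prod_of_subset _ _ _ hsub).trans (Nat.prod_primeFactors_dvd _)
  have h3 : ∏ r ∈ s, r ≤ 2 ^ e - 1 := Nat.le_of_dvd (by omega) h2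
  have h4 : R ^ #s ≤ ∏ r ∈ s, r := by
    rw [← Finset.prod_const]
    exact Finset.prod_le_prod' hR
  omega

theorem ORD_harm (c : ℕ) : ∀ K : Finset ℕ, #K = c → (∀ k ∈ K, 1 ≤ k) →
    ∑ k ∈ K, (1 : ℝ) / k ≤ ∑ j ∈ range c, (1 : ℝ) / (j + 1) := by
  induction c with
  | zero =>
    intro K hK _
    rw [Finset.card_eq_zero] at hK
    simp [hK]
  | succ c ih =>
    intro K hK hpos
    have hne : K.Nonempty := by
      rw [← Finset.card_pos]; omega
    set m := K.max' hne with hm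
    have hmK : m ∈ K := K.max'_mem hne
    have hsub : K ⊆ Icc 1 m := by
      intro k hk
      rw [mem_Icc]
      exact ⟨hpos k hk, K.le_max' k hk⟩
    have hcm : c + 1 ≤ m := by
      have := Finset.card_le_card hsub
      rw [hK, Nat.card_Icc] at this
      omega
    rw [← Finset.add_sum_erase K _ hmK, Finset.sum_range_succ, add_comm]
    have h1 := ih (K.erase m) (by rw [Finset.card_erase_of_mem hmK, hK]; rfl)
      (fun k hk => hpos k (Finset.mem_of_mem_erase hk))
    have h2 : (1 : ℝ) / (m : ℝ) ≤ 1 / ((c : ℝ) + 1) := by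
      apply one_div_le_one_div_of_le (by positivity)
      exact_mod_cast hcm
    exact add_le_add h1 h2

/-- the `j`-th member is at least `2 e j + 1` -/
theorem ordS_sum (e : ℕ) (he : e % 2 = 1) (he3 : 3 ≤ e) :
    ∑ r ∈ ordS e, (1 : ℝ) / r ≤ (∑ j ∈ range #(ordS e), (1 : ℝ) / (j + 1)) / (2 * e) := by
  have hstr : ∀ r ∈ ordS e, r = 1 + 2 * e * (r / (2 * e)) := by
    intro r hr
    have h1 := ordS_mod e r he he3 hr
    have h2 := Nat.mod_add_div r (2 * e)
    omega
  have hinj : Set.InjOn (fun r => r / (2 * e)) (ordS e : Set ℕ) := by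
    intro a ha b hb hab
    have ha' := hstr a ha
    have hb' := hstr b hb
    simp only at hab
    rw [ha', hb', hab]
  have hcard : #((ordS e).image (fun r => r / (2 * e))) = #(ordS e) :=
    Finset.card_image_of_injOn hinj
  have hpos : ∀ k ∈ (ordS e).image (fun r => r / (2 * e)), 1 ≤ k := by
    intro k hk
    obtain ⟨r, hr, rfl⟩ := mem_image.mp hk
    by_contra h0
    have h1 := hstr r hr
    have h2 : r / (2 * e) = 0 := Nat.lt_one_iff.mp (not_le.mp h0)
    rw [h2] at h1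
    have h3 := ((ordS_mem e r (by omega)).mp hr).1
    rw [h1] at h3
    exact absurd h3 (by norm_num)
  have hH := ORD_harm _ _ hcard hpos
  rw [Finset.sum_image hinj] at hH
  rw [le_div_iff₀ (by positivity)]
  refine le_trans ?_ hH
  rw [Finset.sum_mul]
  apply Finset.sum_le_sum
  intro r hr
  have h1 := hstr r hr
  have h2 : 1 ≤ r / (2 * e) := hpos _ (mem_image_of_mem _ hr)
  have h3 : (2 * (e : ℝ)) * ((r / (2 * e) : ℕ) : ℝ) ≤ (r : ℝ) := by
    have : 2 * e * (r / (2 * e)) ≤ r := Nat.mul_div_le r (2 * e)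
    exact_mod_cast this
  have h4 : (0 : ℝ) < ((r / (2 * e) : ℕ) : ℝ) := by exact_mod_cast h2
  have h5 : (0 : ℝ) < (r : ℝ) := by
    have : 0 < r := by omega
    exact_mod_cast this
  rw [one_div, inv_mul_eq_div, div_le_div_iff₀ h5 h4]
  linarith

end TR
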