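import Pool.Agent.LibTR13.Def
import Pool.Agent.LibTR13.Ord

/-! MP_db25a0_nt, row EXPL. (from ORD): explicit part -/

set_option autoImplicit false
set_option linter.unusedSectionVars false

namespace TR

open Polynomial Finset


/-
Plan. For odd `e ∈ [5, 401]` split `ordS e` at `2 ^ 14`. Members `r ≥ 2 ^ 14`: `14 * # ≤ e`
(`ordS_pow` with `R = 2 ^ 14`), so they contribute at most `(e / 14) / 2 ^ 14 / e = 1 / (14 * 16384)`
to `wt e`; 199 values of `e`: total `≤ 0.00087`.
Members `r < 2 ^ 14`: `r = 2 e j + 1` (`ordS_mod`), `2 ^ e % r = 1`, and `2 ^ (e / q) % r ≠ 1` for the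
primes `q ∈ [3,5,7,11,13,17,19]` dividing `e`. Kernel computation (`decide +kernel`, about 19000
pairs `(e, j)`, structural recursion with `Nat.rec`/fuel, `2 ^ e % r` is fast in the kernel): every
pair `(e, r)` with these properties is in the list `LE` below (106 pairs, some `r` composite, this
only increases the bound). The sum of `1 / (e r)` over `LE` is `0.0176560543` (`norm_num` or
`decide +kernel` over `ℚ`, or integers: sum of `10 ^ 12 / (e r) + 1`). Total `≤ 0.01853 < 0.0186`.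
LE = [(5, 31), (7, 127), (9, 73), (11, 23), (11, 89), (11, 2047), (13, 8191), (15, 151), (15, 4681), (21, 337), (23, 47), (25, 601), (25, 1801), (29, 233), (29, 1103), (29, 2089), (35, 71), (37, 223), (39, 79), (41, 13367), (43, 431), (43, 9719), (45, 631), (45, 15841), (47, 2351), (47, 4513), (51, 103), (51, 2143), (51, 11119), (53, 6361), (55, 881), (55, 3191), (73, 439), (79, 2687), (81, 2593), (83, 167), (87, 4177), (91, 911), (95, 191), (97, 11447), (99, 199), (113, 3391), (115, 14951), (117, 937), (117, 6553), (119, 239), (121, 727), (131, 263), (135, 271), (153, 919), (155, 311), (155, 11471), (159, 6679), (161, 1289), (169, 4057), (179, 359), (179, 1433), (183, 367), (191, 383), (197, 7487), (201, 1609), (211, 15193), (215, 1721), (217, 5209), (219, 3943), (221, 1327), (231, 463), (233, 1399), (237, 1423), (239, 479), (239, 1913), (239, 5737), (243, 487), (245, 1471), (247, 15809), (251, 503), (279, 16183), (283, 9623), (295, 4721), (299, 599),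 (303, 607), (305, 1831), (305, 2441), (305, 4271), (317, 9511), (323, 647), (323, 7753), (325, 7151), (329, 12503), (333, 1999), (333, 10657), (341, 2047), (357, 4999), (359, 719), (363, 8713), (365, 8761), (367, 12479), (371, 743), (371, 2969), (375, 751), (377, 5279), (381, 2287), (381, 15241), (395, 12641), (397, 2383), (397, 6353)]
-/

/-- test of the order -/
def EXPL_g (e r : ℕ) : Bool :=
  decide (2 ^ e % r = 1) &&
    [3, 5, 7, 11, 13, 17, 19].all fun q => !(decide (e % q = 0) && decide (2 ^ (e / q) % r = 1))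

/-- one term -/
def EXPL_t (e j : ℕ) : ℕ :=
  if EXPL_g e (2 * e * (j + 1) + 1) = true then 10 ^ 12 / (e * (2 * e * (j + 1) + 1)) + 1 else 0

/-- sum over `j < n` -/
def EXPL_in (e n : ℕ) : ℕ := Nat.rec 0 (fun j a => a + EXPL_t e j) n

/-- total -/
def EXPL_tot (n : ℕ) : ℕ := Nat.rec 0 (fun i a => a + EXPL_in (2 * i + 5) (8191 / (2 * i + 5))) n

set_option maxRecDepth 100000 in
theorem EXPL_tot_le : EXPL_tot 199 ≤ 17656100000 := by decide +kernel

theorem EXPL_in_eq (e n : ℕ) : EXPL_in e n = ∑ j ∈ range n, EXPL_t e j := by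
  induction n with
  | zero => rfl
  | succ n ih =>
    rw [sum_range_succ, ← ih]
    rfl

theorem EXPL_tot_eq (n : ℕ) :
    EXPL_tot n = ∑ i ∈ range n, EXPL_in (2 * i + 5) (8191 / (2 * i + 5)) := by
  induction n with
  | zero => rfl
  | succ n ih =>
    rw [sum_range_succ, ← ih]
    rfl

theorem EXPL_pow_iff {r : ℕ} (hr : 1 < r) (k : ℕ) :
    (2 : ZMod r) ^ k = 1 ↔ 2 ^ k % r = 1 := by
  have h := ZMod.natCast_eq_natCast_iff' (2 ^ k) 1 r
  rw [Nat.mod_eq_of_lt hr] at h
  rw [← h]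
  push_cast
  rfl

theorem EXPL_g_true {e r : ℕ} (he : 0 < e) (hr : r ∈ ordS e) : EXPL_g e r = true := by
  obtain ⟨hp, ho⟩ := (ordS_mem e r he).1 hr
  have h1 : 2 ^ e % r = 1 := by
    rw [← EXPL_pow_iff hp.one_lt, ← ho]
    exact pow_orderOf_eq_one _
  have h2 : ∀ q : ℕ, 1 < q → ¬ (e % q = 0 ∧ 2 ^ (e / q) % r = 1) := by
    rintro q hq ⟨h3, h4⟩
    rw [← EXPL_pow_iff hp.one_lt] at h4
    have h5 := orderOf_dvd_of_pow_eq_one h4
    rw [ho] at h5
    have h6 : 0 < e / q := Nat.div_pos (Nat.le_of_dvd he (Nat.dvd_of_mod_eq_zero h3)) (by omega)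
    have h7 := Nat.le_of_dvd h6 h5
    have h8 := Nat.div_lt_self he hq
    omega
  rw [EXPL_g, Bool.and_eq_true, decide_eq_true_eq, List.all_eq_true]
  refine ⟨h1, fun q hq => ?_⟩
  rw [Bool.not_eq_true', Bool.and_eq_false_iff, decide_eq_false_iff_not, decide_eq_false_iff_not]
  have hq1 : 1 < q := by
    simp only [List.mem_cons, List.not_mem_nil, or_false] at hq
    omega
  have := h2 q hq1
  tauto

theorem EXPL_term {e j : ℕ} (he : 0 < e) (hg : EXPL_g e (2 * e * (j + 1) + 1) = true) :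
    (1 : ℝ) / ((2 * e * (j + 1) + 1 : ℕ) : ℝ) / e ≤ (EXPL_t e j : ℝ) / 10 ^ 12 := by
  rw [EXPL_t, if_pos hg]
  set r : ℕ := 2 * e * (j + 1) + 1 with hr
  have hr0 : 0 < r := Nat.succ_pos _
  have hr1 : (0 : ℝ) < r := by exact_mod_cast hr0
  have he1 : (0 : ℝ) < e := by exact_mod_cast he
  have h1 : (10 : ℕ) ^ 12 < (10 ^ 12 / (e * r) + 1) * (e * r) := by
    have h2 := Nat.lt_div_mul_add (a := 10 ^ 12) (b := e * r) (Nat.mul_pos he hr0)
    rw [add_mul, one_mul]
    exact h2
  have h3 : (10 : ℝ) ^ 12 < ((10 ^ 12 / (e * r) + 1 : ℕ) : ℝ) * (e * r) := by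
    exact_mod_cast h1
  rw [div_div, div_le_div_iff₀ (by positivity) (by positivity)]
  nlinarith

theorem EXPL_small {e : ℕ} (ho : e % 2 = 1) (he : 5 ≤ e) :
    (∑ r ∈ (ordS e).filter (fun r => r < 2 ^ 14), (1 : ℝ) / r) / e ≤
      (EXPL_in e (8191 / e) : ℝ) / 10 ^ 12 := by
  have he1 : (0 : ℝ) < e := by exact_mod_cast (by omega : 0 < e)
  have hsub : (ordS e).filter (fun r => r < 2 ^ 14) ⊆
      ((range (8191 / e)).filter (fun j => EXPL_g e (2 * e * (j + 1) + 1) = true)).image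
        (fun j => 2 * e * (j + 1) + 1) := by
    intro r hr
    rw [mem_filter] at hr
    obtain ⟨hr, hr2⟩ := hr
    have hmod := ordS_mod e r ho (by omega) hr
    have hp := ((ordS_mem e r (by omega)).1 hr).1
    have h1 := Nat.div_add_mod r (2 * e)
    rw [hmod] at h1
    have h2 : r / (2 * e) ≠ 0 := by
      intro h0
      rw [h0, mul_zero, zero_add] at h1
      exact hp.one_lt.ne h1
    obtain ⟨j, hj⟩ := Nat.exists_eq_succ_of_ne_zero h2
    rw [hj] at h1
    rw [mem_image]
    refine ⟨j, ?_, h1⟩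
    rw [mem_filter, mem_range]
    refine ⟨?_, ?_⟩
    · rw [← Nat.succ_le_iff, Nat.le_div_iff_mul_le (by omega)]
      have h3 : 2 * (e * Nat.succ j) + 1 < 2 ^ 14 := by
        rw [← mul_assoc, h1]
        exact hr2
      rw [mul_comm]
      omega
    · have h4 : 2 * e * (j + 1) + 1 = r := h1
      rw [h4]
      exact EXPL_g_true (by omega) hr
  have hinj : Set.InjOn (fun j : ℕ => 2 * e * (j + 1) + 1)
      ((range (8191 / e)).filter (fun j => EXPL_g e (2 * e * (j + 1) + 1) = true) : Finset ℕ) := by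
    intro a _ b _ hab
    have h1 : 2 * e * (a + 1) = 2 * e * (b + 1) := Nat.succ_injective hab
    have h2 := Nat.eq_of_mul_eq_mul_left (by omega : 0 < 2 * e) h1
    omega
  calc (∑ r ∈ (ordS e).filter (fun r => r < 2 ^ 14), (1 : ℝ) / r) / e
      ≤ (∑ r ∈ ((range (8191 / e)).filter (fun j => EXPL_g e (2 * e * (j + 1) + 1) = true)).image
        (fun j => 2 * e * (j + 1) + 1), (1 : ℝ) / r) / e := by
        refine div_le_div_of_nonneg_right ?_ he1.le
        exact sum_le_sum_of_subset_of_nonneg hsub fun _ _ _ => by positivity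
    _ = ∑ j ∈ (range (8191 / e)).filter (fun j => EXPL_g e (2 * e * (j + 1) + 1) = true),
        (1 : ℝ) / ((2 * e * (j + 1) + 1 : ℕ) : ℝ) / e := by
        rw [sum_image hinj, sum_div]
    _ ≤ ∑ j ∈ (range (8191 / e)).filter (fun j => EXPL_g e (2 * e * (j + 1) + 1) = true),
        (EXPL_t e j : ℝ) / 10 ^ 12 := by
        refine sum_le_sum fun j hj => ?_
        exact EXPL_term (by omega) (mem_filter.1 hj).2
    _ ≤ ∑ j ∈ range (8191 / e), (EXPL_t e j : ℝ) / 10 ^ 12 :=
        sum_le_sum_of_subset_of_nonneg (filter_subset _ _) fun _ _ _ => by positivity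
    _ = (EXPL_in e (8191 / e) : ℝ) / 10 ^ 12 := by
        rw [EXPL_in_eq, Nat.cast_sum, sum_div]

theorem EXPL_large {e : ℕ} (he : 5 ≤ e) :
    (∑ r ∈ (ordS e).filter (fun r => ¬ r < 2 ^ 14), (1 : ℝ) / r) / e ≤ 1 / (14 * 2 ^ 14) := by
  have he1 : (0 : ℝ) < e := by exact_mod_cast (by omega : 0 < e)
  set s := (ordS e).filter (fun r => ¬ r < 2 ^ 14) with hs
  have h1 := ordS_pow e (2 ^ 14) (by omega) s (filter_subset _ _)
    (fun r hr => not_lt.1 (mem_filter.1 hr).2)
  rw [← pow_mul] at h1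
  have h2 : 14 * #s ≤ e := (Nat.pow_le_pow_iff_right (by norm_num)).1 h1
  have h3 : (14 : ℝ) * #s ≤ e := by exact_mod_cast h2
  have h4 : ∑ r ∈ s, (1 : ℝ) / r ≤ #s * (1 / 2 ^ 14) := by
    rw [← nsmul_eq_mul]
    refine sum_le_card_nsmul _ _ _ fun r hr => ?_
    have h5 : 2 ^ 14 ≤ r := not_lt.1 (mem_filter.1 hr).2
    have h6 : (2 : ℝ) ^ 14 ≤ r := by exact_mod_cast h5
    exact one_div_le_one_div_of_le (by positivity) h6
  rw [div_le_div_iff₀ he1 (by positivity)]
  nlinarith

theorem EXPL_wt (i : ℕ) : wt (2 * i + 5) ≤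
    (EXPL_in (2 * i + 5) (8191 / (2 * i + 5)) : ℝ) / 10 ^ 12 + 1 / (14 * 2 ^ 14) := by
  have h1 := EXPL_small (e := 2 * i + 5) (by omega) (by omega)
  have h2 := EXPL_large (e := 2 * i + 5) (by omega)
  rw [wt, if_pos ⟨by omega, by omega⟩,
    ← sum_filter_add_sum_filter_not (ordS (2 * i + 5)) (fun r => r < 2 ^ 14), add_div]
  exact add_le_add h1 h2

/-- members `r ≥ 2 ^ 14` of `ordS e`: at most `e / 14` of them, by `ordS_pow`; the others are
`≡ 1 mod 2 e` and divide `2 ^ e - 1`: kernel computation, see the list in the row text -/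
theorem wt_small : ∑ e ∈ range 402, wt e ≤ 0.0186 := by
  have h1 : ∑ e ∈ range 402, wt e = ∑ e ∈ (range 199).image (fun i => 2 * i + 5), wt e := by
    symm
    refine sum_subset ?_ ?_
    · intro e he
      rw [mem_image] at he
      obtain ⟨i, hi, rfl⟩ := he
      rw [mem_range] at hi ⊢
      omega
    · intro e he he2
      rw [wt, if_neg]
      rintro ⟨h3, h4⟩
      rw [mem_range] at he
      apply he2
      rw [mem_image]
      exact ⟨(e - 5) / 2, mem_range.2 (by omega), by omega⟩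
  have h2 : ∑ e ∈ (range 199).image (fun i => 2 * i + 5), wt e = ∑ i ∈ range 199, wt (2 * i + 5) :=
    sum_image fun a _ b _ hab => by
      have h3 : 2 * a + 5 = 2 * b + 5 := hab
      omega
  have h3 : ∑ i ∈ range 199, wt (2 * i + 5) ≤ ∑ i ∈ range 199,
      ((EXPL_in (2 * i + 5) (8191 / (2 * i + 5)) : ℝ) / 10 ^ 12 + 1 / (14 * 2 ^ 14)) :=
    sum_le_sum fun i _ => EXPL_wt i
  have h4 : ∑ i ∈ range 199,
      ((EXPL_in (2 * i + 5) (8191 / (2 * i + 5)) : ℝ) / 10 ^ 12 + 1 / (14 * 2 ^ 14)) =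
      (EXPL_tot 199 : ℝ) / 10 ^ 12 + 199 * (1 / (14 * 2 ^ 14)) := by
    rw [sum_add_distrib, EXPL_tot_eq, Nat.cast_sum, sum_div, sum_const, card_range, nsmul_eq_mul]
    norm_num
  have h5 : (EXPL_tot 199 : ℝ) ≤ 17656100000 := by exact_mod_cast EXPL_tot_le
  rw [h1, h2]
  refine h3.trans ?_
  rw [h4]
  have h6 : (EXPL_tot 199 : ℝ) / 10 ^ 12 ≤ 17656100000 / 10 ^ 12 := by
    exact div_le_div_of_nonneg_right h5 (by positivity)
  refine (add_le_add_left h6 _).trans ?_
  norm_num

end TR
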