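import Pool.Agent.LibTR13.Sig

/-! MP_db25a0_nt, row FAC. factorisation over the Galois ring -/

set_option autoImplicit false
set_option linter.unusedSectionVars false

namespace TR

open Polynomial Finset

theorem prod_of_roots {S : Type} [CommRing S] (F : S[X]) (hF : F.Monic) (n : ℕ)
    (hd : F.natDegree = n) (x : ℕ → S) (hr : ∀ i < n, F.eval (x i) = 0)
    (hu : ∀ i j, i < j → j < n → IsUnit (x j - x i)) :
    F = ∏ i ∈ range n, (X - C (x i)) := by
  induction n generalizing F with
  | zero =>
    rw [range_zero, prod_empty]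
    exact hF.natDegree_eq_zero.1 hd
  | succ n ih =>
    nontriviality S
    obtain ⟨G, hG⟩ := (dvd_iff_isRoot (p := F) (a := x n)).2 (hr n (Nat.lt_succ_self n))
    have hm : (X - C (x n)).Monic := monic_X_sub_C (x n)
    have hGm : G.Monic := by
      rw [hG] at hF
      exact hm.of_mul_monic_left hF
    have hGd : G.natDegree = n := by
      have h1 : F.natDegree = (X - C (x n)).natDegree + G.natDegree := by
        rw [hG]; exact hm.natDegree_mul hGm
      rw [hd, natDegree_X_sub_C] at h1
      omega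
    have h2 := ih G hGm hGd (by
      intro i hi
      have h3 := hr i (by omega)
      rw [hG, eval_mul, eval_sub, eval_X, eval_C] at h3
      have h4 : IsUnit (x i - x n) := by
        have := (hu i n hi (Nat.lt_succ_self n)).neg
        rwa [neg_sub] at this
      exact (h4.mul_right_eq_zero).1 h3) (fun i j hij hj => hu i j hij (by omega))
    rw [prod_range_succ, ← h2, hG]
    ring

theorem tri_factor (n k : ℕ) (hk : k % 2 = 1) (hkn : k < n)
    (hirr : Irreducible (tri (ZMod 2) n k)) (σ : RR n k →+* RR n k)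
    (hσ : ∀ r, pi n k (σ r) = pi n k r ^ 2) (x : ℕ → RR n k)
    (hx0 : x 0 = AdjoinRoot.root (tri (ZMod 8) n k)) (hx : ∀ i, x (i + 1) = σ (x i)) :
    tri (RR n k) n k = ∏ i ∈ range n, (X - C (x i)) ∧ x n = x 0 ∧
      ∀ i j, i < j → j < n → IsUnit (x j - x i) := by
  haveI : Fact (Irreducible (tri (ZMod 2) n k)) := ⟨hirr⟩
  have hk0 : 0 < k := by omega
  haveI : Nontrivial (RR n k) := by
    refine ⟨0, 1, ?_⟩
    intro h
    have := congrArg (pi n k) h
    rw [map_zero, map_one] at this
    exact zero_ne_one this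
  have hpx : ∀ i, pi n k (x i) = AdjoinRoot.root (tri (ZMod 2) n k) ^ 2 ^ i := by
    intro i
    induction i with
    | zero => rw [hx0, pi_root, pow_zero, pow_one]
    | succ i ih => rw [hx, hσ, ih, ← pow_mul, ← pow_succ]
  have hrt : ∀ i, (tri (RR n k) n k).eval (x i) = 0 := by
    intro i
    induction i with
    | zero => rw [tri_eval, hx0]; exact SIG_root8 n k
    | succ i ih =>
      rw [tri_eval] at ih ⊢
      rw [hx, ← map_pow, ← map_pow, ← map_add]
      have h1 : σ (x i ^ n + x i ^ k) + 1 = σ (x i ^ n + x i ^ k + 1) := by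
        rw [map_add σ _ 1, map_one]
      rw [h1, ih, map_zero]
  have hu : ∀ i j, i < j → j < n → IsUnit (x j - x i) := by
    intro i j hij hj
    apply pi_unit n k hirr
    rw [map_sub, hpx, hpx, sub_ne_zero]
    exact (root_pow_ne n k hk0 hkn hirr i j hij hj).symm
  refine ⟨prod_of_roots _ (tri_monic _ n k hk0 hkn) n (tri_natDegree _ n k hk0 hkn) x
    (fun i _ => hrt i) hu, ?_, hu⟩
  have h0 : pi n k (x n - x 0) = 0 := by
    rw [map_sub, hpx, hpx, kk_pow n k hk0 hkn hirr, pow_zero, pow_one, sub_self]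
  obtain ⟨t, ht⟩ := pi_ker n k _ h0
  have h1 : x n = x 0 + 2 * t := by rw [← ht]; ring
  refine (lift_unique (eight_zero n k) (tri (RR n k) n k) (x 0) (x n) t (hrt 0) (hrt n) h1
    (deriv_unit n k hk hkn hirr _ ?_)).symm
  rw [hpx, pow_zero, pow_one]
  exact SIG_root n k

end TR
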