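import Pool.Agent.LibTR13.Fac

/-! MP_db25a0_nt, row FIX. -/

set_option autoImplicit false
set_option linter.unusedSectionVars false

namespace TR

open Polynomial Finset

/-- `pi v = 0` or `1` gives `v = c + 2 w` -/
theorem FIX_split (n k : ℕ) (v : RR n k) (h : pi n k v = 0 ∨ pi n k v = 1) :
    ∃ (c : ℕ) (w : RR n k), v = (c : RR n k) + 2 * w := by
  rcases h with h | h
  · obtain ⟨w, hw⟩ := pi_ker n k v h
    exact ⟨0, w, by rw [hw, Nat.cast_zero, zero_add]⟩
  · have h1 : pi n k (v - 1) = 0 := by rw [map_sub, h, map_one, sub_self]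
    obtain ⟨w, hw⟩ := pi_ker n k _ h1
    exact ⟨1, w, by rw [← hw, Nat.cast_one]; ring⟩

theorem FIX_even (c : ℕ) : ∃ d : ℕ, c * (c + 1) = 2 * d := by
  obtain ⟨d, hd⟩ := (Nat.even_mul_succ_self c).two_dvd
  exact ⟨d, hd⟩

theorem fix_sq (n k : ℕ) (hk : 0 < k) (hkn : k < n) (hirr : Irreducible (tri (ZMod 2) n k))
    (σ : RR n k →+* RR n k) (hσ : ∀ r, pi n k (σ r) = pi n k r ^ 2) (δ : RR n k)
    (hu : IsUnit δ) (h : σ δ = δ) : δ ^ 2 = 1 := by
  haveI : Fact (Irreducible (tri (ZMod 2) n k)) := ⟨hirr⟩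
  have h1 : pi n k δ ^ 2 = pi n k δ := by rw [← hσ, h]
  have h2 : pi n k δ = 1 := by
    rcases pi_idem n k hirr δ h1 with h3 | h3
    · exact absurd h3 (hu.map (pi n k)).ne_zero
    · exact h3
  have h3 : pi n k (δ - 1) = 0 := by rw [map_sub, h2, map_one, sub_self]
  obtain ⟨v, hv⟩ := pi_ker n k _ h3
  have hδ : δ = 1 + 2 * v := by rw [← hv]; ring
  have h4 : 2 * (σ v - v) = 0 := by
    have h5 : σ δ = 1 + 2 * σ v := by rw [hδ, map_add, map_one, map_mul, map_ofNat]
    rw [h, hδ] at h5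
    linear_combination (-1 : RR n k) * h5
  obtain ⟨s, hs⟩ := two_mul_zero n k hk hkn _ h4
  have hchar : (2 : KK n k) = 0 := by
    have := SIG_cast n k 2
    rw [if_neg (by norm_num)] at this
    exact_mod_cast this
  have h5 : pi n k v ^ 2 = pi n k v := by
    rw [← hσ]
    have h6 : σ v = v + 4 * s := by rw [← hs]; ring
    have h7 : (4 : RR n k) = 2 * 2 := by norm_num
    rw [h6, h7, map_add, map_mul, map_mul, map_ofNat, hchar]
    ring
  obtain ⟨c, w, hw⟩ := FIX_split n k v (pi_idem n k hirr v h5)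
  obtain ⟨d, hd⟩ := FIX_even c
  have hd' : (c : RR n k) * (c + 1) = 2 * d := by exact_mod_cast congrArg (Nat.cast (R := RR n k)) hd
  have h8 := eight_zero n k
  rw [hδ, hw]
  linear_combination (4 : RR n k) * hd' + ((d : RR n k) + 2 * w * (2 * c + 1) * 1 - 1 * w * (2 * c + 1) + 2 * w ^ 2) * h8

theorem anti_sq (n k : ℕ) (hk : 0 < k) (hkn : k < n) (hirr : Irreducible (tri (ZMod 2) n k))
    (σ : RR n k →+* RR n k) (δ : RR n k)
    (h : σ δ = -δ) : δ ^ 2 ≠ 1 := by
  haveI : Fact (Irreducible (tri (ZMod 2) n k)) := ⟨hirr⟩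
  intro h1
  have hchar : (2 : KK n k) = 0 := by
    have := SIG_cast n k 2
    rw [if_neg (by norm_num)] at this
    exact_mod_cast this
  have h2 : pi n k (δ - 1) = 0 := by
    have h3 : pi n k δ ^ 2 = 1 := by rw [← map_pow, h1, map_one]
    have h4 : (pi n k δ - 1) ^ 2 = 0 := by
      have : (pi n k δ - 1) ^ 2 = pi n k δ ^ 2 - 1 + 2 * (1 - pi n k δ) := by ring
      rw [this, h3, hchar]; ring
    rw [map_sub, map_one]
    exact pow_eq_zero_iff (by norm_num) |>.1 h4
  obtain ⟨v, hv⟩ := pi_ker n k _ h2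
  have hδ : δ = 1 + 2 * v := by rw [← hv]; ring
  have h3 : 2 * (2 * (v * (1 + v))) = 0 := by
    rw [hδ] at h1
    linear_combination h1
  obtain ⟨s, hs⟩ := two_mul_zero n k hk hkn _ h3
  have h4 : 2 * (v * (1 + v) - 2 * s) = 0 := by linear_combination hs
  obtain ⟨t, ht⟩ := two_mul_zero n k hk hkn _ h4
  have h5 : pi n k v ^ 2 = pi n k v := by
    have h6 : v ^ 2 = v + 2 * (s + 2 * t - v) := by linear_combination ht
    rw [← map_pow, h6, map_add, map_mul, map_ofNat, hchar, zero_mul, add_zero]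
  obtain ⟨c, w, hw⟩ := FIX_split n k v (pi_idem n k hirr v h5)
  have h6 : 2 * (1 + 2 * c + 2 * (w + σ w)) = 0 := by
    rw [hδ, hw] at h
    simp only [map_add, map_mul, map_one, map_ofNat, map_natCast] at h
    linear_combination h
  obtain ⟨z, hz⟩ := two_mul_zero n k hk hkn _ h6
  have h7 : (1 : RR n k) = 2 * (2 * z - c - (w + σ w)) := by linear_combination hz
  have h8 := congrArg (pi n k) h7
  rw [map_one, map_mul, map_ofNat, hchar, zero_mul] at h8
  exact one_ne_zero h8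

end TR
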