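import Pool.Agent.LibTR13.Def
import Pool.Agent.LibTR13.Ord

/-! MP_db25a0_nt, row TAIL. (from ORD) -/

set_option autoImplicit false
set_option linter.unusedSectionVars false

namespace TR

open Polynomial Finset


lemma TAIL_harm (n : ℕ) {y : ℝ} (hy : 1 ≤ y) (h : (n : ℝ) ≤ y) :
    ∑ j ∈ range n, (1 : ℝ) / (j + 1) ≤ 1 + Real.log y := by
  rcases Nat.eq_zero_or_pos n with h0 | h0
  · subst h0
    have := Real.log_nonneg hy
    simp only [range_zero, sum_empty]
    linarith
  · have h1 := harmonic_le_one_add_log n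
    have h2 : ((harmonic n : ℚ) : ℝ) = ∑ j ∈ range n, (1 : ℝ) / (j + 1) := by
      unfold harmonic
      push_cast
      exact sum_congr rfl (fun i _ => by rw [one_div])
    rw [← h2]
    refine h1.trans ?_
    have : Real.log n ≤ Real.log y := Real.log_le_log (by exact_mod_cast h0) h
    linarith

lemma TAIL_logs {e : ℝ} (he : 401 < e) : 2 ≤ Real.log (e / 9) := by
  have h1 : Real.log (2 ^ 5 : ℝ) ≤ Real.log (e / 9) :=
    Real.log_le_log (by norm_num) (by rw [le_div_iff₀ (by norm_num)]; linarith)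
  rw [Real.log_pow] at h1
  have := Real.log_two_gt_d9
  push_cast at h1
  linarith

/-- `#(ordS e) ≤ e / 9`, `1 + log (e / 9) ≤ e ^ 2 / 2 * (h (e - 2) - h e)` with
`h t = (2 + log (t / 9)) / t` -/
theorem wt_tail (e : ℕ) (he : 401 < e) (ho : e % 2 = 1) :
    wt e ≤ ((2 + Real.log ((e - 2 : ℝ) / 9)) / (e - 2) - (2 + Real.log ((e : ℝ) / 9)) / e) / 4 := by
  have heR : (401 : ℝ) < e := by exact_mod_cast he
  have he0 : (0 : ℝ) < e := by linarith
  have he2 : (0 : ℝ) < (e : ℝ) - 2 := by linarith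
  have hL := TAIL_logs heR
  set L := Real.log ((e : ℝ) / 9) with hLdef
  -- the cardinality
  have hcard : (#(ordS e) : ℝ) ≤ (e : ℝ) / 9 := by
    have h1 : ∀ r ∈ ordS e, 2 ^ 9 ≤ r := by
      intro r hr
      have h2 := ordS_mod e r ho (by omega) hr
      have h3 := ((ordS_mem e r (by omega)).1 hr).1.two_le
      by_contra h4
      have h5 : r < 2 * e := by omega
      rw [Nat.mod_eq_of_lt h5] at h2
      omega
    have h2 := ordS_pow e (2 ^ 9) (by omega) (ordS e) (Finset.Subset.refl _) h1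
    rw [← pow_mul] at h2
    have h3 : 9 * #(ordS e) ≤ e := (Nat.pow_le_pow_iff_right (by norm_num)).1 h2
    have h4 : (9 : ℝ) * #(ordS e) ≤ e := by exact_mod_cast h3
    rw [le_div_iff₀ (by norm_num)]
    linarith
  have hsum : ∑ r ∈ ordS e, (1 : ℝ) / r ≤ (1 + L) / (2 * e) := by
    refine (ordS_sum e ho (by omega)).trans ?_
    apply div_le_div_of_nonneg_right _ (by positivity)
    exact TAIL_harm _ (by rw [le_div_iff₀ (by norm_num)]; linarith) hcard
  have hwt : wt e ≤ (1 + L) / (2 * e) / e := by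
    unfold wt
    rw [if_pos ⟨ho, by omega⟩]
    exact div_le_div_of_nonneg_right hsum he0.le
  refine hwt.trans ?_
  -- `log ((e - 2) / 9) ≥ L - 2 / (e - 2)`
  have hlog : L - 2 / ((e : ℝ) - 2) ≤ Real.log (((e : ℝ) - 2) / 9) := by
    have h1 : Real.log ((e : ℝ) / 9) - Real.log (((e : ℝ) - 2) / 9) =
        Real.log ((e : ℝ) / (e - 2)) := by
      rw [← Real.log_div (by positivity) (by positivity)]
      congr 1
      field_simp
    have h2 : Real.log ((e : ℝ) / (e - 2)) ≤ (e : ℝ) / (e - 2) - 1 :=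
      Real.log_le_sub_one_of_pos (by positivity)
    have h3 : (e : ℝ) / (e - 2) - 1 = 2 / (e - 2) := by field_simp; ring
    linarith
  have hA : (2 + L) / ((e : ℝ) - 2) - 2 / ((e : ℝ) - 2) ^ 2 ≤
      (2 + Real.log (((e : ℝ) - 2) / 9)) / (e - 2) := by
    have h1 : (2 + L) / ((e : ℝ) - 2) - 2 / ((e : ℝ) - 2) ^ 2 =
        (2 + (L - 2 / ((e : ℝ) - 2))) / (e - 2) := by field_simp; ring
    rw [h1]
    exact div_le_div_of_nonneg_right (by linarith) he2.le
  have hB : (1 + L) / (2 * e) / e ≤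
      ((2 + L) / ((e : ℝ) - 2) - 2 / ((e : ℝ) - 2) ^ 2 - (2 + L) / e) / 4 := by
    have h1 : ((2 + L) / ((e : ℝ) - 2) - 2 / ((e : ℝ) - 2) ^ 2 - (2 + L) / e) / 4 -
        (1 + L) / (2 * e) / e = (L * (2 * e - 4) - 4) / (2 * e ^ 2 * (e - 2) ^ 2) := by
      field_simp
      ring
    have h2 : 0 ≤ (L * (2 * e - 4) - 4) / (2 * e ^ 2 * (e - 2) ^ 2) := by
      apply div_nonneg _ (by positivity)
      nlinarith
    linarith
  refine hB.trans ?_
  apply div_le_div_of_nonneg_right _ (by norm_num)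
  linarith

theorem wt_nonneg (e : ℕ) : 0 ≤ wt e := by
  unfold wt
  split_ifs
  · positivity
  · exact le_rfl

/-- telescoping: the sum over `e > 401` is at most `(2 + log (401 / 9)) / 1604 ≤ 0.00362` -/
theorem wt_tail_sum : Summable wt ∧ ∑' e, wt e ≤ ∑ e ∈ range 402, wt e + 0.00362 := by
  have hstep : ∀ k : ℕ, ∑ e ∈ range (402 + 2 * k), wt e ≤ ∑ e ∈ range 402, wt e +
      ((2 + Real.log ((401 : ℝ) / 9)) / 401 -
        (2 + Real.log ((401 + 2 * k : ℝ) / 9)) / (401 + 2 * k)) / 4 := by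
    intro k
    induction k with
    | zero => simp
    | succ k ih =>
      have h1 : 402 + 2 * (k + 1) = (402 + 2 * k) + 1 + 1 := by ring
      rw [h1, sum_range_succ, sum_range_succ]
      have h2 : wt (402 + 2 * k) = 0 := by
        unfold wt
        rw [if_neg (by omega)]
      have h3 := wt_tail (402 + 2 * k + 1) (by omega) (by omega)
      have h4 : ((402 + 2 * k + 1 : ℕ) : ℝ) - 2 = 401 + 2 * k := by push_cast; ring
      have h5 : ((402 + 2 * k + 1 : ℕ) : ℝ) = 401 + 2 * ((k + 1 : ℕ) : ℝ) := by push_cast; ring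
      rw [h4, h5] at h3
      rw [h2]
      linarith
  have hlog : Real.log ((401 : ℝ) / 9) ≤ 3.804 := by
    have h1 : (401 : ℝ) / 9 ≤ 2 ^ 5 * (1.04225) ^ 8 := by norm_num
    have h2 := Real.log_le_log (by norm_num) h1
    rw [Real.log_mul (by norm_num) (by norm_num), Real.log_pow, Real.log_pow] at h2
    have h3 := Real.log_two_lt_d9
    have h4 : Real.log (1.04225 : ℝ) ≤ 1.04225 - 1 := Real.log_le_sub_one_of_pos (by norm_num)
    push_cast at h2
    linarith
  have hb : ∀ n : ℕ, ∑ e ∈ range n, wt e ≤ ∑ e ∈ range 402, wt e + 0.00362 := by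
    intro n
    have h1 : ∑ e ∈ range n, wt e ≤ ∑ e ∈ range (402 + 2 * n), wt e :=
      sum_le_sum_of_subset_of_nonneg (by
        intro i hi
        rw [mem_range] at hi ⊢
        omega) (fun i _ _ => wt_nonneg i)
    have h2 := hstep n
    have h3 : 0 ≤ (2 + Real.log ((401 + 2 * n : ℝ) / 9)) / (401 + 2 * n) := by
      have hn : (0 : ℝ) ≤ n := Nat.cast_nonneg n
      apply div_nonneg _ (by linarith)
      have : 0 ≤ Real.log ((401 + 2 * n : ℝ) / 9) := by
        apply Real.log_nonneg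
        rw [le_div_iff₀ (by norm_num)]
        linarith
      linarith
    have h4 : (2 + Real.log ((401 : ℝ) / 9)) / 401 ≤ 4 * 0.00362 := by
      rw [div_le_iff₀ (by norm_num)]
      linarith
    linarith
  exact ⟨summable_of_sum_range_le wt_nonneg hb, Real.tsum_le_of_sum_range_le wt_nonneg hb⟩

end TR
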