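import Pool.Agent.LibTR13.Def
import Pool.Agent.LibTR13.Ord
import Pool.Agent.LibTR13.Tail

/-! MP_db25a0_nt, row MULT. (from ORD, wt_tail_sum) -/

set_option autoImplicit false
set_option linter.unusedSectionVars false

namespace TR

open Polynomial Finset


/-- elements of one class modulo `M` -/
theorem MULT_class (M N : ℕ) (hM : 0 < M) (S : Finset ℕ) (hS : S ⊆ Icc 1 N)
    (h : ∀ a ∈ S, ∀ b ∈ S, a % M = b % M) : (#S : ℝ) ≤ (N : ℝ) / M + 1 := by
  have h1 : #S ≤ N / M + 1 := by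
    have hinj : Set.InjOn (fun n => n / M) (S : Set ℕ) := by
      intro a ha b hb hab
      have h1 := Nat.mod_add_div a M
      have h2 := Nat.mod_add_div b M
      simp only at hab
      rw [← h1, ← h2, hab, h a ha b hb]
    rw [← Finset.card_image_of_injOn hinj, ← Finset.card_range (N / M + 1)]
    apply Finset.card_le_card
    intro k hk
    obtain ⟨n, hn, rfl⟩ := mem_image.mp hk
    rw [mem_range]
    have := (mem_Icc.mp (hS hn)).2
    exact Nat.lt_succ_of_le (Nat.div_le_div_right this)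
  have h2 : ((#S : ℕ) : ℝ) ≤ ((N / M + 1 : ℕ) : ℝ) := by exact_mod_cast h1
  refine h2.trans ?_
  push_cast
  have := @Nat.cast_div_le ℝ _ _ _ N M
  linarith

/-- multiples of `q` -/
theorem MULT_all (q N : ℕ) (hq : 0 < q) (S : Finset ℕ) (hS : S ⊆ Icc 1 N)
    (h : ∀ a ∈ S, q ∣ a) : (#S : ℝ) ≤ (N : ℝ) / q := by
  have h1 : #S ≤ N / q := by
    have hinj : Set.InjOn (fun n => n / q) (S : Set ℕ) := by
      intro a ha b hb hab
      have h1 := Nat.div_mul_cancel (h a ha)
      have h2 := Nat.div_mul_cancel (h b hb)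
      simp only at hab
      rw [← h1, ← h2, hab]
    rw [← Finset.card_image_of_injOn hinj]
    have h3 : #(Icc 1 (N / q)) = N / q := by rw [Nat.card_Icc, Nat.add_sub_cancel]
    rw [← h3]
    apply Finset.card_le_card
    intro k hk
    obtain ⟨n, hn, rfl⟩ := mem_image.mp hk
    rw [mem_Icc]
    have hn1 := mem_Icc.mp (hS hn)
    exact ⟨Nat.div_pos (Nat.le_of_dvd (by omega) (h n hn)) hq, Nat.div_le_div_right hn1.2⟩
  have h2 : ((#S : ℕ) : ℝ) ≤ ((N / q : ℕ) : ℝ) := by exact_mod_cast h1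
  exact h2.trans Nat.cast_div_le

/-- odd multiples in two classes modulo 8 -/
theorem MULT_two (q N : ℕ) (hq : q % 2 = 1) (S : Finset ℕ) (hS : S ⊆ Icc 1 N)
    (h : ∀ a ∈ S, q ∣ a ∧ (a % 8 = 3 ∨ a % 8 = 5)) : (#S : ℝ) ≤ (N : ℝ) / (4 * q) + 2 := by
  have hcop : Nat.Coprime 8 q := by
    have : Nat.Coprime (2 ^ 3) q := Nat.Coprime.pow_left 3
      ((Nat.coprime_two_left).mpr (Nat.odd_iff.mpr hq))
    simpa using this
  have hclass : ∀ c : ℕ, ∀ T : Finset ℕ, T ⊆ Icc 1 N → (∀ a ∈ T, q ∣ a ∧ a % 8 = c) →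
      (#T : ℝ) ≤ (N : ℝ) / ((8 * q : ℕ) : ℝ) + 1 := by
    intro c T hT hc
    apply MULT_class (8 * q) N (by omega) T hT
    intro a ha b hb
    have h8 : a ≡ b [MOD 8] := by
      show a % 8 = b % 8
      rw [(hc a ha).2, (hc b hb).2]
    have hqm : a ≡ b [MOD q] := by
      show a % q = b % q
      rw [Nat.mod_eq_zero_of_dvd (hc a ha).1, Nat.mod_eq_zero_of_dvd (hc b hb).1]
    exact (Nat.modEq_and_modEq_iff_modEq_mul hcop).mp ⟨h8, hqm⟩
  have h3 := hclass 3 (S.filter fun a => a % 8 = 3) ((Finset.filter_subset _ _).trans hS)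
    (fun a ha => ⟨(h a (mem_filter.mp ha).1).1, (mem_filter.mp ha).2⟩)
  have h5 := hclass 5 (S.filter fun a => ¬ a % 8 = 3) ((Finset.filter_subset _ _).trans hS)
    (fun a ha => ⟨(h a (mem_filter.mp ha).1).1,
      ((h a (mem_filter.mp ha).1).2).resolve_left (mem_filter.mp ha).2⟩)
  have hc := Finset.card_filter_add_card_filter_not (s := S) (p := fun a => a % 8 = 3)
  have hc' : (#S : ℝ) = (#(S.filter fun a => a % 8 = 3) : ℝ) +
      (#(S.filter fun a => ¬ a % 8 = 3) : ℝ) := by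
    exact_mod_cast hc.symm
  have hq0 : (0 : ℝ) < q := by
    have : 0 < q := by omega
    exact_mod_cast this
  have e1 : (N : ℝ) / ((8 * q : ℕ) : ℝ) + 1 + ((N : ℝ) / ((8 * q : ℕ) : ℝ) + 1) =
      (N : ℝ) / (4 * q) + 2 := by
    push_cast
    field_simp
    ring
  rw [hc', ← e1]
  exact add_le_add h3 h5

/-- multiples of the odd `q` in one class mod 8: at most `N / (8 q) + 1`; split at a large `e` -/
theorem count_mult (ε : ℝ) (hε : 0 < ε) : ∀ᶠ N : ℕ in Filter.atTop,
    ∀ s : Finset ℕ, s ⊆ Icc 1 N → (∀ n ∈ s, (n % 8 = 3 ∨ n % 8 = 5) ∧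
      ∃ e r : ℕ, e % 2 = 1 ∧ 5 ≤ e ∧ r ∈ ordS e ∧ e * r ∣ n) →
      (#s : ℝ) ≤ ((∑' e, wt e) / 4 + ε) * N := by
  have hsum := wt_tail_sum.1
  -- the tail
  obtain ⟨E, hE⟩ : ∃ E : ℕ, (∑' e, wt e) - ε / 2 ≤ ∑ e ∈ range E, wt e := by
    have h1 := hsum.hasSum.tendsto_sum_nat
    have h2 : ∀ᶠ E : ℕ in Filter.atTop, (∑' e, wt e) - ε / 2 < ∑ e ∈ range E, wt e :=
      h1.eventually (lt_mem_nhds (by linarith))
    obtain ⟨E, hE⟩ := h2.exists
    exact ⟨E, hE.le⟩
  set C : ℝ := ∑ e ∈ range E, 2 * (#(ordS e) : ℝ) with hC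
  have hev : ∀ᶠ N : ℕ in Filter.atTop, C ≤ (ε / 2) * N := by
    have h1 : Filter.Tendsto (fun N : ℕ => (ε / 2) * (N : ℝ)) Filter.atTop Filter.atTop :=
      Filter.Tendsto.const_mul_atTop (by linarith) tendsto_natCast_atTop_atTop
    exact h1.eventually_ge_atTop C
  filter_upwards [hev] with N hN s hs hns
  classical
  -- the pieces
  let good : ℕ → Prop := fun e => e % 2 = 1 ∧ 5 ≤ e
  let P : ℕ → ℕ → Finset ℕ := fun e r => s.filter fun n => e * r ∣ n
  have hcov : s ⊆ (((range E).filter good).biUnion fun e => (ordS e).biUnion fun r => P e r) ∪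
      (((Ico E (N + 1)).filter good).biUnion fun e => (ordS e).biUnion fun r => P e r) := by
    intro n hn
    obtain ⟨_, e, r, he1, he5, hr, hd⟩ := hns n hn
    have hn1 := mem_Icc.mp (hs hn)
    have hen : e ≤ n := Nat.le_of_dvd (by omega) ((Dvd.intro _ rfl).trans hd)
    rw [mem_union]
    by_cases hE' : e < E
    · left
      exact mem_biUnion.mpr ⟨e, mem_filter.mpr ⟨mem_range.mpr hE', he1, he5⟩,
        mem_biUnion.mpr ⟨r, hr, mem_filter.mpr ⟨hn, hd⟩⟩⟩
    · right
      exact mem_biUnion.mpr ⟨e, mem_filter.mpr ⟨mem_Ico.mpr ⟨by omega, by omega⟩, he1, he5⟩,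
        mem_biUnion.mpr ⟨r, hr, mem_filter.mpr ⟨hn, hd⟩⟩⟩
  have hPs : ∀ e r, P e r ⊆ Icc 1 N := fun e r => (Finset.filter_subset _ _).trans hs
  have hrpos : ∀ e, good e → ∀ r ∈ ordS e, 0 < r ∧ r % 2 = 1 := by
    intro e he r hr
    have h1 := ordS_mod e r he.1 (by have := he.2; omega) hr
    have h2 := Nat.mod_add_div r (2 * e)
    rw [h1] at h2
    constructor
    · omega
    · rw [← h2, mul_assoc, Nat.add_mul_mod_self_left]
  have hwt : ∀ e, good e → wt e = ∑ r ∈ ordS e, 1 / ((e : ℝ) * r) := by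
    intro e he
    have he' : e % 2 = 1 ∧ 5 ≤ e := he
    unfold wt
    rw [if_pos he', Finset.sum_div]
    apply Finset.sum_congr rfl
    intro r hr
    rw [div_div, mul_comm (r : ℝ)]
  have hA : ∀ e, good e → ((#((ordS e).biUnion fun r => P e r) : ℕ) : ℝ) ≤
      (N : ℝ) / 4 * wt e + 2 * (#(ordS e) : ℝ) := by
    intro e he
    have h1 : ((#((ordS e).biUnion fun r => P e r) : ℕ) : ℝ) ≤ ∑ r ∈ ordS e, (#(P e r) : ℝ) := by
      exact_mod_cast Finset.card_biUnion_le
    refine h1.trans ?_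
    rw [hwt e he, Finset.mul_sum]
    have h2 : 2 * (#(ordS e) : ℝ) = ∑ r ∈ ordS e, (2 : ℝ) := by
      rw [Finset.sum_const, nsmul_eq_mul, mul_comm]
    rw [h2, ← Finset.sum_add_distrib]
    apply Finset.sum_le_sum
    intro r hr
    have h3 := hrpos e he r hr
    have hodd : (e * r) % 2 = 1 := by
      have he1 : e % 2 = 1 := he.1
      rw [Nat.mul_mod, he1, h3.2]
    have h4 := MULT_two (e * r) N hodd (P e r) (hPs e r)
      (fun a ha => ⟨(mem_filter.mp ha).2, (hns a (mem_filter.mp ha).1).1⟩)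
    refine h4.trans (le_of_eq ?_)
    have he0 : (0 : ℝ) < e := by
      have : 0 < e := by have := he.2; omega
      exact_mod_cast this
    have hr0 : (0 : ℝ) < r := by exact_mod_cast h3.1
    push_cast
    field_simp
  have hB : ∀ e, good e → ((#((ordS e).biUnion fun r => P e r) : ℕ) : ℝ) ≤ (N : ℝ) * wt e := by
    intro e he
    have h1 : ((#((ordS e).biUnion fun r => P e r) : ℕ) : ℝ) ≤ ∑ r ∈ ordS e, (#(P e r) : ℝ) := by
      exact_mod_cast Finset.card_biUnion_le
    refine h1.trans ?_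
    rw [hwt e he, Finset.mul_sum]
    apply Finset.sum_le_sum
    intro r hr
    have h3 := hrpos e he r hr
    have he0' : 0 < e := by have := he.2; omega
    have h4 := MULT_all (e * r) N (Nat.mul_pos he0' h3.1) (P e r) (hPs e r)
      (fun a ha => (mem_filter.mp ha).2)
    refine h4.trans (le_of_eq ?_)
    push_cast
    rw [mul_one_div]
  have hw0 := wt_nonneg
  have h1 : (#s : ℝ) ≤ ∑ e ∈ (range E).filter good, ((N : ℝ) / 4 * wt e + 2 * (#(ordS e) : ℝ)) +
      ∑ e ∈ (Ico E (N + 1)).filter good, (N : ℝ) * wt e := by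
    have h2 := (Finset.card_le_card hcov).trans (Finset.card_union_le _ _)
    have h3 : (#s : ℝ) ≤
        (#(((range E).filter good).biUnion fun e => (ordS e).biUnion fun r => P e r) : ℝ) +
        (#(((Ico E (N + 1)).filter good).biUnion fun e => (ordS e).biUnion fun r => P e r) : ℝ) := by
      exact_mod_cast h2
    refine h3.trans (add_le_add ?_ ?_)
    · have h4 : (#(((range E).filter good).biUnion fun e => (ordS e).biUnion fun r => P e r) : ℝ) ≤
          ∑ e ∈ (range E).filter good, ((#((ordS e).biUnion fun r => P e r) : ℕ) : ℝ) := by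
        exact_mod_cast Finset.card_biUnion_le
      exact h4.trans (Finset.sum_le_sum fun e he => hA e (mem_filter.mp he).2)
    · have h4 : (#(((Ico E (N + 1)).filter good).biUnion fun e =>
          (ordS e).biUnion fun r => P e r) : ℝ) ≤
          ∑ e ∈ (Ico E (N + 1)).filter good, ((#((ordS e).biUnion fun r => P e r) : ℕ) : ℝ) := by
        exact_mod_cast Finset.card_biUnion_le
      exact h4.trans (Finset.sum_le_sum fun e he => hB e (mem_filter.mp he).2)
  have hN0 : (0 : ℝ) ≤ N := Nat.cast_nonneg N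
  have h2 : ∑ e ∈ (range E).filter good, ((N : ℝ) / 4 * wt e + 2 * (#(ordS e) : ℝ)) ≤
      (N : ℝ) / 4 * (∑ e ∈ range E, wt e) + C := by
    have h3 : ∑ e ∈ (range E).filter good, ((N : ℝ) / 4 * wt e + 2 * (#(ordS e) : ℝ)) ≤
        ∑ e ∈ range E, ((N : ℝ) / 4 * wt e + 2 * (#(ordS e) : ℝ)) := by
      apply Finset.sum_le_sum_of_subset_of_nonneg (Finset.filter_subset _ _)
      intro e _ _
      have := hw0 e
      positivity
    refine h3.trans (le_of_eq ?_)
    rw [Finset.sum_add_distrib, ← Finset.mul_sum]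
  have h3 : ∑ e ∈ (Ico E (N + 1)).filter good, (N : ℝ) * wt e ≤ (N : ℝ) * (ε / 2) := by
    rw [← Finset.mul_sum]
    apply mul_le_mul_of_nonneg_left _ hN0
    have h4 : ∑ e ∈ range E, wt e + ∑ e ∈ (Ico E (N + 1)).filter good, wt e ≤ ∑' e, wt e := by
      rw [← Finset.sum_union]
      · exact hsum.sum_le_tsum _ (fun e _ => hw0 e)
      · rw [Finset.disjoint_left]
        intro e he he'
        have h5 := mem_range.mp he
        have h6 := (mem_Ico.mp (mem_filter.mp he').1).1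
        omega
    linarith
  have h4 : ∑ e ∈ range E, wt e ≤ ∑' e, wt e := hsum.sum_le_tsum _ (fun e _ => hw0 e)
  have h5 : (N : ℝ) / 4 * (∑ e ∈ range E, wt e) ≤ (N : ℝ) / 4 * (∑' e, wt e) :=
    mul_le_mul_of_nonneg_left h4 (by positivity)
  calc (#s : ℝ) ≤ ((N : ℝ) / 4 * (∑' e, wt e) + (ε / 2) * N) + (N : ℝ) * (ε / 2) := by linarith
    _ = ((∑' e, wt e) / 4 + ε) * N := by ring

end TR
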