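import Pool.Agent.LibTR13.Def

/-! MP_db25a0_nt, row NEWT. Newton lifting when 8 = 0 -/

set_option autoImplicit false
set_option linter.unusedSectionVars false

namespace TR

open Polynomial Finset

theorem NEWT_unit {S : Type} [CommRing S] (h8 : (8 : S) = 0) (u t : S) (hu : IsUnit u) :
    IsUnit (u + 2 * t) := by
  have h : IsNilpotent (2 * t) := ⟨3, by
    have : (2 * t) ^ 3 = 8 * t ^ 3 := by ring
    rw [this, h8, zero_mul]⟩
  exact h.isUnit_add_left_of_commute hu (Commute.all _ _)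

/-- one Newton step -/
theorem NEWT_step {S : Type} [CommRing S] (F : S[X]) (a c s : S) (m : ℕ)
    (ha : F.eval a = c * s) (hc : c ^ 2 = (m : S) * c) (u : S) (hu : F.derivative.eval a * u = 1) :
    ∃ t : S, F.eval (a - c * s * u) = (m : S) * c * t := by
  obtain ⟨k, hk⟩ := F.binomExpansion a (-(c * s * u))
  refine ⟨k * (s * u) ^ 2, ?_⟩
  have h1 : F.eval (a - c * s * u) = F.eval (a + -(c * s * u)) := by rw [sub_eq_add_neg]
  rw [h1, hk, ha]
  have h2 : c * s + F.derivative.eval a * -(c * s * u) = 0 := by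
    have : F.derivative.eval a * -(c * s * u) = -(c * s) * (F.derivative.eval a * u) := by ring
    rw [this, hu]; ring
  rw [h2, zero_add, ← hc]
  ring

theorem NEWT_deriv {S : Type} [CommRing S] (G : S[X]) (a t : S) :
    ∃ w, G.eval (a + 2 * t) = G.eval a + 2 * w := by
  obtain ⟨k, hk⟩ := G.binomExpansion a (2 * t)
  refine ⟨G.derivative.eval a * t + 2 * k * t ^ 2, ?_⟩
  rw [hk]; ring

theorem lift_root {S : Type} [CommRing S] (h8 : (8 : S) = 0) (F : S[X]) (a s : S)
    (ha : F.eval a = 2 * s) (hu : IsUnit (F.derivative.eval a)) :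
    ∃ b t : S, F.eval b = 0 ∧ b = a + 2 * t := by
  obtain ⟨u, hu'⟩ := hu.exists_right_inv
  -- first step
  obtain ⟨t1, ht1⟩ := NEWT_step F a 2 s 2 ha (by push_cast; ring) u hu'
  push_cast at ht1
  set a1 := a - 2 * s * u with ha1
  have ha1' : a1 = a + 2 * (-(s * u)) := by rw [ha1]; ring
  obtain ⟨w, hw⟩ := NEWT_deriv F.derivative a (-(s * u))
  have hu1 : IsUnit (F.derivative.eval a1) := by
    rw [ha1', hw]
    exact NEWT_unit h8 _ _ hu
  obtain ⟨u1, hu1'⟩ := hu1.exists_right_inv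
  obtain ⟨t2, ht2⟩ := NEWT_step F a1 4 t1 4 (by rw [ht1]; ring) (by push_cast; ring) u1 hu1'
  refine ⟨a1 - 4 * t1 * u1, -(s * u) - 2 * t1 * u1, ?_, ?_⟩
  · rw [ht2]
    push_cast
    have : (4 : S) * 4 * t2 = 8 * (2 * t2) := by ring
    rw [this, h8, zero_mul]
  · rw [ha1']; ring

theorem lift_unique {S : Type} [CommRing S] (h8 : (8 : S) = 0) (F : S[X]) (a b t : S)
    (ha : F.eval a = 0) (hb : F.eval b = 0) (hab : b = a + 2 * t)
    (hu : IsUnit (F.derivative.eval a)) : a = b := by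
  obtain ⟨k, hk⟩ := F.binomExpansion a (2 * t)
  rw [← hab, ha, hb] at hk
  have h1 : (F.derivative.eval a + 2 * (k * t)) * (2 * t) = 0 := by
    calc (F.derivative.eval a + 2 * (k * t)) * (2 * t)
        = 0 + F.derivative.eval a * (2 * t) + k * (2 * t) ^ 2 := by ring
      _ = 0 := hk.symm
  have h2 := NEWT_unit h8 _ (k * t) hu
  have h3 : 2 * t = 0 := (h2.mul_right_eq_zero).1 h1
  rw [hab, h3, add_zero]

end TR
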