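import Pool.Agent.LibTR13.Newt
import Pool.Agent.LibTR13.Tri

/-! MP_db25a0_nt, row PIA. the reduction map -/

set_option autoImplicit false
set_option linter.unusedSectionVars false

namespace TR

open Polynomial Finset

theorem eight_zero (n k : ℕ) : (8 : RR n k) = 0 := by
  have h : ((8 : ℕ) : ZMod 8) = 0 := by decide
  have h2 := congrArg (AdjoinRoot.of (tri (ZMod 8) n k)) h
  rw [map_natCast, map_zero] at h2
  exact_mod_cast h2

theorem pi_root (n k : ℕ) :
    pi n k (AdjoinRoot.root (tri (ZMod 8) n k)) = AdjoinRoot.root (tri (ZMod 2) n k) := by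
  unfold pi
  exact AdjoinRoot.lift_root _

theorem PIA_mk (n k : ℕ) (P : (ZMod 8)[X]) :
    pi n k (AdjoinRoot.mk _ P) = AdjoinRoot.mk _ (P.map red) := by
  unfold pi
  rw [AdjoinRoot.lift_mk, ← eval₂_map, ← AdjoinRoot.aeval_eq, aeval_def,
    AdjoinRoot.algebraMap_eq]

theorem PIA_red_surj : Function.Surjective red := ZMod.castHom_surjective _

theorem pi_surj (n k : ℕ) : Function.Surjective (pi n k) := by
  intro z
  obtain ⟨Q, rfl⟩ := AdjoinRoot.mk_surjective z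
  obtain ⟨P, rfl⟩ := Polynomial.map_surjective red PIA_red_surj Q
  exact ⟨AdjoinRoot.mk _ P, PIA_mk n k P⟩

theorem PIA_red_zero (a : ZMod 8) (h : red a = 0) : ∃ b, a = 2 * b := by
  have h2 : ∀ a : ZMod 8, (ZMod.castHom (by norm_num : 2 ∣ 8) (ZMod 2)) a = 0 → ∃ b, a = 2 * b := by
    decide
  exact h2 a h

theorem PIA_map_zero (P : (ZMod 8)[X]) (h : P.map red = 0) : ∃ Q, P = 2 * Q := by
  have h1 : ∀ i, ∃ b, P.coeff i = 2 * b := by
    intro i
    apply PIA_red_zero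
    rw [← coeff_map, h, coeff_zero]
  choose b hb using h1
  refine ⟨∑ i ∈ P.support, monomial i (b i), ?_⟩
  rw [mul_sum]
  conv_lhs => rw [P.as_sum_support]
  apply sum_congr rfl
  intro i _
  have h2 : (2 : (ZMod 8)[X]) = C 2 := (map_ofNat C 2).symm
  rw [h2, C_mul_monomial, ← hb i]

theorem pi_ker (n k : ℕ) (r : RR n k) (h : pi n k r = 0) : ∃ s, r = 2 * s := by
  obtain ⟨P, rfl⟩ := AdjoinRoot.mk_surjective r
  rw [PIA_mk, AdjoinRoot.mk_eq_zero] at h
  obtain ⟨Q, hQ⟩ := h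
  obtain ⟨Q', rfl⟩ := Polynomial.map_surjective red PIA_red_surj Q
  have h1 : (P - tri (ZMod 8) n k * Q').map red = 0 := by
    rw [Polynomial.map_sub, Polynomial.map_mul, tri_map, hQ, sub_self]
  obtain ⟨S, hS⟩ := PIA_map_zero _ h1
  refine ⟨AdjoinRoot.mk _ S, ?_⟩
  have h2 : P = tri (ZMod 8) n k * Q' + 2 * S := by rw [← hS]; ring
  have h3 : AdjoinRoot.mk (tri (ZMod 8) n k) (tri (ZMod 8) n k * Q') = 0 :=
    AdjoinRoot.mk_eq_zero.2 (dvd_mul_right _ _)
  rw [h2, map_add, h3, zero_add, map_mul, map_ofNat]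

theorem pi_unit (n k : ℕ) (hirr : Irreducible (tri (ZMod 2) n k)) (r : RR n k)
    (h : pi n k r ≠ 0) : IsUnit r := by
  haveI : Fact (Irreducible (tri (ZMod 2) n k)) := ⟨hirr⟩
  obtain ⟨s, hs⟩ := pi_surj n k ((pi n k r)⁻¹)
  have h1 : pi n k (r * s - 1) = 0 := by
    rw [map_sub, map_mul, hs, map_one, mul_inv_cancel₀ h, sub_self]
  obtain ⟨t, ht⟩ := pi_ker n k _ h1
  have h2 : IsUnit (r * s) := by
    have : r * s = 1 + 2 * t := by rw [← ht]; ring
    rw [this]
    exact NEWT_unit (eight_zero n k) 1 t isUnit_one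
  exact isUnit_of_mul_isUnit_left h2

theorem pi_idem (n k : ℕ) (hirr : Irreducible (tri (ZMod 2) n k)) (r : RR n k)
    (h : pi n k r ^ 2 = pi n k r) : pi n k r = 0 ∨ pi n k r = 1 := by
  haveI : Fact (Irreducible (tri (ZMod 2) n k)) := ⟨hirr⟩
  have h1 : pi n k r * (pi n k r - 1) = 0 := by
    have : pi n k r * (pi n k r - 1) = pi n k r ^ 2 - pi n k r := by ring
    rw [this, h, sub_self]
  rcases mul_eq_zero.1 h1 with h2 | h2
  · exact Or.inl h2
  · exact Or.inr (sub_eq_zero.1 h2)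

end TR
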