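import Pool.Agent.LibTR13.Pia

/-! MP_db25a0_nt, row PIB. -/

set_option autoImplicit false
set_option linter.unusedSectionVars false

namespace TR

open Polynomial Finset

theorem PIB_two (a : ZMod 8) (h : 2 * a = 0) : ∃ b, a = 4 * b := by
  revert a
  decide

theorem PIB_map (P : (ZMod 8)[X]) (h : 2 * P = 0) : ∃ Q, P = 4 * Q := by
  have h1 : ∀ i, ∃ b, P.coeff i = 4 * b := by
    intro i
    apply PIB_two
    have h2 : (2 : (ZMod 8)[X]) = C 2 := (map_ofNat C 2).symm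
    rw [h2] at h
    rw [← coeff_C_mul, h, coeff_zero]
  choose b hb using h1
  refine ⟨∑ i ∈ P.support, monomial i (b i), ?_⟩
  rw [mul_sum]
  conv_lhs => rw [P.as_sum_support]
  apply sum_congr rfl
  intro i _
  have h2 : (4 : (ZMod 8)[X]) = C 4 := (map_ofNat C 4).symm
  rw [h2, C_mul_monomial, ← hb i]

theorem two_mul_zero (n k : ℕ) (hk : 0 < k) (hkn : k < n) (r : RR n k) (h : 2 * r = 0) :
    ∃ s, r = 4 * s := by
  obtain ⟨P, rfl⟩ := AdjoinRoot.mk_surjective r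
  have hm := tri_monic (ZMod 8) n k hk hkn
  haveI : Nontrivial (ZMod 8) := ⟨0, 1, by decide⟩
  have h1 : AdjoinRoot.mk (tri (ZMod 8) n k) P =
      AdjoinRoot.mk (tri (ZMod 8) n k) (P %ₘ tri (ZMod 8) n k) := by
    rw [AdjoinRoot.mk_eq_mk]
    refine ⟨P /ₘ tri (ZMod 8) n k, ?_⟩
    have := modByMonic_add_div P (tri (ZMod 8) n k)
    linear_combination (-1 : (ZMod 8)[X]) * this
  rw [h1] at h ⊢
  have h2 : AdjoinRoot.mk (tri (ZMod 8) n k) (2 * (P %ₘ tri (ZMod 8) n k)) = 0 := by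
    rw [map_mul, map_ofNat]; exact h
  rw [AdjoinRoot.mk_eq_zero] at h2
  have hlt : (P %ₘ tri (ZMod 8) n k).degree < (tri (ZMod 8) n k).degree :=
    degree_modByMonic_lt _ hm
  have h3 : 2 * (P %ₘ tri (ZMod 8) n k) = 0 := by
    by_contra hne
    have h4 : (2 * (P %ₘ tri (ZMod 8) n k)).degree < (tri (ZMod 8) n k).degree := by
      have h5 : (2 : (ZMod 8)[X]) = C 2 := (map_ofNat C 2).symm
      rw [h5]
      rw [← smul_eq_C_mul]
      exact lt_of_le_of_lt (degree_smul_le _ _) hlt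
    exact hm.not_dvd_of_degree_lt hne h4 h2
  obtain ⟨Q, hQ⟩ := PIB_map _ h3
  refine ⟨AdjoinRoot.mk _ Q, ?_⟩
  rw [hQ, map_mul, map_ofNat]

end TR
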