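import Pool.Agent.LibTR13.Def

/-! MP_db25a0_nt, row PROD8.  -/

set_option autoImplicit false
set_option linter.unusedSectionVars false

namespace TR

open Polynomial Finset

theorem PROD8_aux {S : Type} [CommRing S] (h8 : (8 : S) = 0) (a : S) (ha : a ^ 2 = 1)
    (v : ℕ → S) (n : ℕ) : ∃ e : S, (∑ i ∈ range n, v i) ^ 2 = ∑ i ∈ range n, v i ^ 2 + 2 * e ∧
      ∏ i ∈ range n, (a + 2 * v i) = a ^ n * (1 + 2 * a * ∑ i ∈ range n, v i + 4 * e) := by
  induction n with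
  | zero => exact ⟨0, by simp⟩
  | succ n ih =>
    obtain ⟨e, h1, h2⟩ := ih
    refine ⟨e + (∑ i ∈ range n, v i) * v n, ?_, ?_⟩
    · rw [sum_range_succ, sum_range_succ]
      linear_combination h1
    · rw [prod_range_succ, h2, sum_range_succ, pow_succ]
      generalize ∑ i ∈ range n, v i = p
      generalize v n = w
      linear_combination (a ^ n * (e * w)) * h8 - (a ^ n * (2 * w)) * ha

/-- `∏_{i ∈ s} (a + 2 v_i) = a ^ #s (1 + 2 a ∑ v + 4 e_2(v))` when `8 = 0`, `a ^ 2 = 1`, and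
`2 e_2 = (∑ v) ^ 2 - ∑ v ^ 2`; here `a = n`, `v_i = l u_i`, `n - k = 2 l` -/
theorem prod_eight {S : Type} [CommRing S] (h8 : (8 : S) = 0) (n l : ℕ) (hn : n % 2 = 1)
    (u : ℕ → S) (h1 : ∑ i ∈ range n, u i = 0) (h2 : ∑ i ∈ range n, u i ^ 2 = 0) :
    ∏ i ∈ range n, ((n : S) + 2 * (l : S) * u i) = (n : S) ^ n := by
  have ha : (n : S) ^ 2 = 1 := by
    have h3 : n ^ 2 % 8 = 1 := by
      have h4 : n % 8 = 1 ∨ n % 8 = 3 ∨ n % 8 = 5 ∨ n % 8 = 7 := by omega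
      rcases h4 with h | h | h | h <;> simp [Nat.pow_mod, h]
    have h4 : n ^ 2 = 8 * (n ^ 2 / 8) + 1 := by omega
    have h5 : ((n ^ 2 : ℕ) : S) = ((8 * (n ^ 2 / 8) + 1 : ℕ) : S) := congrArg _ h4
    push_cast at h5
    rw [h5, h8, zero_mul, zero_add]
  obtain ⟨e, h3, h4⟩ := PROD8_aux h8 (n : S) ha (fun i => (l : S) * u i) n
  have h5 : ∑ i ∈ range n, (l : S) * u i = 0 := by rw [← mul_sum, h1, mul_zero]
  have h6 : ∑ i ∈ range n, ((l : S) * u i) ^ 2 = 0 := by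
    have h7 : ∀ i ∈ range n, ((l : S) * u i) ^ 2 = (l : S) ^ 2 * u i ^ 2 := fun i _ => by ring
    rw [sum_congr rfl h7, ← mul_sum, h2, mul_zero]
  rw [h5, h6] at h3
  have h7 : ∏ i ∈ range n, ((n : S) + 2 * (l : S) * u i) =
      ∏ i ∈ range n, ((n : S) + 2 * ((l : S) * u i)) :=
    prod_congr rfl fun i _ => by ring
  rw [h7, h4, h5]
  linear_combination -(2 * (n : S) ^ n) * h3

end TR
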