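import Pool.Agent.LibTR13.Tri

/-! MP_db25a0_nt, row PSUM. power sums of the roots -/

set_option autoImplicit false
set_option linter.unusedSectionVars false

namespace TR

open Polynomial Finset

theorem PSUM_root {S : Type} [CommRing S] (n k : ℕ) (x : ℕ → S)
    (hF : tri S n k = ∏ i ∈ range n, (X - C (x i))) (i : ℕ) (hi : i < n) :
    x i ^ n = -x i ^ k - 1 := by
  have h1 : (tri S n k).eval (x i) = 0 := by
    rw [hF, eval_prod]
    apply prod_eq_zero (mem_range.2 hi)
    rw [eval_sub, eval_X, eval_C, sub_self]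
  rw [tri_eval] at h1
  linear_combination h1

/-- coefficients of the trinomial as elementary symmetric functions -/
theorem PSUM_esymm {S : Type} [CommRing S] (n k : ℕ) (hk : 0 < k) (hkn : k < n) (x : ℕ → S)
    (hF : tri S n k = ∏ i ∈ range n, (X - C (x i))) (j : ℕ) (hj0 : 0 < j) (hj : j < n) :
    (-1) ^ j * MvPolynomial.aeval (fun i : Fin n => x i) (MvPolynomial.esymm (Fin n) S j) =
      if j = n - k then 1 else 0 := by
  rw [MvPolynomial.aeval_esymm_eq_multiset_esymm]
  set s : Multiset S := (univ.val.map fun i : Fin n => x i) with hs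
  have hcard : Multiset.card s = n := by simp [hs]
  have h1 := Multiset.prod_X_sub_C_coeff s (k := n - j) (by rw [hcard]; omega)
  rw [hcard, Nat.sub_sub_self hj.le] at h1
  rw [← h1]
  have h2 : (s.map fun t => X - C t).prod = tri S n k := by
    rw [hF, ← Fin.prod_univ_eq_prod_range (fun i => X - C (x i)) n, hs, Multiset.map_map]
    rfl
  rw [h2]
  unfold tri
  rw [coeff_add, coeff_add, coeff_X_pow, coeff_X_pow, coeff_one, if_neg (by omega), zero_add]
  by_cases hjk : j = n - k
  · rw [if_pos (by omega), if_neg (by omega), if_pos hjk, add_zero]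
  · rw [if_neg (by omega), if_neg (by omega), if_neg hjk, add_zero]

theorem PSUM_newton {S : Type} [CommRing S] (n k : ℕ) (hk : 0 < k) (hkn : k < n) (x : ℕ → S)
    (hF : tri S n k = ∏ i ∈ range n, (X - C (x i))) (j : ℕ) (hj0 : 0 < j) (hj : j < n)
    (hne : j ≠ n - k) :
    ∑ i ∈ range n, x i ^ j = -(if n - k < j then ∑ i ∈ range n, x i ^ (j - (n - k)) else 0) := by
  have hN := congrArg (MvPolynomial.aeval (fun i : Fin n => x i))
    (MvPolynomial.psum_eq_mul_esymm_sub_sum (Fin n) S j hj0)
  have hp : ∀ m : ℕ, MvPolynomial.aeval (fun i : Fin n => x i) (MvPolynomial.psum (Fin n) S m) =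
      ∑ i ∈ range n, x i ^ m := by
    intro m
    rw [MvPolynomial.psum, map_sum, ← Fin.sum_univ_eq_sum_range (fun i => x i ^ m) n]
    refine sum_congr rfl fun i _ => ?_
    rw [map_pow, MvPolynomial.aeval_X]
  have he := fun m h1 h2 => PSUM_esymm n k hk hkn x hF m h1 h2
  rw [map_sub, map_mul, map_mul, map_pow, map_neg, map_one, map_natCast, map_sum, hp] at hN
  rw [hN]
  have h1 : (-1 : S) ^ (j + 1) * (j : S) *
      MvPolynomial.aeval (fun i : Fin n => x i) (MvPolynomial.esymm (Fin n) S j) = 0 := by
    have h2 := he j hj0 hj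
    rw [if_neg hne] at h2
    calc (-1 : S) ^ (j + 1) * (j : S) *
          MvPolynomial.aeval (fun i : Fin n => x i) (MvPolynomial.esymm (Fin n) S j)
        = -(j : S) * ((-1) ^ j *
          MvPolynomial.aeval (fun i : Fin n => x i) (MvPolynomial.esymm (Fin n) S j)) := by ring
      _ = 0 := by rw [h2, mul_zero]
  rw [h1, zero_sub]
  congr 1
  have h3 : ∀ a ∈ (antidiagonal j).filter (fun a => a.1 ∈ Set.Ioo 0 j),
      MvPolynomial.aeval (fun i : Fin n => x i)
        ((-1) ^ a.1 * MvPolynomial.esymm (Fin n) S a.1 * MvPolynomial.psum (Fin n) S a.2) =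
      if a = (n - k, j - (n - k)) then ∑ i ∈ range n, x i ^ (j - (n - k)) else 0 := by
    intro a ha
    rw [mem_filter, HasAntidiagonal.mem_antidiagonal, Set.mem_Ioo] at ha
    rw [map_mul, map_mul, map_pow, map_neg, map_one, hp, he a.1 ha.2.1 (by omega)]
    by_cases h4 : a.1 = n - k
    · have h5 : a = (n - k, j - (n - k)) := Prod.ext h4 (by
        show a.2 = j - (n - k)
        omega)
      rw [if_pos h4, if_pos h5, one_mul, h5]
    · rw [if_neg h4, zero_mul, if_neg (fun h => h4 (by rw [h]))]
  rw [sum_congr rfl h3, sum_ite_eq']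
  by_cases h4 : n - k < j
  · rw [if_pos h4, if_pos]
    rw [mem_filter, HasAntidiagonal.mem_antidiagonal, Set.mem_Ioo]
    show n - k + (j - (n - k)) = j ∧ 0 < n - k ∧ n - k < j
    omega
  · rw [if_neg h4, if_neg]
    rw [mem_filter, HasAntidiagonal.mem_antidiagonal, Set.mem_Ioo]
    show ¬ (n - k + (j - (n - k)) = j ∧ 0 < n - k ∧ n - k < j)
    omega

theorem psum_zero {S : Type} [CommRing S] (n k : ℕ) (hk : 0 < k) (hkn : k < n) (x : ℕ → S)
    (hF : tri S n k = ∏ i ∈ range n, (X - C (x i))) (j : ℕ) (hj0 : 0 < j) (hj : j < 2 * n)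
    (h1 : ¬ (n - k) ∣ j) (h2 : n ≤ j → ¬ (n - k) ∣ (j - n)) :
    ∑ i ∈ range n, x i ^ j = 0 := by
  induction j using Nat.strong_induction_on with
  | _ j ih =>
    by_cases hjn : j < n
    · have hne : j ≠ n - k := fun h => h1 (h ▸ dvd_refl _)
      rw [PSUM_newton n k hk hkn x hF j hj0 hjn hne]
      split_ifs with h3
      · have h4 : ¬ (n - k) ∣ (j - (n - k)) := by
          intro h
          apply h1
          have := Nat.dvd_add h (dvd_refl (n - k))
          rwa [Nat.sub_add_cancel h3.le] at this
        rw [ih (j - (n - k)) (by omega) (by omega) (by omega) h4 (by omega), neg_zero]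
      · exact neg_zero
    · have hjn' : n ≤ j := by omega
      have h3 : ∑ i ∈ range n, x i ^ j =
          -(∑ i ∈ range n, x i ^ (j - (n - k))) - ∑ i ∈ range n, x i ^ (j - n) := by
        rw [← sum_neg_distrib, ← sum_sub_distrib]
        refine sum_congr rfl fun i hi => ?_
        have h4 := PSUM_root n k x hF i (mem_range.1 hi)
        have h5 : x i ^ j = x i ^ n * x i ^ (j - n) := by rw [← pow_add]; congr 1; omega
        have h6 : x i ^ (j - (n - k)) = x i ^ k * x i ^ (j - n) := by
          rw [← pow_add]; congr 1; omega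
        rw [h5, h6, h4]; ring
      have hd := h2 hjn'
      have hjn0 : 0 < j - n := by
        rcases Nat.eq_zero_or_pos (j - n) with h | h
        · exact absurd (by rw [h]; exact dvd_zero _) hd
        · exact h
      have h4 : ¬ (n - k) ∣ (j - (n - k)) := by
        intro h
        apply h1
        have := Nat.dvd_add h (dvd_refl (n - k))
        rwa [Nat.sub_add_cancel (by omega)] at this
      have h5 : n ≤ j - (n - k) → ¬ (n - k) ∣ (j - (n - k) - n) := by
        intro hle h
        apply hd
        have := Nat.dvd_add h (dvd_refl (n - k))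
        have e : j - (n - k) - n + (n - k) = j - n := by omega
        rwa [e] at this
      rw [h3, ih (j - (n - k)) (by omega) (by omega) (by omega) h4 h5,
        ih (j - n) (by omega) hjn0 (by omega) hd (by omega), neg_zero, sub_zero]

end TR
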