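import Pool.Agent.LibTR13.Tri

/-! MP_db25a0_nt, row SHAPE. -/

set_option autoImplicit false
set_option linter.unusedSectionVars false

namespace TR

open Polynomial Finset

theorem SHAPE_reverse (n k : ℕ) (hk : 0 < k) (hkn : k < n) :
    (tri (ZMod 2) n k).reverse = tri (ZMod 2) n (n - k) := by
  ext i
  rw [coeff_reverse, tri_natDegree (ZMod 2) n k hk hkn]
  unfold tri
  rw [coeff_add, coeff_add, coeff_X_pow, coeff_X_pow, coeff_one, coeff_add, coeff_add, coeff_X_pow,
    coeff_X_pow, coeff_one]
  by_cases hi : i ≤ n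
  · rw [revAt_le hi]
    have e1 : (n - i = n) = (i = 0) := by apply propext; omega
    have e2 : (n - i = k) = (i = n - k) := by apply propext; omega
    have e3 : (n - i = 0) = (i = n) := by apply propext; omega
    simp only [e1, e2, e3]
    ring
  · rw [revAt_eq_self_of_lt (by omega)]
    have e1 : ¬ (i = k) := by omega
    have e2 : ¬ (i = n - k) := by omega
    rw [if_neg e1, if_neg e2]

theorem SHAPE_coeff (n k : ℕ) (hk : 0 < k) (hkn : k < n) : (tri (ZMod 2) n k).coeff 0 = 1 := by
  unfold tri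
  rw [coeff_add, coeff_add, coeff_X_pow, coeff_X_pow, coeff_one, if_neg (by omega),
    if_neg (by omega), if_pos rfl]
  decide

theorem SHAPE_unit (a : (ZMod 2)[X]) (h0 : a.coeff 0 ≠ 0) (h : IsUnit a.reverse) : IsUnit a := by
  have ht : a.natTrailingDegree = 0 := by
    have := natTrailingDegree_le_of_ne_zero h0
    omega
  have h1 : a.natDegree = 0 := by
    have h2 := natDegree_eq_zero_of_isUnit h
    rw [reverse_natDegree, ht, Nat.sub_zero] at h2
    exact h2
  rw [eq_C_of_natDegree_eq_zero h1]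
  exact isUnit_C.2 (isUnit_iff_ne_zero.2 h0)

theorem recip (n k : ℕ) (hk : 0 < k) (hkn : k < n) (hirr : Irreducible (tri (ZMod 2) n k)) :
    Irreducible (tri (ZMod 2) n (n - k)) := by
  have hk' : 0 < n - k := by omega
  have hkn' : n - k < n := by omega
  constructor
  · intro h
    have := natDegree_eq_zero_of_isUnit h
    rw [tri_natDegree (ZMod 2) n (n - k) hk' hkn'] at this
    omega
  · intro a b hab
    have h1 : tri (ZMod 2) n k = a.reverse * b.reverse := by
      rw [← reverse_mul_of_domain, ← hab, SHAPE_reverse n (n - k) hk' hkn', Nat.sub_sub_self hkn.le]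
    have h0 : a.coeff 0 * b.coeff 0 = 1 := by
      rw [← mul_coeff_zero, ← hab, SHAPE_coeff n (n - k) hk' hkn']
    have ha : a.coeff 0 ≠ 0 := left_ne_zero_of_mul_eq_one h0
    have hb : b.coeff 0 ≠ 0 := right_ne_zero_of_mul_eq_one h0
    rcases hirr.isUnit_or_isUnit h1 with h | h
    · exact Or.inl (SHAPE_unit a ha h)
    · exact Or.inr (SHAPE_unit b hb h)

theorem SHAPE_one (a : ZMod 2) (h : a ≠ 0) : a = 1 := by
  revert a
  decide

theorem shape (f : (ZMod 2)[X]) (h3 : f.support.card = 3) (hirr : Irreducible f) :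
    ∃ k, 0 < k ∧ k < f.natDegree ∧ f = tri (ZMod 2) f.natDegree k := by
  obtain ⟨j, k, n, hjk, hkn, a, b, c, ha, hb, hc, hf⟩ := card_support_eq_three.1 h3
  rw [SHAPE_one a ha, SHAPE_one b hb, SHAPE_one c hc, C_1, one_mul, one_mul, one_mul] at hf
  have hj : j = 0 := by
    by_contra hj0
    have h1 : f = X * (X ^ (j - 1) + X ^ (k - 1) + X ^ (n - 1)) := by
      rw [hf, mul_add, mul_add, ← pow_succ', ← pow_succ', ← pow_succ', Nat.sub_add_cancel (by omega),
        Nat.sub_add_cancel (by omega), Nat.sub_add_cancel (by omega)]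
    rcases hirr.isUnit_or_isUnit h1 with h | h
    · exact not_isUnit_X h
    · have h2 := natDegree_eq_zero_of_isUnit h
      have h4 : (X ^ (j - 1) + X ^ (k - 1) + X ^ (n - 1) : (ZMod 2)[X]).coeff (n - 1) = 1 := by
        rw [coeff_add, coeff_add, coeff_X_pow, coeff_X_pow, coeff_X_pow, if_neg (by omega),
          if_neg (by omega), if_pos rfl]
        decide
      have h5 : n - 1 ≤ (X ^ (j - 1) + X ^ (k - 1) + X ^ (n - 1) : (ZMod 2)[X]).natDegree := by
        apply le_natDegree_of_ne_zero
        rw [h4]; decide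
      omega
  have hft : f = tri (ZMod 2) n k := by
    rw [hf, hj, pow_zero]
    unfold tri
    ring
  have hn : f.natDegree = n := by
    rw [hft, tri_natDegree (ZMod 2) n k (by omega) hkn]
  exact ⟨k, by omega, by omega, by rw [hn]; exact hft⟩

theorem both_even (a b : ℕ) (hb : 0 < b) (hab : b < a) :
    ¬ Irreducible (tri (ZMod 2) (2 * a) (2 * b)) := by
  intro hirr
  have h1 : tri (ZMod 2) (2 * a) (2 * b) = tri (ZMod 2) a b * tri (ZMod 2) a b := by
    have h2 : (2 : (ZMod 2)[X]) = 0 := CharTwo.two_eq_zero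
    unfold tri
    rw [two_mul a, two_mul b, pow_add, pow_add]
    linear_combination (-(X ^ a * X ^ b + X ^ a + X ^ b) : (ZMod 2)[X]) * h2
  have hd := tri_natDegree (ZMod 2) a b hb hab
  rcases hirr.isUnit_or_isUnit h1 with h | h <;>
  · have := natDegree_eq_zero_of_isUnit h
    omega

end TR
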