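import Pool.Agent.LibTR13.Conj

/-! MP_db25a0_nt, row SIG. the lift of the Frobenius -/

set_option autoImplicit false
set_option linter.unusedSectionVars false

namespace TR

open Polynomial Finset

theorem SIG_cast (n k m : ℕ) : (m : KK n k) = if m % 2 = 1 then 1 else 0 := by
  have h2 : ((m : ℕ) : ZMod 2) = if m % 2 = 1 then 1 else 0 := by
    split_ifs with h
    · have : ((m : ℕ) : ZMod 2) = ((1 : ℕ) : ZMod 2) := (ZMod.natCast_eq_natCast_iff' _ _ _).2 h
      rw [this, Nat.cast_one]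
    · have : ((m : ℕ) : ZMod 2) = ((0 : ℕ) : ZMod 2) :=
        (ZMod.natCast_eq_natCast_iff' _ _ _).2 (by omega)
      rw [this, Nat.cast_zero]
  have h3 := congrArg (AdjoinRoot.of (tri (ZMod 2) n k)) h2
  rw [map_natCast] at h3
  rw [h3]
  split_ifs
  · exact map_one _
  · exact map_zero _

theorem deriv_unit (n k : ℕ) (hk : k % 2 = 1) (hkn : k < n)
    (hirr : Irreducible (tri (ZMod 2) n k)) (a : RR n k)
    (h : pi n k a ^ n + pi n k a ^ k + 1 = 0) :
    IsUnit ((tri (RR n k) n k).derivative.eval a) := by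
  haveI : Fact (Irreducible (tri (ZMod 2) n k)) := ⟨hirr⟩
  have hk0 : 0 < k := by omega
  have h1 := tri_deriv (S := RR n k) n k hk0 hkn a
  have h2 := congrArg (pi n k) h1
  rw [map_mul, map_add, map_mul, map_mul, map_pow, map_pow, map_natCast, map_natCast] at h2
  have hchar : (2 : KK n k) = 0 := by
    have := SIG_cast n k 2
    rw [if_neg (by norm_num)] at this
    exact_mod_cast this
  have ha0 : pi n k a ≠ 0 := by
    intro h0
    rw [h0, zero_pow (by omega), zero_pow hk0.ne', zero_add, zero_add] at h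
    exact one_ne_zero h
  apply pi_unit n k hirr
  intro h0
  rw [h0, mul_zero] at h2
  rw [SIG_cast n k k, if_pos hk, one_mul, SIG_cast n k n] at h2
  split_ifs at h2 with hn
  · rw [one_mul] at h2
    rw [← h2, zero_add] at h
    exact one_ne_zero h
  · rw [zero_mul, zero_add] at h2
    exact pow_ne_zero k ha0 h2.symm

theorem SIG_root (n k : ℕ) : AdjoinRoot.root (tri (ZMod 2) n k) ^ n +
    AdjoinRoot.root (tri (ZMod 2) n k) ^ k + 1 = 0 := by
  have h := AdjoinRoot.eval₂_root (tri (ZMod 2) n k)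
  unfold tri at h
  simp only [eval₂_add, eval₂_X_pow, eval₂_one] at h
  exact h

theorem SIG_root8 (n k : ℕ) : AdjoinRoot.root (tri (ZMod 8) n k) ^ n +
    AdjoinRoot.root (tri (ZMod 8) n k) ^ k + 1 = 0 := by
  have h := AdjoinRoot.eval₂_root (tri (ZMod 8) n k)
  unfold tri at h
  simp only [eval₂_add, eval₂_X_pow, eval₂_one] at h
  exact h

theorem SIG_frob (n k : ℕ) (hirr : Irreducible (tri (ZMod 2) n k)) (z : KK n k)
    (h : z ^ n + z ^ k + 1 = 0) : (z ^ 2) ^ n + (z ^ 2) ^ k + 1 = 0 := by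
  haveI : Fact (Irreducible (tri (ZMod 2) n k)) := ⟨hirr⟩
  have hchar : (2 : KK n k) = 0 := by
    have := SIG_cast n k 2
    rw [if_neg (by norm_num)] at this
    exact_mod_cast this
  have h2 : (z ^ 2) ^ n + (z ^ 2) ^ k + 1 = (z ^ n + z ^ k + 1) ^ 2 -
      2 * (z ^ n * z ^ k + z ^ n + z ^ k) := by
    rw [← pow_mul, ← pow_mul, mul_comm 2 n, mul_comm 2 k, pow_mul, pow_mul]
    ring
  rw [h2, h, hchar]
  ring

theorem exists_sigma (n k : ℕ) (hk : k % 2 = 1) (hkn : k < n)
    (hirr : Irreducible (tri (ZMod 2) n k)) :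
    ∃ σ : RR n k →+* RR n k, ∀ r, pi n k (σ r) = pi n k r ^ 2 := by
  haveI : Fact (Irreducible (tri (ZMod 2) n k)) := ⟨hirr⟩
  haveI : CharP (KK n k) 2 :=
    charP_of_injective_algebraMap (algebraMap (ZMod 2) (KK n k)).injective 2
  set x := AdjoinRoot.root (tri (ZMod 8) n k) with hx
  have hpx : pi n k (x ^ 2) = AdjoinRoot.root (tri (ZMod 2) n k) ^ 2 := by
    rw [map_pow, hx, pi_root]
  have h1 : pi n k (x ^ 2) ^ n + pi n k (x ^ 2) ^ k + 1 = 0 := by
    rw [hpx]
    exact SIG_frob n k hirr _ (SIG_root n k)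
  have h2 : pi n k ((tri (RR n k) n k).eval (x ^ 2)) = 0 := by
    rw [tri_eval, map_add, map_add, map_pow (pi n k) (x ^ 2) n, map_pow (pi n k) (x ^ 2) k, map_one]
    exact h1
  obtain ⟨s, hs⟩ := pi_ker n k _ h2
  obtain ⟨y, t, hy, hyt⟩ := lift_root (eight_zero n k) _ _ s hs (deriv_unit n k hk hkn hirr _ h1)
  have hev : (tri (ZMod 8) n k).eval₂ (AdjoinRoot.of (tri (ZMod 8) n k)) y = 0 := by
    rw [← eval_map, tri_map]
    exact hy
  refine ⟨AdjoinRoot.lift (AdjoinRoot.of (tri (ZMod 8) n k)) y hev, ?_⟩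
  intro r
  obtain ⟨P, rfl⟩ := AdjoinRoot.mk_surjective r
  have hchar : (2 : KK n k) = 0 := CharTwo.two_eq_zero
  have hpy : pi n k y = AdjoinRoot.root (tri (ZMod 2) n k) ^ 2 := by
    rw [hyt, map_add, map_mul, map_ofNat, hchar, zero_mul, add_zero, hpx]
  induction P using Polynomial.induction_on' with
  | add p q hp hq => rw [map_add, map_add, map_add, map_add, hp, hq, add_pow_char]
  | monomial m a =>
    have h3 : AdjoinRoot.mk (tri (ZMod 8) n k) (monomial m a) =
        AdjoinRoot.of (tri (ZMod 8) n k) a * x ^ m := by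
      rw [← C_mul_X_pow_eq_monomial, map_mul, map_pow, AdjoinRoot.mk_X, AdjoinRoot.mk_C]
    have h4 : pi n k (AdjoinRoot.of (tri (ZMod 8) n k) a) =
        AdjoinRoot.of (tri (ZMod 2) n k) (red a) := by
      unfold pi
      rw [AdjoinRoot.lift_of, RingHom.comp_apply]
    have h5 : (red a) ^ 2 = red a := ZMod.pow_card (red a)
    rw [h3, map_mul, map_mul, map_pow, AdjoinRoot.lift_of, hx, AdjoinRoot.lift_root, map_mul,
      map_pow, map_pow, hpy, h4, pi_root, mul_pow, ← map_pow, h5]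
    ring

end TR
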