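import Pool.Agent.LibTR13.Def

/-! MP_db25a0_nt, row EXPAND.  -/

set_option autoImplicit false
set_option linter.unusedSectionVars false

namespace TR

open Polynomial Finset

/-- otherwise `z ↦ z ^ r` is bijective on the field `AdjoinRoot g` with `2 ^ m` elements, so
`root = β ^ r`, and `β` has degree `≤ m < r m` over `𝔽₂` but is a root of the irreducible
`expand r g` -/
theorem expand_prime (g : (ZMod 2)[X]) (m r : ℕ) (hg : Irreducible g) (hm : g.natDegree = m)
    (hr : r.Prime) (h : Irreducible (expand (ZMod 2) r g)) : r ∣ 2 ^ m - 1 := by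
  by_contra hnd
  have : Fact (Irreducible g) := ⟨hg⟩
  have hg0 : g ≠ 0 := hg.ne_zero
  have hm0 : 0 < m := by
    rw [← hm]; exact hg.natDegree_pos
  have hfd : Module.Finite (ZMod 2) (AdjoinRoot g) := (AdjoinRoot.powerBasis hg0).finite
  have hfr : Module.finrank (ZMod 2) (AdjoinRoot g) = m := by
    rw [(AdjoinRoot.powerBasis hg0).finrank, AdjoinRoot.powerBasis_dim, hm]
  have hfin : Finite (AdjoinRoot g) := Module.finite_of_finite (ZMod 2)
  have hcard : Nat.card (AdjoinRoot g) = 2 ^ m := by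
    rw [Module.natCard_eq_pow_finrank (K := ZMod 2), hfr, Nat.card_zmod]
  have hcop : (Nat.card (AdjoinRoot g)ˣ).Coprime r := by
    rw [Nat.card_units, hcard]
    exact ((Nat.Prime.coprime_iff_not_dvd hr).mpr hnd).symm
  have hβ : ∃ β : AdjoinRoot g, β ^ r = AdjoinRoot.root g := by
    by_cases h0 : AdjoinRoot.root g = 0
    · exact ⟨0, by rw [h0, zero_pow hr.ne_zero]⟩
    · obtain ⟨u, hu⟩ := (powCoprime hcop).surjective (Units.mk0 _ h0)
      refine ⟨u, ?_⟩
      have h1 : u ^ r = Units.mk0 (AdjoinRoot.root g) h0 := hu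
      have h2 := congrArg Units.val h1
      simpa using h2
  obtain ⟨β, hβ⟩ := hβ
  have hroot : aeval β (expand (ZMod 2) r g) = 0 := by
    rw [expand_aeval, hβ, AdjoinRoot.aeval_eq, AdjoinRoot.mk_self]
  have hint : IsIntegral (ZMod 2) β := IsIntegral.of_finite (ZMod 2) β
  have hdvd := minpoly.dvd (ZMod 2) β hroot
  have hdvd2 := (minpoly.irreducible hint).dvd_symm h hdvd
  have hle := natDegree_le_of_dvd hdvd2 (minpoly.ne_zero hint)
  have hle2 := minpoly.natDegree_le (A := ZMod 2) β
  rw [hfr] at hle2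
  rw [natDegree_expand, hm] at hle
  have h2 := hr.two_le
  nlinarith

end TR
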