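import Pool.Agent.LibTR13.Def

/-! MP_db25a0_nt, row VDA. the Vandermonde product -/

set_option autoImplicit false
set_option linter.unusedSectionVars false

namespace TR

open Polynomial Finset

theorem VDA_neg {S : Type} [CommRing S] (m : ℕ) (f g : ℕ → S) (h : ∀ j < m, f j = -g j) :
    ∏ j ∈ range m, f j = (-1) ^ m * ∏ j ∈ range m, g j := by
  rw [prod_congr rfl fun j hj => h j (mem_range.1 hj)]
  rw [prod_neg, card_range]

theorem vd_sigma {S : Type} [CommRing S] (σ : S →+* S) (x : ℕ → S) (n : ℕ) (hn : 1 ≤ n)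
    (hx : ∀ i, x (i + 1) = σ (x i)) (hxn : x n = x 0) : σ (vd x n) = (-1) ^ (n - 1) * vd x n := by
  obtain ⟨m, rfl⟩ : ∃ m, n = m + 1 := ⟨n - 1, by omega⟩
  rw [Nat.add_sub_cancel]
  unfold vd
  have h1 : σ (∏ i ∈ range (m + 1), ∏ j ∈ range i, (x i - x j)) =
      ∏ i ∈ range (m + 1), ∏ j ∈ range i, (x (i + 1) - x (j + 1)) := by
    rw [map_prod]
    refine prod_congr rfl fun i _ => ?_
    rw [map_prod]
    refine prod_congr rfl fun j _ => ?_
    rw [map_sub, hx, hx]
  have h2 : ∏ i ∈ range (m + 1), ∏ j ∈ range i, (x i - x j) =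
      (∏ i ∈ range m, ∏ j ∈ range i, (x (i + 1) - x (j + 1))) *
        ∏ i ∈ range m, (x (i + 1) - x 0) := by
    rw [prod_range_succ', range_zero, prod_empty, mul_one, ← prod_mul_distrib]
    refine prod_congr rfl fun i _ => ?_
    rw [prod_range_succ']
  rw [h1, prod_range_succ, h2]
  have h3 : ∏ j ∈ range m, (x (m + 1) - x (j + 1)) =
      (-1) ^ m * ∏ i ∈ range m, (x (i + 1) - x 0) := by
    apply VDA_neg
    intro j _
    rw [hxn]; ring
  rw [h3]
  ring

theorem VDA_tri (m : ℕ) : (m + 1) * (m + 1 - 1) / 2 = m * (m - 1) / 2 + m := by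
  rw [Nat.add_sub_cancel]
  rcases m with _ | m
  · rfl
  · rw [Nat.add_sub_cancel]
    have h1 : (m + 1 + 1) * (m + 1) = (m + 1) * m + (m + 1) * 2 := by ring
    rw [h1, Nat.add_mul_div_right _ _ (by norm_num)]

theorem vd_sq {S : Type} [CommRing S] (x : ℕ → S) (n : ℕ) :
    vd x n ^ 2 = (-1) ^ (n * (n - 1) / 2) * ∏ i ∈ range n, ∏ j ∈ (range n).erase i, (x i - x j) := by
  induction n with
  | zero => simp [vd]
  | succ m ih =>
    have h1 : vd x (m + 1) = vd x m * ∏ j ∈ range m, (x m - x j) := by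
      unfold vd; rw [prod_range_succ]
    have h2 : ∏ i ∈ range (m + 1), ∏ j ∈ (range (m + 1)).erase i, (x i - x j) =
        (∏ i ∈ range m, ∏ j ∈ (range m).erase i, (x i - x j)) * (∏ i ∈ range m, (x i - x m)) *
          ∏ j ∈ range m, (x m - x j) := by
      rw [prod_range_succ]
      have e1 : (range (m + 1)).erase m = range m := by
        rw [range_add_one, erase_insert notMem_range_self]
      have e3 : ∏ i ∈ range m, ∏ j ∈ (range (m + 1)).erase i, (x i - x j) =
          (∏ i ∈ range m, ∏ j ∈ (range m).erase i, (x i - x j)) * ∏ i ∈ range m, (x i - x m) := by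
        rw [← prod_mul_distrib]
        refine prod_congr rfl fun i hi => ?_
        have hne : i ≠ m := (mem_range.1 hi).ne
        have e2 : (range (m + 1)).erase i = insert m ((range m).erase i) := by
          rw [range_add_one, erase_insert_of_ne hne.symm]
        rw [e2, prod_insert (by
          rw [mem_erase, mem_range]; exact fun h => lt_irrefl _ h.2), mul_comm]
      rw [e1, e3]
    have h3 : ∏ i ∈ range m, (x i - x m) = (-1) ^ m * ∏ j ∈ range m, (x m - x j) := by
      apply VDA_neg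
      intro j _
      ring
    rw [h1, h2, h3, VDA_tri, pow_add, mul_pow, ih]
    have h4 : ((-1 : S) ^ m) * ((-1) ^ m) = 1 := by
      rw [← mul_pow]; simp
    linear_combination (-((-1) ^ (m * (m - 1) / 2) *
      (∏ i ∈ range m, ∏ j ∈ (range m).erase i, (x i - x j)) *
      (∏ j ∈ range m, (x m - x j)) ^ 2)) * h4

end TR
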