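import Pool.Agent.LibTR13.Def
import Pool.Agent.LibTR13.Tri
import Pool.Agent.LibTR13.Vda

/-! MP_db25a0_nt, row VDB.  -/

set_option autoImplicit false
set_option linter.unusedSectionVars false

namespace TR

open Polynomial Finset


theorem deriv_prod {S : Type} [CommRing S] (x : ℕ → S) (n i : ℕ) (hi : i < n) :
    (∏ i ∈ range n, (X - C (x i))).derivative.eval (x i) = ∏ j ∈ (range n).erase i, (x i - x j) := by
  rw [Polynomial.derivative_prod_finset, eval_finsetSum]
  rw [Finset.sum_eq_single_of_mem i (mem_range.2 hi)]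
  · simp [eval_prod]
  · intro j _ hji
    rw [eval_mul, eval_prod]
    rw [Finset.prod_eq_zero (mem_erase.2 ⟨Ne.symm hji, mem_range.2 hi⟩) (by simp), zero_mul]

/-- `∏ x i = (-1) ^ n`, `x i ^ n = - x i ^ k - 1`,
`x i * F'(x i) = n x i ^ n + k x i ^ k = - (n + (n - k) x i ^ k)` -/
theorem vd_sq_tri {S : Type} [CommRing S] (n k : ℕ) (hk : 0 < k) (hkn : k < n) (x : ℕ → S)
    (hF : tri S n k = ∏ i ∈ range n, (X - C (x i))) :
    vd x n ^ 2 = (-1) ^ (n * (n - 1) / 2) *
      ∏ i ∈ range n, ((n : S) + ((n : S) - (k : S)) * x i ^ k) := by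
  have h0 : (-1 : S) ^ n * ∏ i ∈ range n, x i = 1 := by
    have h1 := congrArg (Polynomial.eval 0) hF
    rw [tri_eval, zero_pow (by omega), zero_pow (by omega), eval_prod] at h1
    simp only [eval_sub, eval_X, eval_C, zero_sub, zero_add] at h1
    have h2 : ∏ i ∈ range n, -x i = (-1 : S) ^ n * ∏ i ∈ range n, x i := by
      rw [Finset.prod_neg, card_range]
    rw [← h2]
    exact h1.symm
  have h1 : ∀ i ∈ range n, x i * ∏ j ∈ (range n).erase i, (x i - x j) =
      -((n : S) + ((n : S) - (k : S)) * x i ^ k) := by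
    intro i hi
    have hr : x i ^ n + x i ^ k + 1 = 0 := by
      rw [← tri_eval, hF, eval_prod]
      exact Finset.prod_eq_zero hi (by simp)
    rw [← deriv_prod x n i (mem_range.1 hi), ← hF, tri_deriv n k hk hkn]
    linear_combination (n : S) * hr
  have h2 : (∏ i ∈ range n, x i) * ∏ i ∈ range n, ∏ j ∈ (range n).erase i, (x i - x j) =
      (-1) ^ n * ∏ i ∈ range n, ((n : S) + ((n : S) - (k : S)) * x i ^ k) := by
    rw [← Finset.prod_mul_distrib, Finset.prod_congr rfl h1, Finset.prod_neg, card_range]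
  have h3 : ∏ i ∈ range n, ∏ j ∈ (range n).erase i, (x i - x j) =
      ∏ i ∈ range n, ((n : S) + ((n : S) - (k : S)) * x i ^ k) := by
    have h4 : ((-1 : S) ^ n) * (-1) ^ n = 1 := by rw [← mul_pow]; simp
    calc ∏ i ∈ range n, ∏ j ∈ (range n).erase i, (x i - x j)
        = ((-1 : S) ^ n * ∏ i ∈ range n, x i) *
            ∏ i ∈ range n, ∏ j ∈ (range n).erase i, (x i - x j) := by rw [h0, one_mul]
      _ = (-1 : S) ^ n * ((-1) ^ n * ∏ i ∈ range n, ((n : S) + ((n : S) - (k : S)) * x i ^ k)) := by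
          rw [mul_assoc, h2]
      _ = _ := by rw [← mul_assoc, h4, one_mul]
  rw [vd_sq, h3]

end TR
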