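import Pool.Agent.LibTR13.Def
import Pool.Agent.LibTR13.Tri
import Pool.Agent.LibTR13.Pia
import Pool.Agent.LibTR13.Pib
import Pool.Agent.LibTR13.Sig
import Pool.Agent.LibTR13.Fac
import Pool.Agent.LibTR13.Vda
import Pool.Agent.LibTR13.Vdb
import Pool.Agent.LibTR13.Fix
import Pool.Agent.LibTR13.Psum
import Pool.Agent.LibTR13.Prod8

/-! MP_db25a0_nt, row SWAN.  -/

set_option autoImplicit false
set_option linter.unusedSectionVars false

namespace TR

open Polynomial Finset


theorem SWAN_cast (n k N r : ℕ) (h : N % 8 = r) : ((N : ℕ) : RR n k) = (r : ℕ) := by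
  have h1 : N = 8 * (N / 8) + r := by omega
  have h2 : ((N : ℕ) : RR n k) = 8 * ((N / 8 : ℕ) : RR n k) + (r : ℕ) := by
    conv_lhs => rw [h1]
    push_cast
    ring
  rw [h2, eight_zero, zero_mul, zero_add]

theorem SWAN_sq (n k N : ℕ) (h : N % 2 = 1) : ((N : ℕ) : RR n k) ^ 2 = 1 := by
  have h1 : (N ^ 2) % 8 = 1 := by
    have h2 : N % 8 = 1 ∨ N % 8 = 3 ∨ N % 8 = 5 ∨ N % 8 = 7 := by omega
    rw [Nat.pow_mod]
    rcases h2 with h2 | h2 | h2 | h2 <;> rw [h2]
  have h3 := SWAN_cast n k (N ^ 2) 1 h1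
  push_cast at h3
  exact h3

theorem SWAN_even {S : Type} [CommRing S] (a : S) (h : a ^ 2 = 1) (N : ℕ) (hN : N % 2 = 0) :
    a ^ N = 1 := by
  obtain ⟨m, rfl⟩ : ∃ m, N = 2 * m := ⟨N / 2, by omega⟩
  rw [pow_mul, h, one_pow]

theorem SWAN_odd {S : Type} [CommRing S] (a : S) (h : a ^ 2 = 1) (N : ℕ) (hN : N % 2 = 1) :
    a ^ N = a := by
  obtain ⟨m, rfl⟩ : ∃ m, N = 2 * m + 1 := ⟨N / 2, by omega⟩
  rw [pow_succ, pow_mul, h, one_pow, one_mul]

theorem SWAN_seq (n k : ℕ) (hk : k % 2 = 1) (hkn : k < n)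
    (hirr : Irreducible (tri (ZMod 2) n k)) : ∃ (σ : RR n k →+* RR n k) (x : ℕ → RR n k),
    (∀ r, pi n k (σ r) = pi n k r ^ 2) ∧ (∀ i, x (i + 1) = σ (x i)) ∧
    tri (RR n k) n k = ∏ i ∈ range n, (X - C (x i)) ∧ x n = x 0 ∧
      ∀ i j, i < j → j < n → IsUnit (x j - x i) := by
  obtain ⟨σ, hσ⟩ := exists_sigma n k hk hkn hirr
  refine ⟨σ, fun i => σ^[i] (AdjoinRoot.root (tri (ZMod 8) n k)), hσ, ?_, ?_⟩
  · intro i
    exact Function.iterate_succ_apply' σ i _
  · exact tri_factor n k hk hkn hirr σ hσ _ rfl (fun i => Function.iterate_succ_apply' σ i _)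

/-- `n = 0`, `k ^ n = 1` in `RR n k`, the product of the `x i` is 1, so `vd x n ^ 2 = 1`, while
`σ (vd x n) = - vd x n`; `anti_sq` -/
theorem swan8 (n k : ℕ) (hn : n % 8 = 0) (hk : k % 2 = 1) (hkn : k < n) :
    ¬ Irreducible (tri (ZMod 2) n k) := by
  intro hirr
  obtain ⟨σ, x, hσ, hx, hF, hxn, -⟩ := SWAN_seq n k hk hkn hirr
  have hk0 : 0 < k := by omega
  have hn0 : 0 < n := by omega
  have hσv := vd_sigma σ x n (by omega) hx hxn
  have hodd : Odd (n - 1) := by rw [Nat.odd_iff]; omega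
  rw [hodd.neg_one_pow, neg_one_mul] at hσv
  apply anti_sq n k hk0 hkn hirr σ (vd x n) hσv
  rw [vd_sq_tri n k hk0 hkn x hF]
  have hn8 : ((n : ℕ) : RR n k) = 0 := by
    have := SWAN_cast n k n 0 hn
    simpa using this
  have heven : Even (n * (n - 1) / 2) := by
    obtain ⟨m, rfl⟩ : ∃ m, n = 8 * m := ⟨n / 8, by omega⟩
    have : 8 * m * (8 * m - 1) / 2 = 2 * (2 * m * (8 * m - 1)) := by
      rw [show 8 * m * (8 * m - 1) = 2 * (2 * (2 * m * (8 * m - 1))) by ring]
      exact Nat.mul_div_cancel_left _ (by norm_num)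
    rw [this]
    exact even_two_mul _
  rw [heven.neg_one_pow, one_mul, hn8]
  have hprod : ∏ i ∈ range n, x i = 1 := by
    have h0 := congrArg (Polynomial.eval 0) hF
    rw [tri_eval, Polynomial.eval_prod] at h0
    simp only [eval_sub, eval_X, eval_C, zero_sub] at h0
    rw [zero_pow (by omega), zero_pow (by omega), Finset.prod_neg, card_range] at h0
    have hne : Even n := by rw [Nat.even_iff]; omega
    rw [hne.neg_one_pow, one_mul, zero_add, zero_add] at h0
    exact h0.symm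
  have h1 : ∀ i ∈ range n, ((0 : RR n k) + (0 - (k : RR n k)) * x i ^ k) =
      -(k : RR n k) * x i ^ k := by
    intro i _
    ring
  rw [Finset.prod_congr rfl h1, Finset.prod_mul_distrib, Finset.prod_const, card_range,
    Finset.prod_pow, hprod, one_pow, mul_one]
  exact SWAN_even _ (by rw [neg_sq, SWAN_sq n k k hk]) n (by omega)

/-- otherwise `psum_zero` for `j = k` and `j = 2 k`, `prod_eight`, `vd_sq_tri`, `vd_sigma`,
`fix_sq` give `1 = (-1) ^ (n (n - 1) / 2) n ^ n` in `RR n k`, that is `1 = 5` -/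
theorem swan3 (n k : ℕ) (hn : n % 8 = 3 ∨ n % 8 = 5) (hk : k % 2 = 1) (hkn : k < n)
    (hirr : Irreducible (tri (ZMod 2) n k)) : (n - k) ∣ 2 * n := by
  by_contra hdiv
  obtain ⟨σ, x, hσ, hx, hF, hxn, hunit⟩ := SWAN_seq n k hk hkn hirr
  have hk0 : 0 < k := by omega
  have hn2 : n % 2 = 1 := by omega
  have hnk : 2 * n = 2 * k + 2 * (n - k) := by omega
  have hd2 : ¬ (n - k) ∣ 2 * k := by
    intro h
    apply hdiv
    rw [hnk]
    exact dvd_add h (Dvd.intro_left 2 rfl)
  have hd1 : ¬ (n - k) ∣ k := fun h => hd2 (h.mul_left 2)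
  have s1 : ∑ i ∈ range n, x i ^ k = 0 :=
    psum_zero n k hk0 hkn x hF k hk0 (by omega) hd1 (fun h => by omega)
  have s2 : ∑ i ∈ range n, x i ^ (2 * k) = 0 := by
    apply psum_zero n k hk0 hkn x hF (2 * k) (by omega) (by omega) hd2
    intro h h'
    apply hd1
    have h3 : k = (2 * k - n) + (n - k) := by omega
    have h4 := dvd_add h' (dvd_refl (n - k))
    rwa [← h3] at h4
  have hσv := vd_sigma σ x n (by omega) hx hxn
  have heven : Even (n - 1) := by rw [Nat.even_iff]; omega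
  rw [heven.neg_one_pow, one_mul] at hσv
  have hu : IsUnit (vd x n) := by
    unfold vd
    rw [IsUnit.prod_iff]
    intro i hi
    rw [IsUnit.prod_iff]
    intro j hj
    rw [mem_range] at hi hj
    exact hunit j i hj hi
  have hv := fix_sq n k hk0 hkn hirr σ hσ (vd x n) hu hσv
  rw [vd_sq_tri n k hk0 hkn x hF] at hv
  obtain ⟨l, hl⟩ : ∃ l, n = k + 2 * l := ⟨(n - k) / 2, by omega⟩
  have hl' : ((n : ℕ) : RR n k) - (k : ℕ) = 2 * (l : ℕ) := by
    have : ((n : ℕ) : RR n k) = ((k + 2 * l : ℕ) : RR n k) := by rw [← hl]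
    rw [this]
    push_cast
    ring
  have h8 : ∏ i ∈ range n, (((n : ℕ) : RR n k) + 2 * (l : RR n k) * x i ^ k) = (n : RR n k) ^ n :=
    prod_eight (eight_zero n k) n l hn2 (fun i => x i ^ k) s1 (by
      rw [← s2]
      apply Finset.sum_congr rfl
      intro i _
      rw [← pow_mul, mul_comm])
  rw [hl', h8] at hv
  have hpow : ((n : ℕ) : RR n k) ^ n = (n : RR n k) := SWAN_odd _ (SWAN_sq n k n hn2) n hn2
  rw [hpow] at hv
  have h4 : (4 : RR n k) = 0 := by
    rcases hn with h | h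
    · have hodd : Odd (n * (n - 1) / 2) := by
        obtain ⟨t, rfl⟩ : ∃ t, n = 8 * t + 3 := ⟨n / 8, by omega⟩
        have : (8 * t + 3) * (8 * t + 3 - 1) / 2 = (8 * t + 3) * (4 * t + 1) := by
          rw [show 8 * t + 3 - 1 = 2 * (4 * t + 1) by omega,
            show (8 * t + 3) * (2 * (4 * t + 1)) = 2 * ((8 * t + 3) * (4 * t + 1)) by ring]
          exact Nat.mul_div_cancel_left _ (by norm_num)
        rw [this, Nat.odd_mul]
        constructor <;> rw [Nat.odd_iff] <;> omega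
      rw [hodd.neg_one_pow, SWAN_cast n k n 3 h] at hv
      push_cast at hv
      linear_combination -hv
    · have hev : Even (n * (n - 1) / 2) := by
        obtain ⟨t, rfl⟩ : ∃ t, n = 8 * t + 5 := ⟨n / 8, by omega⟩
        have : (8 * t + 5) * (8 * t + 5 - 1) / 2 = (8 * t + 5) * (4 * t + 2) := by
          rw [show 8 * t + 5 - 1 = 2 * (4 * t + 2) by omega,
            show (8 * t + 5) * (2 * (4 * t + 2)) = 2 * ((8 * t + 5) * (4 * t + 2)) by ring]
          exact Nat.mul_div_cancel_left _ (by norm_num)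
        rw [this, Nat.even_mul]
        right
        rw [Nat.even_iff]
        omega
      rw [hev.neg_one_pow, SWAN_cast n k n 5 h] at hv
      push_cast at hv
      linear_combination hv
  obtain ⟨s, hs⟩ := two_mul_zero n k hk0 hkn 2 (by linear_combination h4)
  rw [h4, zero_mul] at hs
  obtain ⟨s', hs'⟩ := two_mul_zero n k hk0 hkn 1 (by rw [hs, zero_mul])
  rw [h4, zero_mul] at hs'
  have : Fact (Irreducible (tri (ZMod 2) n k)) := ⟨hirr⟩
  have : pi n k 1 = 0 := by rw [hs', map_zero]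
  rw [map_one] at this
  exact one_ne_zero this

end TR
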