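import Pool.Agent.LibTR13.Def
import Pool.Agent.LibTR13.Tri
import Pool.Agent.LibTR13.Swan
import Pool.Agent.LibTR13.Shape
import Pool.Agent.LibTR13.Expand

/-! MP_db25a0_nt, row STRUCT. (from SWAN, SHAPE, EXPAND) -/

set_option autoImplicit false
set_option linter.unusedSectionVars false

namespace TR

open Polynomial Finset


theorem STRUCT_shape (n : ℕ) (hn : n ∈ TT) :
    ∃ k, 0 < k ∧ k < n ∧ Irreducible (tri (ZMod 2) n k) := by
  obtain ⟨f, h3, hd, hirr⟩ := hn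
  obtain ⟨k, hk, hkn, hf⟩ := shape f h3 hirr
  rw [hd] at hkn hf
  rw [hf] at hirr
  exact ⟨k, hk, hkn, hirr⟩

theorem no8 (n : ℕ) (hn : n ∈ TT) : n % 8 ≠ 0 := by
  intro h8
  obtain ⟨k, hk, hkn, hirr⟩ := STRUCT_shape n hn
  rcases Nat.mod_two_eq_zero_or_one k with h2 | h2
  · have e1 : n = 2 * (n / 2) := by omega
    have e2 : k = 2 * (k / 2) := by omega
    have h := both_even (n / 2) (k / 2) (by omega) (by omega)
    rw [← e1, ← e2] at h
    exact h hirr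
  · exact swan8 n k h8 h2 hkn hirr

theorem STRUCT_expand (d m : ℕ) : tri (ZMod 2) (d * m) (2 * d) =
    expand (ZMod 2) d (tri (ZMod 2) m 2) := by
  unfold tri
  rw [map_add, map_add, map_pow, map_pow, expand_X, map_one, ← pow_mul, ← pow_mul, mul_comm 2 d]

/-- `f = tri n (2 d)` or its reciprocal, `d ∣ n`, `f = expand d (tri (n / d) 2)` -/
theorem struct (n : ℕ) (hn : n ∈ TT) (h : n % 8 = 3 ∨ n % 8 = 5) :
    ∃ d m : ℕ, n = d * m ∧ 3 ≤ m ∧ Irreducible (tri (ZMod 2) m 2) ∧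
      ∀ r : ℕ, r.Prime → r ∣ d → r ∣ 2 ^ m - 1 := by
  obtain ⟨k, hk, hkn, h2, hirr, hirr'⟩ : ∃ k, 0 < k ∧ k < n ∧ k % 2 = 1 ∧
      Irreducible (tri (ZMod 2) n k) ∧ Irreducible (tri (ZMod 2) n (n - k)) := by
    obtain ⟨k, hk, hkn, hirr⟩ := STRUCT_shape n hn
    have hr := recip n k hk hkn hirr
    rcases Nat.mod_two_eq_zero_or_one k with h2 | h2
    · refine ⟨n - k, by omega, by omega, by omega, hr, ?_⟩
      rwa [Nat.sub_sub_self hkn.le]
    · exact ⟨k, hk, hkn, h2, hirr, hr⟩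
  have hdvd := swan3 n k h h2 hkn hirr
  obtain ⟨d, hd⟩ : ∃ d, n - k = 2 * d := ⟨(n - k) / 2, by omega⟩
  rw [hd] at hdvd hirr'
  have hdn : d ∣ n := Nat.dvd_of_mul_dvd_mul_left two_pos hdvd
  obtain ⟨m, rfl⟩ := hdn
  have hd0 : 0 < d := by omega
  have hm : 3 ≤ m := by
    by_contra hm
    have h1 : m ≤ 2 := by omega
    have h3 : d * m ≤ d * 2 := Nat.mul_le_mul_left d h1
    omega
  rw [STRUCT_expand] at hirr'
  have hg := of_irreducible_expand hd0.ne' hirr'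
  refine ⟨d, m, rfl, hm, hg, fun r hr hrd => ?_⟩
  obtain ⟨c, rfl⟩ := hrd
  have hc : c ≠ 0 := by
    rintro rfl
    simp at hd0
  rw [mul_comm r c, ← expand_expand] at hirr'
  exact expand_prime _ m r hg (tri_natDegree (ZMod 2) m 2 two_pos (by omega)) hr
    (of_irreducible_expand hc hirr')

end TR
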