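import Pool.Agent.LibTR13.Sieve
import Pool.Agent.LibTR13.Avga

/-! MP_db25a0_nt, row UAVG. (from AVG, n127_eq, n2047_eq, n8191_eq) -/

set_option autoImplicit false
set_option linter.unusedSectionVars false

namespace TR

open Polynomial Finset


theorem ua_ib_and (a b : Bool) : ib (a && b) = ib a * ib b := by
  cases a <;> cases b <;> simp [ib]

theorem ua_mul (M : ℕ) (f : ℕ → ℚ) (a : ℚ) : avg M (fun c => f c * a) = avg M f * a := by
  unfold avg
  rw [← Finset.sum_mul]; ring

theorem ua_mod (d m c : ℕ) (h : d ∣ m) : (c + m) % d = c % d := by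
  obtain ⟨k, rfl⟩ := h
  exact Nat.add_mul_mod_self_left c d k

theorem ua_modmod (d k m c : ℕ) (h : k ∣ m) : (c + m) % k % d = c % k % d := by
  rw [ua_mod k m c h]

theorem ua_sm (s : ℕ) (f : ℕ → ℕ) : sm s f = ∑ c ∈ range s, f c := by
  induction s with
  | zero => rfl
  | succ n ih =>
    rw [Finset.sum_range_succ, ← ih]; rfl

def uF (q c : ℕ) : ℚ := ib (c % q == 0 && U0 c)
def u13 (c : ℕ) : ℚ := ib (!B12.testBit (c % 4095))
def u17 (c : ℕ) : ℚ := ib (!B8.testBit (c % 255))
def u73 (c : ℕ) : ℚ := ib (!B9.testBit (c % 511))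
def u341 (c : ℕ) : ℚ := ib (!B5.testBit (c % 31) && !B10.testBit (c % 1023))
def u127 (c : ℕ) : ℚ := ib (!B7.testBit (c % 127))
def u2047 (c : ℕ) : ℚ := ib (!B11.testBit (c % 2047))
def u8191 (c : ℕ) : ℚ := ib (!B13.testBit (c % 8191))
def u8 (r c : ℕ) : ℚ := ib (c % 8 == r)

theorem uF_per (q m : ℕ) (hq : q ∣ 315) (hm : 315 ∣ m) (c : ℕ) : uF q (c + m) = uF q c := by
  have h3 : (3:ℕ) ∣ m := dvd_trans (by norm_num) hm
  have h7 : (7:ℕ) ∣ m := dvd_trans (by norm_num) hm
  have h15 : (15:ℕ) ∣ m := dvd_trans (by norm_num) hm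
  have h63 : (63:ℕ) ∣ m := dvd_trans (by norm_num) hm
  unfold uF U0
  rw [ua_mod q m c (dvd_trans hq hm), ua_mod 3 m c h3, ua_mod 7 m c h7, ua_mod 15 m c h15,
    ua_mod 63 m c h63]

theorem u13_per (m : ℕ) (hm : 4095 ∣ m) (c : ℕ) : u13 (c + m) = u13 c := by
  unfold u13; rw [ua_mod _ m c hm]
theorem u17_per (m : ℕ) (hm : 255 ∣ m) (c : ℕ) : u17 (c + m) = u17 c := by
  unfold u17; rw [ua_mod _ m c hm]
theorem u73_per (m : ℕ) (hm : 511 ∣ m) (c : ℕ) : u73 (c + m) = u73 c := by
  unfold u73; rw [ua_mod _ m c hm]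
theorem u341_per (m : ℕ) (hm : 31 ∣ m) (hm' : 1023 ∣ m) (c : ℕ) : u341 (c + m) = u341 c := by
  unfold u341; rw [ua_mod _ m c hm, ua_mod _ m c hm']
theorem u127_per (m : ℕ) (hm : 127 ∣ m) (c : ℕ) : u127 (c + m) = u127 c := by
  unfold u127; rw [ua_mod _ m c hm]
theorem u2047_per (m : ℕ) (hm : 2047 ∣ m) (c : ℕ) : u2047 (c + m) = u2047 c := by
  unfold u2047; rw [ua_mod _ m c hm]
theorem u8191_per (m : ℕ) (hm : 8191 ∣ m) (c : ℕ) : u8191 (c + m) = u8191 c := by
  unfold u8191; rw [ua_mod _ m c hm]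
theorem u8_per (r m : ℕ) (hm : 8 ∣ m) (c : ℕ) : u8 r (c + m) = u8 r c := by
  unfold u8; rw [ua_mod _ m c hm]

theorem n13_per (m : ℕ) (hm : 315 ∣ m) (c : ℕ) : n13 (c + m) = n13 c := by
  unfold n13; rw [ua_mod _ m c hm]
theorem n17_per (m : ℕ) (hm : 15 ∣ m) (c : ℕ) : n17 (c + m) = n17 c := by
  unfold n17; rw [ua_mod _ m c hm]
theorem n73_per (m : ℕ) (hm : 7 ∣ m) (c : ℕ) : n73 (c + m) = n73 c := by
  unfold n73; rw [ua_mod _ m c hm]
theorem n341_per (m : ℕ) (hm : 3 ∣ m) (c : ℕ) : n341 (c + m) = n341 c := by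
  unfold n341; rw [ua_mod _ m c hm]

theorem u8_avg (r c : ℕ) (hr : r < 8) : avg 8 (fun y => u8 r (c % 1 + 1 * y)) = 1 / 8 := by
  have h : ∀ y : ℕ, u8 r (c % 1 + 1 * y) = u8 r y := by
    intro y; rw [Nat.mod_one, zero_add, one_mul]
  simp only [h]
  unfold avg u8 ib
  interval_cases r <;> norm_num [Finset.sum_range_succ] <;> decide

theorem u8191_avg (c : ℕ) : avg 8191 (fun y => u8191 (c % 1 + 1 * y)) = 7561 / 8191 := by
  have h : ∀ y : ℕ, u8191 (c % 1 + 1 * y) = ib (!B13.testBit (y % 8191)) := by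
    intro y; rw [Nat.mod_one, zero_add, one_mul]; rfl
  simp only [h]
  rw [avg_ib]
  have h2 : cnt 8191 (fun y => !B13.testBit (y % 8191)) = 7561 := n8191_eq
  rw [h2]; norm_num

theorem u2047_avg (c : ℕ) : avg 2047 (fun y => u2047 (c % 1 + 1 * y)) = 1871 / 2047 := by
  have h : ∀ y : ℕ, u2047 (c % 1 + 1 * y) = ib (!B11.testBit (y % 2047)) := by
    intro y; rw [Nat.mod_one, zero_add, one_mul]; rfl
  simp only [h]
  rw [avg_ib]
  have h2 : cnt 2047 (fun y => !B11.testBit (y % 2047)) = 1871 := n2047_eq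
  rw [h2]; norm_num

theorem u127_avg (c : ℕ) : avg 127 (fun y => u127 (c % 1 + 1 * y)) = 109 / 127 := by
  have h : ∀ y : ℕ, u127 (c % 1 + 1 * y) = ib (!B7.testBit (y % 127)) := by
    intro y; rw [Nat.mod_one, zero_add, one_mul]; rfl
  simp only [h]
  rw [avg_ib]
  have h2 : cnt 127 (fun y => !B7.testBit (y % 127)) = 109 := n127_eq
  rw [h2]; norm_num

theorem u341_avg (c : ℕ) : avg 341 (fun y => u341 (c % 3 + 3 * y)) = (n341 c : ℚ) / 341 := by
  unfold u341
  rw [avg_ib]; unfold n341; norm_num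

theorem u73_avg (c : ℕ) : avg 73 (fun y => u73 (c % 7 + 7 * y)) = (n73 c : ℚ) / 73 := by
  unfold u73
  rw [avg_ib]; unfold n73; norm_num

theorem u17_avg (c : ℕ) : avg 17 (fun y => u17 (c % 15 + 15 * y)) = (n17 c : ℚ) / 17 := by
  unfold u17
  rw [avg_ib]; unfold n17; norm_num

theorem u13_avg (c : ℕ) : avg 13 (fun y => u13 (c % 315 + 315 * y)) = (n13 c : ℚ) / 13 := by
  unfold u13
  rw [avg_ib]; unfold n13; norm_num

/-- `avg_split` with `s = 8191, 2047, 127, 341, 73, 17, 13` (`k = 1, 1, 1, 3, 7, 15, 315`), and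
`s = 8` (`k = 1`) -/
theorem uavg (q r : ℕ) (hq : q ∣ 315) (hr : r < 8) :
    avg (315 * 13 * 17 * 73 * 341 * 127 * 2047 * 8191 * 8)
        (fun c => ib (c % 8 == r && (c % q == 0 && UU c))) =
      (V q : ℚ) * 109 * 1871 * 7561 / (315 * 13 * 17 * 73 * 341 * 127 * 2047 * 8191 * 8) := by
  have h0 : ∀ c : ℕ, ib (c % 8 == r && (c % q == 0 && UU c)) =
      (uF q c * u13 c * u17 c * u73 c * u341 c * u127 c * u2047 c * u8191 c) * u8 r c := by
    intro c
    unfold uF u13 u17 u73 u341 u127 u2047 u8191 u8 UU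
    simp only [ua_ib_and]
    ring
  simp only [h0]
  rw [avg_split (315 * 13 * 17 * 73 * 341 * 127 * 2047 * 8191) 8 1
    (fun c => uF q c * u13 c * u17 c * u73 c * u341 c * u127 c * u2047 c * u8191 c) (u8 r)
    (by norm_num) (by norm_num) (by norm_num) (by norm_num)
    (fun c => by
      rw [uF_per q _ hq (by norm_num), u13_per _ (by norm_num), u17_per _ (by norm_num),
        u73_per _ (by norm_num), u341_per _ (by norm_num) (by norm_num), u127_per _ (by norm_num),
        u2047_per _ (by norm_num), u8191_per _ (by norm_num)])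
    (fun c => u8_per r _ (by norm_num) c)]
  simp only [u8_avg r _ hr]
  rw [ua_mul]
  rw [avg_split (315 * 13 * 17 * 73 * 341 * 127 * 2047) 8191 1
    (fun c => uF q c * u13 c * u17 c * u73 c * u341 c * u127 c * u2047 c) u8191
    (by norm_num) (by norm_num) (by norm_num) (by norm_num)
    (fun c => by
      rw [uF_per q _ hq (by norm_num), u13_per _ (by norm_num), u17_per _ (by norm_num),
        u73_per _ (by norm_num), u341_per _ (by norm_num) (by norm_num), u127_per _ (by norm_num),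
        u2047_per _ (by norm_num)])
    (fun c => u8191_per _ (by norm_num) c)]
  simp only [u8191_avg]
  rw [ua_mul]
  rw [avg_split (315 * 13 * 17 * 73 * 341 * 127) 2047 1
    (fun c => uF q c * u13 c * u17 c * u73 c * u341 c * u127 c) u2047
    (by norm_num) (by norm_num) (by norm_num) (by norm_num)
    (fun c => by
      rw [uF_per q _ hq (by norm_num), u13_per _ (by norm_num), u17_per _ (by norm_num),
        u73_per _ (by norm_num), u341_per _ (by norm_num) (by norm_num), u127_per _ (by norm_num)])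
    (fun c => u2047_per _ (by norm_num) c)]
  simp only [u2047_avg]
  rw [ua_mul]
  rw [avg_split (315 * 13 * 17 * 73 * 341) 127 1
    (fun c => uF q c * u13 c * u17 c * u73 c * u341 c) u127
    (by norm_num) (by norm_num) (by norm_num) (by norm_num)
    (fun c => by
      rw [uF_per q _ hq (by norm_num), u13_per _ (by norm_num), u17_per _ (by norm_num),
        u73_per _ (by norm_num), u341_per _ (by norm_num) (by norm_num)])
    (fun c => u127_per _ (by norm_num) c)]
  simp only [u127_avg]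
  rw [ua_mul]
  rw [avg_split (315 * 13 * 17 * 73) 341 3
    (fun c => uF q c * u13 c * u17 c * u73 c) u341
    (by norm_num) (by norm_num) (by norm_num) (by norm_num)
    (fun c => by
      rw [uF_per q _ hq (by norm_num), u13_per _ (by norm_num), u17_per _ (by norm_num),
        u73_per _ (by norm_num)])
    (fun c => u341_per _ (by norm_num) (by norm_num) c)]
  simp only [u341_avg]
  have h1 : ∀ c : ℕ, uF q c * u13 c * u17 c * u73 c * ((n341 c : ℚ) / 341) =
      (uF q c * u13 c * u17 c * ((n341 c : ℚ) / 341)) * u73 c := fun c => by ring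
  simp only [h1]
  rw [avg_split (315 * 13 * 17) 73 7
    (fun c => uF q c * u13 c * u17 c * ((n341 c : ℚ) / 341)) u73
    (by norm_num) (by norm_num) (by norm_num) (by norm_num)
    (fun c => by
      rw [uF_per q _ hq (by norm_num), u13_per _ (by norm_num), u17_per _ (by norm_num),
        n341_per _ (by norm_num)])
    (fun c => u73_per _ (by norm_num) c)]
  simp only [u73_avg]
  have h2 : ∀ c : ℕ, uF q c * u13 c * u17 c * ((n341 c : ℚ) / 341) * ((n73 c : ℚ) / 73) =
      (uF q c * u13 c * ((n341 c : ℚ) / 341) * ((n73 c : ℚ) / 73)) * u17 c := fun c => by ring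
  simp only [h2]
  rw [avg_split (315 * 13) 17 15
    (fun c => uF q c * u13 c * ((n341 c : ℚ) / 341) * ((n73 c : ℚ) / 73)) u17
    (by norm_num) (by norm_num) (by norm_num) (by norm_num)
    (fun c => by
      rw [uF_per q _ hq (by norm_num), u13_per _ (by norm_num),
        n341_per _ (by norm_num), n73_per _ (by norm_num)])
    (fun c => u17_per _ (by norm_num) c)]
  simp only [u17_avg]
  have h3 : ∀ c : ℕ, uF q c * u13 c * ((n341 c : ℚ) / 341) * ((n73 c : ℚ) / 73) * ((n17 c : ℚ) / 17) =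
      (uF q c * ((n341 c : ℚ) / 341) * ((n73 c : ℚ) / 73) * ((n17 c : ℚ) / 17)) * u13 c :=
    fun c => by ring
  simp only [h3]
  rw [avg_split 315 13 315
    (fun c => uF q c * ((n341 c : ℚ) / 341) * ((n73 c : ℚ) / 73) * ((n17 c : ℚ) / 17)) u13
    (by norm_num) (by norm_num) (by norm_num) (by norm_num)
    (fun c => by
      rw [uF_per q _ hq (by norm_num), n17_per _ (by norm_num),
        n341_per _ (by norm_num), n73_per _ (by norm_num)])
    (fun c => u13_per _ (by norm_num) c)]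
  simp only [u13_avg]
  have h4 : avg 315 (fun c => uF q c * ((n341 c : ℚ) / 341) * ((n73 c : ℚ) / 73) *
      ((n17 c : ℚ) / 17) * ((n13 c : ℚ) / 13)) = (V q : ℚ) / (315 * 13 * 17 * 73 * 341) := by
    unfold avg V
    rw [ua_sm]
    push_cast
    rw [Finset.sum_div, Finset.sum_div]
    refine Finset.sum_congr rfl fun c _ => ?_
    unfold uF ib
    split_ifs <;> ring
  rw [h4]
  ring

end TR
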