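import Pool.Agent.LibTR13.Sieve
import Pool.Agent.LibTR13.Newt
import Pool.Agent.LibTR13.Tri
import Pool.Agent.LibTR13.Pia
import Pool.Agent.LibTR13.Pib
import Pool.Agent.LibTR13.Conj
import Pool.Agent.LibTR13.Sig
import Pool.Agent.LibTR13.Fac
import Pool.Agent.LibTR13.Vda
import Pool.Agent.LibTR13.Vdb
import Pool.Agent.LibTR13.Fix
import Pool.Agent.LibTR13.Psum
import Pool.Agent.LibTR13.Prod8
import Pool.Agent.LibTR13.Swan
import Pool.Agent.LibTR13.Shape
import Pool.Agent.LibTR13.Expand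
import Pool.Agent.LibTR13.Struct
import Pool.Agent.LibTR13.Bita
import Pool.Agent.LibTR13.Bitb
import Pool.Agent.LibTR13.Bad
import Pool.Agent.LibTR13.Chk
import Pool.Agent.LibTR13.Avga
import Pool.Agent.LibTR13.Avgb
import Pool.Agent.LibTR13.Uavg
import Pool.Agent.LibTR13.Ord
import Pool.Agent.LibTR13.Tail
import Pool.Agent.LibTR13.Expl
import Pool.Agent.LibTR13.Mult

/-! MP_db25a0_nt: all rows. -/
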