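import Pool.Agent.LibTR13.Def

/-! MP_db25a0_nt: certificate for degree 10. -/

set_option autoImplicit false

namespace TR

def L10 : List (ℕ × ℕ) :=
  [(1, 154), (5, 819), (7, 876), (9, 72), (9, 413), (9, 754), (13, 127), (17, 518),
   (19, 673), (23, 986), (25, 440), (29, 674), (35, 710), (37, 64), (41, 765), (43, 857),
   (47, 844), (49, 554), (53, 505), (59, 77), (61, 181), (69, 19), (69, 360), (69, 701),
   (71, 252), (73, 650), (75, 80), (75, 421), (75, 762), (79, 948), (83, 624), (85, 961),
   (89, 867), (91, 445), (95, 351), (101, 362), (103, 477), (105, 279), (105, 620), (107, 160),
   (109, 170), (115, 548), (119, 773), (125, 39), (127, 149), (149, 536), (151, 855), (157, 580),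
   (167, 865), (173, 223), (175, 520), (179, 114), (181, 802), (183, 405), (183, 746), (191, 898),
   (205, 911), (215, 663), (221, 158), (223, 585), (235, 401), (237, 263), (237, 604), (237, 945),
   (239, 471), (245, 168), (247, 315), (251, 352), (347, 489), (367, 260), (375, 324), (375, 665),
   (375, 1006), (383, 206), (439, 375), (447, 271), (447, 612), (447, 953), (479, 507), (511, 871)]

def B10 : ℕ := 685766162596183283183898864296588070107547378811432603366291771256513598954903041206692683725586256843053875937735006644757023786983643388120724457363015787106083276549925331508391740775411395506869099136683234706640526988383596021816602741203092284231968698468947647002303259127706395488670063520120832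

theorem chk10 : chk 1033 10 L10 = true := by decide +kernel

theorem mask10 : mask L10 = B10 := by decide +kernel

end TR
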