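import Pool.Agent.LibTR13.Def

/-! MP_db25a0_nt: certificate for degree 11. -/

set_option autoImplicit false

namespace TR

def L11 : List (ℕ × ℕ) :=
  [(1, 11), (3, 1001), (5, 299), (7, 1731), (9, 227), (11, 1303), (13, 1720), (15, 149),
   (17, 882), (19, 502), (21, 218), (25, 855), (27, 297), (29, 1534), (31, 138), (33, 1298),
   (35, 1313), (37, 1146), (39, 1648), (41, 131), (43, 89), (45, 658), (47, 1786), (49, 595),
   (51, 1410), (53, 373), (55, 496), (57, 1818), (59, 1299), (61, 301), (63, 1911), (67, 568),
   (71, 704), (73, 1144), (75, 1602), (77, 474), (79, 181), (81, 271), (83, 1379), (85, 1597),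
   (87, 97), (91, 1250), (93, 1328), (95, 1748), (99, 1684), (101, 1712), (103, 613), (105, 1613),
   (107, 756), (109, 946), (111, 171), (113, 730), (117, 1238), (119, 112), (121, 1878), (123, 1868),
   (125, 263), (127, 1900), (137, 824), (139, 1835), (141, 1382), (143, 1937), (147, 1088), (149, 50),
   (151, 1312), (153, 43), (155, 1578), (157, 1254), (159, 750), (163, 1669), (165, 883), (167, 1920),
   (169, 257), (171, 1042), (173, 939), (175, 811), (179, 1843), (181, 1183), (183, 1825), (185, 419),
   (187, 795), (189, 721), (191, 515), (199, 395), (201, 1794), (203, 618), (205, 253), (211, 945),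
   (213, 367), (215, 953), (217, 357), (219, 1095), (221, 1630), (223, 231), (229, 1096), (231, 1654),
   (233, 224), (235, 129), (237, 737), (239, 1319), (243, 1436), (245, 1952), (247, 1345), (249, 1553),
   (251, 401), (255, 318), (293, 1038), (295, 954), (301, 106), (303, 1103), (307, 116), (309, 1412),
   (311, 1692), (315, 471), (317, 799), (319, 1752), (331, 659), (333, 849), (335, 1293), (339, 311),
   (341, 1994), (343, 1682), (347, 637), (349, 866), (351, 1676), (359, 1104), (363, 1200), (365, 1943),
   (367, 436), (371, 1796), (373, 1110), (375, 667), (379, 1575), (381, 1391), (383, 329), (411, 1933),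
   (413, 206), (415, 639), (423, 1431), (427, 1738), (429, 1390), (431, 337), (439, 255), (443, 2006),
   (447, 1194), (463, 365), (469, 1007), (471, 380), (475, 961), (477, 214), (479, 1454), (491, 670),
   (493, 447), (495, 1481), (501, 1960), (503, 736), (507, 1547), (509, 746), (511, 1048), (683, 55),
   (687, 452), (695, 1792), (699, 1999), (703, 1831), (727, 1166), (731, 1011), (735, 1918), (751, 1778),
   (763, 903), (767, 1750), (879, 905), (887, 1225), (895, 1822), (959, 1167), (991, 751), (1023, 2038)]

def B11 : ℕ := 31559576248921892505834784300861431894982822922837790167824503821869314317791726432496549948966289337106661419280483428887815432054866645077569770396261198942038904087038339600830201682337746253975756678591635119635794715066463334916680121457494056067845085726600433892870499100365048944876711355443891424527977296700271367415377458091070819140180926215703921798250029558660307210758545450790897823719471540232590660859546853818899899912613440643246232903437185035670515213444253288276140238971215607356342931790481242492416121807181174660409665592687401241561986387489494040588676216587732484911050868527915337728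

theorem chk11 : chk 2053 11 L11 = true := by decide +kernel

theorem mask11 : mask L11 = B11 := by decide +kernel

end TR
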