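import Pool.Agent.LibTR13.Def

/-! MP_db25a0_nt: certificate for degree 2. -/

set_option autoImplicit false

namespace TR

def L2 : List (ℕ × ℕ) :=
  [(1, 1)]

def B2 : ℕ := 2

theorem chk2 : chk 7 2 L2 = true := by decide +kernel

theorem mask2 : mask L2 = B2 := by decide +kernel

end TR
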