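import Pool.Agent.LibTR13.Def

/-! MP_db25a0_nt: certificate for degree 3. -/

set_option autoImplicit false

namespace TR

def L3 : List (ℕ × ℕ) :=
  [(1, 6), (3, 3)]

def B3 : ℕ := 72

theorem chk3 : chk 11 3 L3 = true := by decide +kernel

theorem mask3 : mask L3 = B3 := by decide +kernel

end TR
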