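import Pool.Agent.LibTR13.Def

/-! MP_db25a0_nt: certificate for degree 4. -/

set_option autoImplicit false

namespace TR

def L4 : List (ℕ × ℕ) :=
  [(1, 8), (7, 9)]

def B4 : ℕ := 768

theorem chk4 : chk 19 4 L4 = true := by decide +kernel

theorem mask4 : mask L4 = B4 := by decide +kernel

end TR
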