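import Pool.Agent.LibTR13.Def

/-! MP_db25a0_nt: certificate for degree 5. -/

set_option autoImplicit false

namespace TR

def L5 : List (ℕ × ℕ) :=
  [(1, 5), (3, 9), (5, 7), (7, 24), (11, 26), (15, 28)]

def B5 : ℕ := 352322208

theorem chk5 : chk 37 5 L5 = true := by decide +kernel

theorem mask5 : mask L5 = B5 := by decide +kernel

end TR
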