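import Pool.Agent.LibTR13.Def

/-! MP_db25a0_nt: certificate for degree 6. -/

set_option autoImplicit false

namespace TR

def L6 : List (ℕ × ℕ) :=
  [(1, 12), (5, 50), (11, 16), (13, 49), (23, 15), (31, 53)]

def B6 : ℕ := 10696049115107328

theorem chk6 : chk 67 6 L6 = true := by decide +kernel

theorem mask6 : mask L6 = B6 := by decide +kernel

end TR
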