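import Pool.Agent.LibTR13.Def

/-! MP_db25a0_nt: certificate for degree 7. -/

set_option autoImplicit false

namespace TR

def L7 : List (ℕ × ℕ) :=
  [(1, 14), (3, 42), (5, 47), (7, 91), (9, 20), (11, 62), (13, 28), (15, 38),
   (19, 110), (21, 78), (23, 101), (27, 19), (29, 67), (31, 87), (43, 51), (47, 82),
   (55, 109), (63, 115)]

def B7 : ℕ := 43488024127190308250576976917053440

theorem chk7 : chk 131 7 L7 = true := by decide +kernel

theorem mask7 : mask L7 = B7 := by decide +kernel

end TR
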