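import Pool.Agent.LibTR13.Def

/-! MP_db25a0_nt: certificate for degree 8. -/

set_option autoImplicit false

namespace TR

def L8 : List (ℕ × ℕ) :=
  [(1, 50), (7, 32), (9, 55), (9, 140), (9, 225), (11, 230), (13, 231), (19, 211),
   (23, 139), (29, 118), (37, 244), (43, 59), (47, 26), (53, 198), (59, 46), (61, 27),
   (91, 13), (111, 117), (111, 202), (127, 207)]

def B8 : ℕ := 28274783269611103168448588961066031608778070464515771704742641654202114048

theorem chk8 : chk 285 8 L8 = true := by decide +kernel

theorem mask8 : mask L8 = B8 := by decide +kernel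

end TR
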