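import Pool.Agent.LibTR13.Def

/-! MP_db25a0_nt: certificate for degree 9. -/

set_option autoImplicit false

namespace TR

def L9 : List (ℕ × ℕ) :=
  [(1, 260), (3, 280), (5, 305), (9, 228), (11, 39), (13, 375), (15, 119), (17, 491),
   (19, 125), (23, 407), (25, 168), (27, 143), (29, 261), (31, 394), (35, 57), (35, 130),
   (35, 203), (35, 276), (35, 349), (35, 422), (35, 495), (37, 186), (39, 142), (41, 15),
   (43, 243), (45, 468), (47, 252), (51, 118), (53, 452), (55, 52), (57, 461), (59, 371),
   (61, 106), (75, 216), (79, 370), (83, 441), (85, 411), (87, 61), (93, 45), (95, 138),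
   (103, 395), (107, 72), (109, 297), (111, 345), (117, 270), (119, 18), (119, 91), (119, 164),
   (119, 237), (119, 310), (119, 383), (119, 456), (123, 388), (125, 474), (127, 233), (171, 102),
   (183, 498), (187, 327), (191, 208), (223, 285), (239, 22), (255, 253)]

def B9 : ℕ := 927034499047455762526324406202611539310323444891613947693451414082705750889585811296049943529909367462927065309652592590397356791062300746612704837632

theorem chk9 : chk 529 9 L9 = true := by decide +kernel

theorem mask9 : mask L9 = B9 := by decide +kernel

end TR
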