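import Mathlib

/-!
Degrees of irreducible binary trinomials (MP_db25a0_nt): definitions.
-/

set_option autoImplicit false

namespace TR

open Polynomial Finset

/-- the trinomial `X ^ n + X ^ k + 1` -/
noncomputable def tri (R : Type) [CommRing R] (n k : ℕ) : R[X] := X ^ n + X ^ k + 1

/-- degrees of irreducible trinomials over `𝔽₂` -/
def TT : Set ℕ :=
  {n | ∃ f : (ZMod 2)[X], f.support.card = 3 ∧ f.natDegree = n ∧ Irreducible f}

/-! ### the Galois ring -/

/-- `(ℤ/8)[x] / (x ^ n + x ^ k + 1)` -/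
abbrev RR (n k : ℕ) : Type := AdjoinRoot (tri (ZMod 8) n k)

/-- `𝔽₂[x] / (x ^ n + x ^ k + 1)` -/
abbrev KK (n k : ℕ) : Type := AdjoinRoot (tri (ZMod 2) n k)

/-- reduction of coefficients -/
noncomputable def red : ZMod 8 →+* ZMod 2 := ZMod.castHom (by norm_num) (ZMod 2)

theorem pi_aux (n k : ℕ) :
    (tri (ZMod 8) n k).eval₂ ((AdjoinRoot.of (tri (ZMod 2) n k)).comp red)
      (AdjoinRoot.root (tri (ZMod 2) n k)) = 0 := by
  have h := AdjoinRoot.eval₂_root (tri (ZMod 2) n k)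
  simp only [tri, eval₂_add, eval₂_X_pow, eval₂_one] at h ⊢
  exact h

/-- reduction modulo 2 -/
noncomputable def pi (n k : ℕ) : RR n k →+* KK n k :=
  AdjoinRoot.lift ((AdjoinRoot.of (tri (ZMod 2) n k)).comp red)
    (AdjoinRoot.root (tri (ZMod 2) n k)) (pi_aux n k)

/-- Vandermonde product of `x 0, …, x (n - 1)` -/
def vd {R : Type} [CommRing R] (x : ℕ → R) (n : ℕ) : R :=
  ∏ i ∈ range n, ∏ j ∈ range i, (x i - x j)

/-! ### polynomials over `𝔽₂` as bit masks -/

/-- the polynomial with the bits of `a` below `e` as coefficients -/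
noncomputable def pol (e a : ℕ) : (ZMod 2)[X] :=
  ∑ i ∈ range e, (if a.testBit i = true then X ^ i else 0)

/-- the class of the bit mask `a` in `𝔽₂[x] / (pol (e + 1) P)` -/
noncomputable def ev (P e a : ℕ) : AdjoinRoot (pol (e + 1) P) :=
  AdjoinRoot.mk (pol (e + 1) P) (pol e a)

/-- multiplication by `x` modulo `P`, degree `e` -/
def dbl (P e a : ℕ) : ℕ := if (2 * a).testBit e = true then Nat.xor (2 * a) P else 2 * a

/-- `acc + a * b` modulo `P`; `t` = number of bits of `b` that are read -/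
def mulAux (P e : ℕ) : ℕ → ℕ → ℕ → ℕ → ℕ
  | 0, _, _, acc => acc
  | t + 1, a, b, acc =>
    mulAux P e t (dbl P e a) (b / 2) (if b % 2 = 1 then Nat.xor acc a else acc)

/-- multiplication modulo `P` -/
def mulm (P e a b : ℕ) : ℕ := mulAux P e e a b 0

/-- `acc * a ^ b` modulo `P`; `t` = number of bits of `b` that are read -/
def powAux (P e : ℕ) : ℕ → ℕ → ℕ → ℕ → ℕ
  | 0, _, _, acc => acc
  | t + 1, a, b, acc =>
    powAux P e t (mulm P e a a) (b / 2) (if b % 2 = 1 then mulm P e acc a else acc)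

/-- `x ^ b` modulo `P`, for `b < 2 ^ e` -/
def powx (P e b : ℕ) : ℕ := powAux P e e 2 b 1

/-- certificate: `x ^ (2 ^ e - 1) = 1` and, for every pair `(i, s)` of the list,
`(x ^ i) ^ s = 1 + (x ^ i) ^ 2` modulo `P` -/
def chk (P e : ℕ) (l : List (ℕ × ℕ)) : Bool :=
  P.testBit e && decide (P < 2 ^ (e + 1)) && decide (powx P e (2 ^ e - 1) = 1) &&
    l.all fun p => decide (powx P e (p.1 * p.2 % (2 ^ e - 1)) =
      Nat.xor 1 (powx P e (2 * p.1 % (2 ^ e - 1))))

/-- bit mask of the second components -/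
def mask (l : List (ℕ × ℕ)) : ℕ := l.foldl (fun acc p => Nat.lor acc (2 ^ p.2)) 0

/-! ### densities -/

/-- mean over `[0, M)` -/
def avg (M : ℕ) (f : ℕ → ℚ) : ℚ := (∑ c ∈ range M, f c) / M

/-- indicator -/
def ib (b : Bool) : ℚ := if b = true then 1 else 0

/-! ### primes by the order of 2 -/

/-- the primes `r` with `ord_r(2) = e` -/
noncomputable def ordS (e : ℕ) : Finset ℕ :=
  (2 ^ e - 1).primeFactors.filter fun r => orderOf (2 : ZMod r) = e

/-- `(∑ 1 / r) / e` over the primes `r` with `ord_r(2) = e`, for odd `e ≥ 5` -/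
noncomputable def wt (e : ℕ) : ℝ :=
  if e % 2 = 1 ∧ 5 ≤ e then (∑ r ∈ ordS e, (1 : ℝ) / r) / e else 0

end TR
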