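import Pool.Agent.LibTR13.All

/-! MP_db25a0_nt: assembly. -/

set_option autoImplicit false

namespace TR

open Polynomial Finset Filter

theorem cov_sound (P e : ℕ) (he : 2 ≤ e) (l : List (ℕ × ℕ)) (B N : ℕ) (hc : chk P e l = true)
    (hm : mask l = B) (hN : 2 ^ e - 1 = N) (n : ℕ) (hn : e < n)
    (hirr : Irreducible (tri (ZMod 2) n 2)) : B.testBit (n % N) = false := by
  by_contra h
  rw [Bool.not_eq_false, ← hm] at h
  obtain ⟨p, hp, hp2⟩ := mask_sound l _ h
  exact chk_sound P e he l hc n hn p hp (by rw [hN, hp2]) hirr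

theorem UU_sound (n : ℕ) (hn : 13 < n) (hirr : Irreducible (tri (ZMod 2) n 2)) : UU n = true := by
  unfold UU U0
  rw [cov_sound _ 2 (by norm_num) L2 B2 3 chk2 mask2 (by norm_num) n (by omega) hirr,
    cov_sound _ 3 (by norm_num) L3 B3 7 chk3 mask3 (by norm_num) n (by omega) hirr,
    cov_sound _ 4 (by norm_num) L4 B4 15 chk4 mask4 (by norm_num) n (by omega) hirr,
    cov_sound _ 5 (by norm_num) L5 B5 31 chk5 mask5 (by norm_num) n (by omega) hirr,
    cov_sound _ 6 (by norm_num) L6 B6 63 chk6 mask6 (by norm_num) n (by omega) hirr,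
    cov_sound _ 7 (by norm_num) L7 B7 127 chk7 mask7 (by norm_num) n (by omega) hirr,
    cov_sound _ 8 (by norm_num) L8 B8 255 chk8 mask8 (by norm_num) n (by omega) hirr,
    cov_sound _ 9 (by norm_num) L9 B9 511 chk9 mask9 (by norm_num) n (by omega) hirr,
    cov_sound _ 10 (by norm_num) L10 B10 1023 chk10 mask10 (by norm_num) n (by omega) hirr,
    cov_sound _ 11 (by norm_num) L11 B11 2047 chk11 mask11 (by norm_num) n (by omega) hirr,
    cov_sound _ 12 (by norm_num) L12 B12 4095 chk12 mask12 (by norm_num) n (by omega) hirr,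
    cov_sound _ 13 (by norm_num) L13 B13 8191 chk13 mask13 (by norm_num) n (by omega) hirr]
  rfl

theorem V1_eq : V 1 = 310958172 := by decide +kernel

theorem V3_eq : V 3 = 155479086 := by decide +kernel

/-- the period -/
def MM : ℕ := 315 * 13 * 17 * 73 * 341 * 127 * 2047 * 8191 * 8

theorem mod_add_MM (a c : ℕ) (h : a ∣ MM) : (c + MM) % a = c % a := by
  obtain ⟨b, hb⟩ := h
  rw [hb, Nat.add_mul_mod_self_left]

theorem UU_per (c : ℕ) : UU (c + MM) = UU c := by
  unfold UU U0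
  rw [mod_add_MM 3 c (by unfold MM; decide), mod_add_MM 7 c (by unfold MM; decide),
    mod_add_MM 15 c (by unfold MM; decide), mod_add_MM 63 c (by unfold MM; decide),
    mod_add_MM 4095 c (by unfold MM; decide), mod_add_MM 255 c (by unfold MM; decide),
    mod_add_MM 511 c (by unfold MM; decide), mod_add_MM 31 c (by unfold MM; decide),
    mod_add_MM 1023 c (by unfold MM; decide), mod_add_MM 127 c (by unfold MM; decide),
    mod_add_MM 2047 c (by unfold MM; decide), mod_add_MM 8191 c (by unfold MM; decide)]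

/-- upper bound for the density of one class mod 8, `q ∣ n` and `UU n` -/
theorem count_class (q r : ℕ) (hq : q ∣ 315) (hr : r < 8) (N : ℕ) :
    (#((Icc 1 N).filter fun n => (n % 8 == r && (n % q == 0 && UU n)) = true) : ℝ) ≤
      ((V q : ℝ) * 109 * 1871 * 7561 / (315 * 13 * 17 * 73 * 341 * 127 * 2047 * 8191 * 8)) * N
        + MM := by
  have h1 := count_le (fun n => (n % 8 == r && (n % q == 0 && UU n))) MM (by unfold MM; norm_num)
    (by
      intro c
      rw [mod_add_MM 8 c (by unfold MM; decide), UU_per,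
        mod_add_MM q c (dvd_trans hq (by unfold MM; decide))]) N
  have h2 := uavg q r hq hr
  have h3 : avg MM (fun c => ib (c % 8 == r && (c % q == 0 && UU c))) =
      (V q : ℚ) * 109 * 1871 * 7561 / (315 * 13 * 17 * 73 * 341 * 127 * 2047 * 8191 * 8) := h2
  rw [h3] at h1
  push_cast at h1
  exact h1

theorem two_class (P : ℕ → Prop) [DecidablePred P] (N : ℕ) (s : Finset ℕ)
    (hs : s ⊆ Icc 1 N) (h : ∀ n ∈ s, (n % 8 = 3 ∨ n % 8 = 5) ∧ P n) :
    #s ≤ #((Icc 1 N).filter fun n => n % 8 = 3 ∧ P n) +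
      #((Icc 1 N).filter fun n => n % 8 = 5 ∧ P n) := by
  refine (card_le_card ?_).trans (card_union_le _ _)
  intro n hn
  rw [mem_union, mem_filter, mem_filter]
  obtain ⟨h1, h2⟩ := h n hn
  rcases h1 with h1 | h1
  · exact Or.inl ⟨hs hn, h1, h2⟩
  · exact Or.inr ⟨hs hn, h1, h2⟩

theorem count_UU (q : ℕ) (hq : q ∣ 315) (v : ℕ) (hv : V q = v) (N : ℕ) (s : Finset ℕ)
    (hs : s ⊆ Icc 1 N) (h : ∀ n ∈ s, (n % 8 = 3 ∨ n % 8 = 5) ∧ (q ∣ n ∧ UU n = true)) :
    (#s : ℝ) ≤ ((v : ℝ) * 109 * 1871 * 7561 / (315 * 13 * 17 * 73 * 341 * 127 * 2047 * 8191 * 4)) * N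
        + 2 * MM := by
  have h1 := two_class (fun n => q ∣ n ∧ UU n = true) N s hs h
  have h3 := count_class q 3 hq (by norm_num) N
  have h5 := count_class q 5 hq (by norm_num) N
  have e1 : ∀ r : ℕ, ((Icc 1 N).filter fun n => n % 8 = r ∧ (q ∣ n ∧ UU n = true)) =
      ((Icc 1 N).filter fun n => (n % 8 == r && (n % q == 0 && UU n)) = true) := by
    intro r
    apply filter_congr
    intro n _
    rw [Bool.and_eq_true, Bool.and_eq_true, beq_iff_eq, beq_iff_eq, Nat.dvd_iff_mod_eq_zero]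
  rw [e1, e1] at h1
  have h2 : (#s : ℝ) ≤ (#((Icc 1 N).filter fun n => (n % 8 == 3 && (n % q == 0 && UU n)) = true) : ℝ)
      + (#((Icc 1 N).filter fun n => (n % 8 == 5 && (n % q == 0 && UU n)) = true) : ℝ) := by
    exact_mod_cast h1
  rw [hv] at h3 h5
  have e2 : ((v : ℝ) * 109 * 1871 * 7561 / (315 * 13 * 17 * 73 * 341 * 127 * 2047 * 8191 * 4)) * N =
      2 * (((v : ℝ) * 109 * 1871 * 7561 / (315 * 13 * 17 * 73 * 341 * 127 * 2047 * 8191 * 8)) * N) := by
    ring
  rw [e2]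
  linarith

/-- periodic sets mod `M` with `k` classes -/
theorem count_cnt (Q : ℕ → Bool) (M k : ℕ) (hM : 0 < M) (hQ : ∀ c, Q (c + M) = Q c)
    (hk : cnt M Q = k) (N : ℕ) (s : Finset ℕ) (hs : s ⊆ Icc 1 N) (h : ∀ n ∈ s, Q n = true) :
    (#s : ℝ) ≤ (k : ℝ) / M * N + M := by
  have h1 := count_le Q M hM hQ N
  rw [avg_ib, hk] at h1
  have h2 : s ⊆ (Icc 1 N).filter fun n => Q n = true := by
    intro n hn
    exact mem_filter.2 ⟨hs hn, h n hn⟩
  have h3 : (#s : ℝ) ≤ (#((Icc 1 N).filter fun n => Q n = true) : ℝ) := by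
    exact_mod_cast card_le_card h2
  push_cast at h1
  linarith

end TR
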