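import Pool.Agent.LibTR13.FinA

/-! MP_db25a0_nt: assembly, main count. -/

set_option autoImplicit false

namespace TR

open Polynomial Finset Filter

/-- the cases for a degree `n ≡ ±3 mod 8` -/
theorem cases (n : ℕ) (hn : n ∈ TT) (h : n % 8 = 3 ∨ n % 8 = 5) :
    n ≤ 637 ∨ UU n = true ∨ (∃ m, n = 7 * m ∧ 3 ∣ m ∧ UU m = true) ∨
      (∃ m, n = 49 * m ∧ 3 ∣ m ∧ UU m = true) ∨ 1029 ∣ n ∨
      ∃ e r : ℕ, e % 2 = 1 ∧ 5 ≤ e ∧ r ∈ ordS e ∧ e * r ∣ n := by
  obtain ⟨d, m, hdm, hm3, hirr, hr⟩ := struct n hn h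
  have hn2 : n % 2 = 1 := by omega
  have hm2 : m % 2 = 1 := by
    by_contra hc
    have : m % 2 = 0 := by omega
    have h2 : 2 ∣ n := by
      rw [hdm]; exact Dvd.dvd.mul_left (Nat.dvd_of_mod_eq_zero this) d
    omega
  have hd0 : d ≠ 0 := by
    rintro rfl
    rw [Nat.zero_mul] at hdm
    omega
  by_cases hall : ∀ r : ℕ, r.Prime → r ∣ d → r = 7
  · -- `d` is a power of 7
    obtain ⟨a, ha⟩ : ∃ a, d = 7 ^ a := by
      refine ⟨d.primeFactorsList.length, ?_⟩
      exact Nat.eq_prime_pow_of_unique_prime_dvd hd0 (fun {q} hq hqd => hall q hq hqd)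
    by_cases hm13 : m ≤ 13
    · rcases a with _ | _ | _ | a
      · left; rw [hdm, ha]; omega
      · left; rw [hdm, ha]; omega
      · left; rw [hdm, ha]; omega
      · right; right; right; right; left
        have h7 : 7 ∣ 2 ^ m - 1 := hr 7 (by norm_num) (by rw [ha, pow_succ]; exact dvd_mul_left _ _)
        have h3 : 3 ∣ m := by
          have h1 : orderOf (2 : ZMod 7) = 3 := orderOf_eq_prime (by decide) (by decide)
          rw [← h1]
          apply orderOf_dvd_of_pow_eq_one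
          have h2 : ((2 ^ m - 1 : ℕ) : ZMod 7) = 0 := (ZMod.natCast_eq_zero_iff _ _).2 h7
          rw [Nat.cast_sub Nat.one_le_two_pow] at h2
          push_cast at h2
          exact sub_eq_zero.1 h2
        obtain ⟨t, ht⟩ := h3
        refine ⟨7 ^ a * t, ?_⟩
        rw [hdm, ha, ht]; ring
    · have hU : UU m = true := UU_sound m (by omega) hirr
      rcases a with _ | a
      · right; left
        rw [hdm, ha, pow_zero, one_mul]; exact hU
      · have h7 : 7 ∣ 2 ^ m - 1 :=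
          hr 7 (by norm_num) (by rw [ha, pow_succ]; exact dvd_mul_left _ _)
        have h3 : 3 ∣ m := by
          have h1 : orderOf (2 : ZMod 7) = 3 := orderOf_eq_prime (by decide) (by decide)
          rw [← h1]
          apply orderOf_dvd_of_pow_eq_one
          have h2 : ((2 ^ m - 1 : ℕ) : ZMod 7) = 0 := (ZMod.natCast_eq_zero_iff _ _).2 h7
          rw [Nat.cast_sub Nat.one_le_two_pow] at h2
          push_cast at h2
          exact sub_eq_zero.1 h2
        rcases a with _ | _ | a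
        · right; right; left
          exact ⟨m, by rw [hdm, ha]; norm_num, h3, hU⟩
        · right; right; right; left
          exact ⟨m, by rw [hdm, ha]; norm_num, h3, hU⟩
        · right; right; right; right; left
          obtain ⟨t, ht⟩ := h3
          refine ⟨7 ^ a * t, ?_⟩
          rw [hdm, ha, ht]; ring
  · -- another prime
    push_neg at hall
    obtain ⟨r, hrp, hrd, hr7⟩ := hall
    have h1 := hr r hrp hrd
    right; right; right; right; right
    have hpow : (2 : ZMod r) ^ m = 1 := by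
      have h2 : ((2 ^ m - 1 : ℕ) : ZMod r) = 0 := (ZMod.natCast_eq_zero_iff _ _).2 h1
      rw [Nat.cast_sub Nat.one_le_two_pow] at h2
      push_cast at h2
      exact sub_eq_zero.1 h2
    have hem : orderOf (2 : ZMod r) ∣ m := orderOf_dvd_of_pow_eq_one hpow
    have he0 : 0 < orderOf (2 : ZMod r) := Nat.pos_of_dvd_of_pos hem (by omega)
    have heo : orderOf (2 : ZMod r) % 2 = 1 := by
      by_contra hc
      have h2 : 2 ∣ orderOf (2 : ZMod r) := by omega
      have := h2.trans hem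
      omega
    have hdiv : r ∣ 2 ^ orderOf (2 : ZMod r) - 1 := by
      rw [← ZMod.natCast_eq_zero_iff, Nat.cast_sub Nat.one_le_two_pow]
      push_cast
      rw [pow_orderOf_eq_one, sub_self]
    have he1 : orderOf (2 : ZMod r) ≠ 1 := by
      intro hc
      rw [hc] at hdiv
      norm_num at hdiv
      exact hrp.one_lt.ne' hdiv
    have he3 : orderOf (2 : ZMod r) ≠ 3 := by
      intro hc
      rw [hc] at hdiv
      norm_num at hdiv
      exact hr7 ((Nat.prime_dvd_prime_iff_eq hrp (by norm_num)).1 hdiv)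
    refine ⟨orderOf (2 : ZMod r), r, heo, by omega, (ordS_mem _ r he0).2 ⟨hrp, rfl⟩, ?_⟩
    rw [hdm, Nat.mul_comm]
    exact Nat.mul_dvd_mul hrd hem

theorem cnt_ne : cnt 8 (fun c => c % 8 != 0 && c % 8 != 3 && c % 8 != 5) = 5 := by decide +kernel

theorem cnt_1029 : cnt 8232 (fun c => (c % 8 == 3 || c % 8 == 5) && c % 1029 == 0) = 2 := by
  decide +kernel

theorem main_count : ∀ᶠ N : ℕ in atTop, ∀ s : Finset ℕ, s ⊆ Icc 1 N → (∀ n ∈ s, n ∈ TT) →
    (#s : ℝ) ≤ 2 / 3 * N := by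
  classical
  have hw : ∑' e, wt e ≤ 0.02222 := by
    have h1 := wt_tail_sum.2
    have h2 := wt_small
    linarith
  have hJ := count_mult 0.00001 (by norm_num)
  have hC : ∀ᶠ N : ℕ in atTop, (8 + 6 * (MM : ℝ) + 8232 + 637) ≤ 0.0001 * (N : ℝ) := by
    have h1 : Tendsto (fun N : ℕ => 0.0001 * (N : ℝ)) atTop atTop :=
      Tendsto.const_mul_atTop (by norm_num) tendsto_natCast_atTop_atTop
    exact h1.eventually (eventually_ge_atTop _)
  filter_upwards [hJ, hC] with N hN hN2 s hs hT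
  set P1 : ℕ → Prop := fun n => n % 8 = 3 ∨ n % 8 = 5 with hP1
  -- the pieces
  set A := s.filter fun n => ¬ P1 n with hA
  set B := s.filter fun n => P1 n ∧ n ≤ 637 with hB
  set D1 := s.filter fun n => P1 n ∧ UU n = true with hD1
  set D7 := s.filter fun n => P1 n ∧ ∃ m, n = 7 * m ∧ 3 ∣ m ∧ UU m = true with hD7
  set D49 := s.filter fun n => P1 n ∧ ∃ m, n = 49 * m ∧ 3 ∣ m ∧ UU m = true with hD49
  set G := s.filter fun n => P1 n ∧ 1029 ∣ n with hG
  set J := s.filter fun n => P1 n ∧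
    ∃ e r : ℕ, e % 2 = 1 ∧ 5 ≤ e ∧ r ∈ ordS e ∧ e * r ∣ n with hJd
  have hcov : s ⊆ A ∪ (B ∪ (D1 ∪ (D7 ∪ (D49 ∪ (G ∪ J))))) := by
    intro n hn
    simp only [mem_union, hA, hB, hD1, hD7, hD49, hG, hJd, mem_filter]
    by_cases h1 : P1 n
    · rcases cases n (hT n hn) h1 with h2 | h2 | h2 | h2 | h2 | h2
      · exact Or.inr (Or.inl ⟨hn, h1, h2⟩)
      · exact Or.inr (Or.inr (Or.inl ⟨hn, h1, h2⟩))
      · exact Or.inr (Or.inr (Or.inr (Or.inl ⟨hn, h1, h2⟩)))
      · exact Or.inr (Or.inr (Or.inr (Or.inr (Or.inl ⟨hn, h1, h2⟩))))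
      · exact Or.inr (Or.inr (Or.inr (Or.inr (Or.inr (Or.inl ⟨hn, h1, h2⟩)))))
      · exact Or.inr (Or.inr (Or.inr (Or.inr (Or.inr (Or.inr ⟨hn, h1, h2⟩)))))
    · exact Or.inl ⟨hn, h1⟩
  have hcard : (#s : ℝ) ≤ #A + (#B + (#D1 + (#D7 + (#D49 + (#G + #J))))) := by
    have h1 := card_le_card hcov
    have h2 : #(A ∪ (B ∪ (D1 ∪ (D7 ∪ (D49 ∪ (G ∪ J)))))) ≤
        #A + (#B + (#D1 + (#D7 + (#D49 + (#G + #J))))) := by
      refine (card_union_le _ _).trans (Nat.add_le_add_left ?_ _)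
      refine (card_union_le _ _).trans (Nat.add_le_add_left ?_ _)
      refine (card_union_le _ _).trans (Nat.add_le_add_left ?_ _)
      refine (card_union_le _ _).trans (Nat.add_le_add_left ?_ _)
      refine (card_union_le _ _).trans (Nat.add_le_add_left ?_ _)
      exact card_union_le _ _
    exact_mod_cast h1.trans h2
  have hsA : ∀ (p : ℕ → Prop) [DecidablePred p], s.filter p ⊆ Icc 1 N := fun p _ =>
    (filter_subset _ _).trans hs
  have bA : (#A : ℝ) ≤ 5 / 8 * N + 8 := by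
    refine (count_cnt (fun c => c % 8 != 0 && c % 8 != 3 && c % 8 != 5) 8 5 (by norm_num)
      (by intro c; rw [Nat.add_mod_right]) cnt_ne N A (hsA _) ?_).trans (by norm_num)
    intro n hn
    rw [hA, mem_filter] at hn
    have h0 := no8 n (hT n hn.1)
    have h3 : n % 8 ≠ 3 := fun h => hn.2 (Or.inl h)
    have h5 : n % 8 ≠ 5 := fun h => hn.2 (Or.inr h)
    rw [Bool.and_eq_true, Bool.and_eq_true, bne_iff_ne, bne_iff_ne, bne_iff_ne]
    exact ⟨⟨h0, h3⟩, h5⟩
  have bB : (#B : ℝ) ≤ 637 := by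
    have h1 : B ⊆ Icc 1 637 := by
      intro n hn
      rw [hB, mem_filter] at hn
      exact mem_Icc.2 ⟨(mem_Icc.1 (hs hn.1)).1, hn.2.2⟩
    have h2 := card_le_card h1
    rw [Nat.card_Icc] at h2
    exact_mod_cast h2
  have bD1 : (#D1 : ℝ) ≤ 0.0324851 * N + 2 * MM := by
    refine (count_UU 1 (by norm_num) 310958172 V1_eq N D1 (hsA _) ?_).trans ?_
    · intro n hn
      rw [hD1, mem_filter] at hn
      exact ⟨hn.2.1, one_dvd _, hn.2.2⟩
    · have hN0 : (0 : ℝ) ≤ N := Nat.cast_nonneg _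
      have h1 : ((310958172 : ℕ) : ℝ) * 109 * 1871 * 7561 /
          (315 * 13 * 17 * 73 * 341 * 127 * 2047 * 8191 * 4) ≤ 0.0324851 := by norm_num
      nlinarith
  have bq : ∀ (q : ℕ) (t : Finset ℕ), 0 < q → (q % 8 = 7 ∨ q % 8 = 1) → t ⊆ Icc 1 N →
      (∀ n ∈ t, P1 n ∧ ∃ m, n = q * m ∧ 3 ∣ m ∧ UU m = true) →
      (#t : ℝ) ≤ 0.0162426 * (N / q) + 2 * MM := by
    intro q t hq hq8 ht h
    set t' := t.image (fun n => n / q) with ht'
    have h1 : #t = #t' := by
      rw [ht', card_image_of_injOn]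
      intro a ha b hb hab
      obtain ⟨_, m1, hm1, _⟩ := h a ha
      obtain ⟨_, m2, hm2, _⟩ := h b hb
      simp only [hm1, hm2, Nat.mul_div_cancel_left _ hq] at hab
      rw [hm1, hm2, hab]
    have h2 : t' ⊆ Icc 1 (N / q) := by
      intro m hm
      rw [ht', mem_image] at hm
      obtain ⟨n, hn, hnm⟩ := hm
      have hn1 := mem_Icc.1 (ht hn)
      obtain ⟨_, m1, hm1, _⟩ := h n hn
      rw [mem_Icc, ← hnm]
      refine ⟨?_, Nat.div_le_div_right hn1.2⟩
      rw [hm1, Nat.mul_div_cancel_left _ hq]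
      by_contra hc
      have : m1 = 0 := by omega
      rw [this, Nat.mul_zero] at hm1
      omega
    have h3 := count_UU 3 (by norm_num) 155479086 V3_eq (N / q) t' h2 (by
      intro m hm
      rw [ht', mem_image] at hm
      obtain ⟨n, hn, hnm⟩ := hm
      obtain ⟨hp, m1, hm1, h31, hU⟩ := h n hn
      rw [hm1, Nat.mul_div_cancel_left _ hq] at hnm
      rw [← hnm]
      refine ⟨?_, h31, hU⟩
      have hp' : (q * m1) % 8 = 3 ∨ (q * m1) % 8 = 5 := by rw [← hm1]; exact hp
      rw [Nat.mul_mod] at hp'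
      have hm8 : m1 % 8 < 8 := Nat.mod_lt _ (by norm_num)
      rcases hq8 with h8 | h8 <;> rw [h8] at hp' <;> omega)
    rw [h1]
    refine h3.trans ?_
    have hN0 : (0 : ℝ) ≤ ((N / q : ℕ) : ℝ) := Nat.cast_nonneg _
    have h4 : ((155479086 : ℕ) : ℝ) * 109 * 1871 * 7561 /
        (315 * 13 * 17 * 73 * 341 * 127 * 2047 * 8191 * 4) ≤ 0.0162426 := by norm_num
    have h5 : ((N / q : ℕ) : ℝ) ≤ (N : ℝ) / q := Nat.cast_div_le
    nlinarith
  have bD7 : (#D7 : ℝ) ≤ 0.0162426 * (N / 7) + 2 * MM := by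
    have := bq 7 D7 (by norm_num) (Or.inl (by norm_num)) (hsA _) (fun n hn => by
      rw [hD7, mem_filter] at hn
      exact hn.2)
    exact_mod_cast this
  have bD49 : (#D49 : ℝ) ≤ 0.0162426 * (N / 49) + 2 * MM := by
    have := bq 49 D49 (by norm_num) (Or.inr (by norm_num)) (hsA _) (fun n hn => by
      rw [hD49, mem_filter] at hn
      exact hn.2)
    exact_mod_cast this
  have bG : (#G : ℝ) ≤ 2 / 8232 * N + 8232 := by
    have := count_cnt (fun c => (c % 8 == 3 || c % 8 == 5) && c % 1029 == 0) 8232 2 (by norm_num)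
      (by
        intro c
        have e1 : (c + 8232) % 8 = c % 8 := by omega
        have e2 : (c + 8232) % 1029 = c % 1029 := by omega
        rw [e1, e2]) cnt_1029 N G (hsA _) (by
        intro n hn
        rw [hG, mem_filter] at hn
        rw [Bool.and_eq_true, Bool.or_eq_true, beq_iff_eq, beq_iff_eq, beq_iff_eq]
        exact ⟨hn.2.1, Nat.mod_eq_zero_of_dvd hn.2.2⟩)
    exact_mod_cast this
  have bJ : (#J : ℝ) ≤ ((∑' e, wt e) / 4 + 0.00001) * N :=
    hN J (hsA _) (fun n hn => by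
      rw [hJd, mem_filter] at hn
      exact hn.2)
  have hN0 : (0 : ℝ) ≤ N := Nat.cast_nonneg _
  have bJ2 : ((∑' e, wt e) / 4 + 0.00001) * (N : ℝ) ≤ 0.005565001 * N := by
    apply mul_le_mul_of_nonneg_right _ hN0
    linarith
  linarith

end TR
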