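import Pool.Agent.LibTR13.Cert2
import Pool.Agent.LibTR13.Cert3
import Pool.Agent.LibTR13.Cert4
import Pool.Agent.LibTR13.Cert5
import Pool.Agent.LibTR13.Cert6
import Pool.Agent.LibTR13.Cert7
import Pool.Agent.LibTR13.Cert8
import Pool.Agent.LibTR13.Cert9
import Pool.Agent.LibTR13.Cert10
import Pool.Agent.LibTR13.Cert11
import Pool.Agent.LibTR13.Cert12
import Pool.Agent.LibTR13.Cert13

/-! MP_db25a0_nt: the sieve by factors of degree at most 13. -/

set_option autoImplicit false

namespace TR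

/-- no factor of degree 2, 3, 4, 6, 12 -/
def U0 (n : ℕ) : Bool :=
  !B2.testBit (n % 3) && !B3.testBit (n % 7) && !B4.testBit (n % 15) && !B6.testBit (n % 63)

/-- no factor of degree at most 13 found by the certificates -/
def UU (n : ℕ) : Bool :=
  U0 n && !B12.testBit (n % 4095) && !B8.testBit (n % 255) && !B9.testBit (n % 511) &&
    (!B5.testBit (n % 31) && !B10.testBit (n % 1023)) && !B7.testBit (n % 127) &&
    !B11.testBit (n % 2047) && !B13.testBit (n % 8191)

/-- number of `y < s` with `p y` -/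
def cnt (s : ℕ) (p : ℕ → Bool) : ℕ := Nat.rec 0 (fun y a => if p y = true then a + 1 else a) s

/-- sum over `c < s` -/
def sm (s : ℕ) (f : ℕ → ℕ) : ℕ := Nat.rec 0 (fun c a => a + f c) s

def n13 (c : ℕ) : ℕ := cnt 13 fun y => !B12.testBit ((c % 315 + 315 * y) % 4095)
def n17 (c : ℕ) : ℕ := cnt 17 fun y => !B8.testBit ((c % 15 + 15 * y) % 255)
def n73 (c : ℕ) : ℕ := cnt 73 fun y => !B9.testBit ((c % 7 + 7 * y) % 511)
def n341 (c : ℕ) : ℕ := cnt 341 fun y =>
  !B5.testBit ((c % 3 + 3 * y) % 31) && !B10.testBit ((c % 3 + 3 * y) % 1023)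
def n127 : ℕ := cnt 127 fun y => !B7.testBit (y % 127)
def n2047 : ℕ := cnt 2047 fun y => !B11.testBit (y % 2047)
def n8191 : ℕ := cnt 8191 fun y => !B13.testBit (y % 8191)

/-- the main sum; `q = 1` or `3`: only multiples of `q` -/
def V (q : ℕ) : ℕ :=
  sm 315 fun c => if (c % q == 0 && U0 c) = true then n13 c * n17 c * n73 c * n341 c else 0

theorem n127_eq : n127 = 109 := by decide +kernel

theorem n2047_eq : n2047 = 1871 := by decide +kernel

theorem n8191_eq : n8191 = 7561 := by decide +kernel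

end TR
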